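import Pool.Agent.H56.PO.Defs

/-!
# Module Zf (about 100 lines): the radial solution and its derivative

`zc τ r = 1 - (τ / sin τ) sinc r` is the continuous version of `zz τ r`; `- dz τ r` is its derivative.
PROOFS. `zc_deriv`: near `r ≠ 0` `zc τ` is `zz τ`. `dz_pos`: `τ / sin τ < 0` (`sin τ < 0` for `π < τ < 3π/2`), and
`r cos r - sin r < 0` on `(0, τ)`: the derivative of `sin r - r cos r` is `r sin r`, so it increases strictly on
`[0, π]` from `0`, and decreases strictly on `[π, τ]` to its value `0` at `τ`. `zc_anti`: derivative negative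
inside. `zc_tau`: `sinc τ = sin τ / τ`. `zc_surj`: intermediate value theorem. `fl_zc`: for `x > 0`
`(zc τ x - 1) x² = - (τ / sin τ) x sin x`, antiderivative `- (τ / sin τ) (sin x - x cos x)`.
-/

set_option autoImplicit false

namespace Pool.H56.PO

open MeasureTheory Filter Topology

/-- the radial solution in the ball of radius `τ` -/
noncomputable def zc (τ r : ℝ) : ℝ := 1 - τ / Real.sin τ * Real.sinc r

/-- minus the derivative of `zc` -/
noncomputable def dz (τ r : ℝ) : ℝ :=
  τ / Real.sin τ * (r * Real.cos r - Real.sin r) / r ^ 2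

private theorem zf_sin_neg {τ : ℝ} (hτ : IsTau τ) : Real.sin τ < 0 := by
  have h1 : Real.sin (τ - Real.pi) = -Real.sin τ := Real.sin_sub_pi τ
  have h2 : 0 < Real.sin (τ - Real.pi) := by
    refine Real.sin_pos_of_pos_of_lt_pi ?_ ?_
    · linarith [hτ.1]
    · linarith [hτ.2.1, Real.pi_pos]
  linarith

private theorem zf_der (x : ℝ) :
    HasDerivAt (fun x : ℝ => Real.sin x - x * Real.cos x) (x * Real.sin x) x := by
  have := (Real.hasDerivAt_sin x).sub ((hasDerivAt_id x).mul (Real.hasDerivAt_cos x))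
  refine this.congr_deriv ?_
  simp only [id]
  ring

private theorem zf_aux {τ : ℝ} (hτ : IsTau τ) {r : ℝ} (h0 : 0 < r) (h1 : r < τ) :
    0 < Real.sin r - r * Real.cos r := by
  have hc : Continuous (fun x : ℝ => Real.sin x - x * Real.cos x) :=
    Real.continuous_sin.sub (continuous_id.mul Real.continuous_cos)
  rcases le_or_gt r Real.pi with hr | hr
  · have hm : StrictMonoOn (fun x : ℝ => Real.sin x - x * Real.cos x) (Set.Icc 0 Real.pi) := by
      refine strictMonoOn_of_deriv_pos (convex_Icc 0 Real.pi) hc.continuousOn fun x hx => ?_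
      rw [interior_Icc] at hx
      rw [(zf_der x).deriv]
      exact mul_pos hx.1 (Real.sin_pos_of_pos_of_lt_pi hx.1 hx.2)
    have := hm ⟨le_refl _, Real.pi_pos.le⟩ ⟨h0.le, hr⟩ h0
    simpa using this
  · have hm : StrictAntiOn (fun x : ℝ => Real.sin x - x * Real.cos x) (Set.Icc Real.pi τ) := by
      refine strictAntiOn_of_deriv_neg (convex_Icc Real.pi τ) hc.continuousOn fun x hx => ?_
      rw [interior_Icc] at hx
      rw [(zf_der x).deriv]
      have hx0 : 0 < x := lt_trans Real.pi_pos hx.1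
      refine mul_neg_of_pos_of_neg hx0 ?_
      have h2 : Real.sin (x - Real.pi) = -Real.sin x := Real.sin_sub_pi x
      have h3 : 0 < Real.sin (x - Real.pi) := by
        refine Real.sin_pos_of_pos_of_lt_pi ?_ ?_
        · linarith [hx.1]
        · linarith [hx.2, hτ.2.1, Real.pi_pos]
      linarith
    have := hm ⟨hr.le, h1.le⟩ ⟨hτ.1.le, le_refl _⟩ h1
    simp only at this
    have h2 := hτ.2.2
    linarith

theorem zc_eq (τ : ℝ) {r : ℝ} (hr : r ≠ 0) : zc τ r = zz τ r := by
  unfold zc zz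
  rw [Real.sinc_of_ne_zero hr]
  by_cases h : Real.sin τ = 0
  · simp [h]
  · field_simp

theorem zc_cont (τ : ℝ) : Continuous (zc τ) := by
  unfold zc
  exact continuous_const.sub (continuous_const.mul Real.continuous_sinc)

theorem zc_deriv (τ : ℝ) {r : ℝ} (hr : r ≠ 0) : HasDerivAt (zc τ) (-dz τ r) r := by
  have h1 : HasDerivAt (fun x : ℝ => Real.sin x / x) ((Real.cos r * r - Real.sin r * 1) / r ^ 2) r :=
    (Real.hasDerivAt_sin r).div (hasDerivAt_id r) hr
  have h2 : HasDerivAt (fun x : ℝ => 1 - τ / Real.sin τ * (Real.sin x / x))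
      (-(τ / Real.sin τ * ((Real.cos r * r - Real.sin r * 1) / r ^ 2))) r :=
    (h1.const_mul _).const_sub 1
  have h3 : (zc τ) =ᶠ[𝓝 r] fun x : ℝ => 1 - τ / Real.sin τ * (Real.sin x / x) := by
    filter_upwards [isOpen_ne.mem_nhds hr] with x hx
    unfold zc
    rw [Real.sinc_of_ne_zero hx]
  have h4 : -dz τ r = -(τ / Real.sin τ * ((Real.cos r * r - Real.sin r * 1) / r ^ 2)) := by
    unfold dz
    ring
  rw [h4]
  exact h2.congr_of_eventuallyEq h3

theorem dz_cont (τ : ℝ) : ContinuousOn (dz τ) (Set.Ioi 0) := by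
  unfold dz
  refine ContinuousOn.div ?_ ?_ ?_
  · exact (continuous_const.mul ((continuous_id.mul Real.continuous_cos).sub
      Real.continuous_sin)).continuousOn
  · exact (continuous_pow 2).continuousOn
  · intro x hx
    exact pow_ne_zero 2 (ne_of_gt hx)

theorem dz_pos {τ : ℝ} (hτ : IsTau τ) {r : ℝ} (h0 : 0 < r) (h1 : r < τ) : 0 < dz τ r := by
  have hs := zf_sin_neg hτ
  have hp := zf_aux hτ h0 h1
  have hτ0 : 0 < τ := lt_trans Real.pi_pos hτ.1
  unfold dz
  refine div_pos ?_ (pow_pos h0 2)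
  refine mul_pos_of_neg_of_neg (div_neg_of_pos_of_neg hτ0 hs) ?_
  linarith

theorem zc_anti {τ : ℝ} (hτ : IsTau τ) : StrictAntiOn (zc τ) (Set.Icc 0 τ) := by
  refine strictAntiOn_of_deriv_neg (convex_Icc 0 τ) (zc_cont τ).continuousOn fun x hx => ?_
  rw [interior_Icc] at hx
  rw [(zc_deriv τ (ne_of_gt hx.1)).deriv]
  have := dz_pos hτ hx.1 hx.2
  linarith

theorem zc_tau {τ : ℝ} (hτ : IsTau τ) : zc τ τ = 0 := by
  have hs := zf_sin_neg hτ
  have hτ0 : 0 < τ := lt_trans Real.pi_pos hτ.1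
  unfold zc
  rw [Real.sinc_of_ne_zero hτ0.ne']
  have h1 : τ / Real.sin τ * (Real.sin τ / τ) = 1 := by
    rw [div_mul_div_comm, mul_comm, div_self]
    exact mul_ne_zero hs.ne hτ0.ne'
  rw [h1, sub_self]

theorem zc_surj {τ : ℝ} (hτ : IsTau τ) {t : ℝ} (h0 : 0 ≤ t) (h1 : t ≤ zc τ 0) :
    ∃ r ∈ Set.Icc 0 τ, zc τ r = t := by
  have hτ0 : 0 ≤ τ := (lt_trans Real.pi_pos hτ.1).le
  have h := intermediate_value_Icc' hτ0 (zc_cont τ).continuousOn
  have ht : t ∈ Set.Icc (zc τ τ) (zc τ 0) := by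
    rw [zc_tau hτ]
    exact ⟨h0, h1⟩
  obtain ⟨r, hr, hrt⟩ := h ht
  exact ⟨r, hr, hrt⟩

theorem fl_zc (τ : ℝ) {r : ℝ} (h0 : 0 ≤ r) : fl (zc τ) r = r ^ 2 * dz τ r := by
  have h1 : ∀ x : ℝ, (zc τ x - 1) * x ^ 2 = -(τ / Real.sin τ) * (x * Real.sin x) := by
    intro x
    unfold zc
    rcases eq_or_ne x 0 with hx | hx
    · subst hx
      simp
    · rw [Real.sinc_of_ne_zero hx]
      field_simp
      ring
  unfold fl
  simp_rw [h1]
  rw [intervalIntegral.integral_const_mul]
  have h2 : ∫ x in (0 : ℝ)..r, x * Real.sin x = (Real.sin r - r * Real.cos r) - (Real.sin 0 - 0 * Real.cos 0) := by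
    refine intervalIntegral.integral_eq_sub_of_hasDerivAt (f := fun x => Real.sin x - x * Real.cos x)
      (fun x _ => ?_) ?_
    · have := (Real.hasDerivAt_sin x).sub ((hasDerivAt_id x).mul (Real.hasDerivAt_cos x))
      refine this.congr_deriv ?_
      simp only [id]
      ring
    · exact (continuous_id.mul Real.continuous_sin).intervalIntegrable _ _
  rw [h2]
  unfold dz
  rcases eq_or_lt_of_le h0 with hr | hr
  · subst hr
    simp
  · have : r ≠ 0 := hr.ne'
    rw [Real.sin_zero]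
    field_simp
    ring

/-- there is a `τ` with `tan τ = τ` in `(π, 3π/2)`, and it is the first positive solution -/
theorem exists_tau : ∃ τ : ℝ, IsTau τ := by
  have h0 : Real.pi ≤ 3 * Real.pi / 2 := by
    have := Real.pi_pos
    linarith
  have hc : ContinuousOn (fun x : ℝ => Real.sin x - x * Real.cos x) (Set.Icc Real.pi (3 * Real.pi / 2)) :=
    (Real.continuous_sin.sub (continuous_id.mul Real.continuous_cos)).continuousOn
  have h := intermediate_value_Ioo' h0 hc
  have hc2 : Real.cos (3 * Real.pi / 2) = 0 := by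
    have : 3 * Real.pi / 2 = Real.pi / 2 + Real.pi := by ring
    rw [this, Real.cos_add_pi, Real.cos_pi_div_two, neg_zero]
  have hs2 : Real.sin (3 * Real.pi / 2) = -1 := by
    have : 3 * Real.pi / 2 = Real.pi / 2 + Real.pi := by ring
    rw [this, Real.sin_add_pi, Real.sin_pi_div_two]
  have hm : (0 : ℝ) ∈ Set.Ioo ((fun x : ℝ => Real.sin x - x * Real.cos x) (3 * Real.pi / 2))
      ((fun x : ℝ => Real.sin x - x * Real.cos x) Real.pi) := by
    simp only [hc2, hs2, Real.sin_pi, Real.cos_pi]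
    constructor
    · norm_num
    · have := Real.pi_pos
      linarith
  obtain ⟨τ, hτ, he⟩ := h hm
  refine ⟨τ, hτ.1, hτ.2, ?_⟩
  simp only at he
  linarith

end Pool.H56.PO
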