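import Pool.Agent.H56.PO.Main

/-!
# Public definitions and the public form of the theorem (MP_f4af34_an, helper56)
-/

set_option autoImplicit false

namespace Pool.H56.PO

open MeasureTheory Filter Topology

/-- `τ = 4.4934…`: the solution of `tan τ = τ` in `(π, 3π/2)` -/
def FirstZero (τ : ℝ) : Prop :=
  Real.pi < τ ∧ τ < 3 * Real.pi / 2 ∧ Real.sin τ = τ * Real.cos τ

/-- `D` is a nonempty bounded open set with boundary of class `C¹`: `D = {φ < 0}` for a `C¹` function `φ`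
whose derivative does not vanish on `{φ = 0}` -/
def C1Domain (D : Set E3) : Prop :=
  Bornology.IsBounded D ∧ D.Nonempty ∧ ∃ φ : E3 → ℝ, ContDiff ℝ 1 φ ∧ D = {x | φ x < 0} ∧
    ∀ x, φ x = 0 → fderiv ℝ φ x ≠ 0

/-- `u` is in `C²(D)` and solves `Δ u + k² u = 0` in `D` -/
def Helmholtz (D : Set E3) (k : ℝ) (u : E3 → ℝ) : Prop :=
  ContDiffOn ℝ 2 u D ∧ ∀ x ∈ D, lap u x + k ^ 2 * u x = 0

/-- `u → c` and `∇ u → 0` at the boundary of `D` -/
def Boundary (D : Set E3) (c : ℝ) (u : E3 → ℝ) : Prop :=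
  ∀ x ∈ frontier D, Tendsto u (𝓝[D] x) (𝓝 c) ∧ Tendsto (fderiv ℝ u) (𝓝[D] x) (𝓝 0)

/-- the overdetermined problem has a solution in `D` for the constant `k` -/
def Schiffer (D : Set E3) (k : ℝ) : Prop :=
  0 < k ∧ ∃ (c : ℝ) (u : E3 → ℝ), c ≠ 0 ∧ Helmholtz D k u ∧ Boundary D c u

theorem pub : ∃ τ : ℝ, FirstZero τ ∧ ∀ (D : Set E3) (k : ℝ), C1Domain D → Schiffer D k →
    4 * Real.pi / 3 * (τ / k) ^ 3 ≤ volume.real D ∧
      (volume.real D = 4 * Real.pi / 3 * (τ / k) ^ 3 → ∃ z : E3, D = Metric.ball z (τ / k)) := by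
  obtain ⟨τ, hτ⟩ := exists_tau
  refine ⟨τ, hτ, ?_⟩
  rintro D k ⟨hb, hn, φ, hφ, hD, hr⟩ ⟨hk, c, u, hc, ⟨hu, he⟩, hf⟩
  exact schiffer hτ hb hn hφ hD hr hk hc hu he hf

end Pool.H56.PO
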