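import Pool.Agent.H56.PO.Defs

/-!
# Module Tr (about 150 lines): trigonometric inequalities

`s(r) = sin r - r cos r`, `s' = r sin r`. PROOFS. `s_nonneg`: `s` increases on `[0, π]`, decreases on `[π, τ]`,
`s 0 = 0`, `s τ = 0`. `q_nonneg`: `q(r) = 3 sin r - 3 r cos r - r² sin r`, `q 0 = 0`, `q' = r s(r) ≥ 0`.
`cot_ge`: for `π < g ≤ τ` `sin g < 0`, so `g cos g / sin g ≥ 1` iff `s(g) ≥ 0`; strict for `g < τ`
(`s` is strictly decreasing on `[π, τ]`).
`G(g) = g³ + 3 g (g cot g - 1)`: `G' = -3 (g cot g - 1)² ≤ 0` on `(π, τ]`, `G τ = τ³`.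
`int_zz`: with `x = g cot g`: `∫_0^g (1 - g sin r / (r sin g))² r² dr = (5/6) g³ + g (x - 1) (2 + x / 2)`:
expand `(r - A' sin r)²`, `A' = g / sin g`; antiderivatives `r³/3`, `sin r - r cos r`, `r / 2 - sin r cos r / 2`;
`1 / sin² = 1 + cot²`.
`int_ge`: `≥ (5/6) τ³` from `G g ≥ τ³` and `x ≥ 1`; strict for `g < τ`.
-/

set_option autoImplicit false

namespace Pool.H56.PO

open MeasureTheory Filter Topology Real

private theorem tr_s_deriv (r : ℝ) :
    HasDerivAt (fun r : ℝ => sin r - r * cos r) (r * sin r) r := by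
  have h := (Real.hasDerivAt_sin r).sub ((hasDerivAt_id r).mul (Real.hasDerivAt_cos r))
  refine h.congr_deriv ?_
  simp only [id]
  ring

private theorem tr_s_mono : MonotoneOn (fun r : ℝ => sin r - r * cos r) (Set.Icc 0 π) := by
  refine monotoneOn_of_deriv_nonneg (convex_Icc _ _)
    (fun r _ => (tr_s_deriv r).continuousAt.continuousWithinAt)
    (fun r _ => (tr_s_deriv r).differentiableAt.differentiableWithinAt) fun r hr => ?_
  rw [interior_Icc] at hr
  rw [(tr_s_deriv r).deriv]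
  exact mul_nonneg hr.1.le (Real.sin_pos_of_pos_of_lt_pi hr.1 hr.2).le

private theorem tr_sin_neg {g : ℝ} (h0 : π < g) (h1 : g < 3 * π / 2) : sin g < 0 := by
  have h : 0 < sin (g - π) := Real.sin_pos_of_pos_of_lt_pi (by linarith) (by linarith [Real.pi_pos])
  rw [Real.sin_sub_pi] at h
  linarith

private theorem tr_s_anti {τ : ℝ} (hτ : IsTau τ) :
    StrictAntiOn (fun r : ℝ => sin r - r * cos r) (Set.Icc π τ) := by
  refine strictAntiOn_of_deriv_neg (convex_Icc _ _)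
    (fun r _ => (tr_s_deriv r).continuousAt.continuousWithinAt) fun r hr => ?_
  rw [interior_Icc] at hr
  rw [(tr_s_deriv r).deriv]
  exact mul_neg_of_pos_of_neg (by linarith [hr.1, Real.pi_pos])
    (tr_sin_neg hr.1 (by linarith [hr.2, hτ.2.1]))

private theorem tr_s_zero {τ : ℝ} (hτ : IsTau τ) : sin τ - τ * cos τ = 0 := by
  linarith [hτ.2.2]

private theorem tr_q_deriv (r : ℝ) :
    HasDerivAt (fun r : ℝ => 3 * (sin r - r * cos r) - r ^ 2 * sin r)
      (r * (sin r - r * cos r)) r := by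
  have h := ((tr_s_deriv r).const_mul 3).sub
    (((hasDerivAt_pow 2 r)).mul (Real.hasDerivAt_sin r))
  refine h.congr_deriv ?_
  simp only [Nat.cast_ofNat, Nat.add_one_sub_one, pow_one]
  ring

private theorem tr_strict {τ : ℝ} (hτ : IsTau τ) {g : ℝ} (h0 : π < g) (h1 : g < τ) :
    1 < g * cos g / sin g := by
  have hs := tr_sin_neg h0 (by linarith [hτ.2.1])
  have h := tr_s_anti hτ (a := g) (b := τ) ⟨h0.le, h1.le⟩ ⟨hτ.1.le, le_rfl⟩ h1
  simp only at h
  rw [tr_s_zero hτ] at h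
  rw [lt_div_iff_of_neg hs]
  linarith

private theorem tr_G_deriv {g : ℝ} (hs : sin g ≠ 0) :
    HasDerivAt (fun g : ℝ => g ^ 3 + 3 * (g ^ 2 * (cos g / sin g) - g))
      (-3 * (g * cos g / sin g - 1) ^ 2) g := by
  have h := (hasDerivAt_pow 3 g).add ((((hasDerivAt_pow 2 g).mul
    ((Real.hasDerivAt_cos g).div (Real.hasDerivAt_sin g) hs)).sub (hasDerivAt_id g)).const_mul 3)
  refine h.congr_deriv ?_
  simp only [Nat.cast_ofNat, Nat.add_one_sub_one, pow_one, Pi.div_apply]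
  field_simp
  ring_nf

private theorem tr_G_anti {τ : ℝ} (hτ : IsTau τ) :
    AntitoneOn (fun g : ℝ => g ^ 3 + 3 * (g ^ 2 * (cos g / sin g) - g)) (Set.Ioc π τ) := by
  have hs : ∀ r ∈ Set.Ioc π τ, sin r ≠ 0 := fun r hr =>
    (tr_sin_neg hr.1 (by linarith [hr.2, hτ.2.1])).ne
  refine antitoneOn_of_deriv_nonpos (convex_Ioc _ _)
    (fun r hr => (tr_G_deriv (hs r hr)).continuousAt.continuousWithinAt)
    (fun r hr => (tr_G_deriv (hs r (interior_subset hr))).differentiableAt.differentiableWithinAt)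
    fun r hr => ?_
  rw [(tr_G_deriv (hs r (interior_subset hr))).deriv]
  nlinarith [sq_nonneg (r * cos r / sin r - 1)]

private theorem tr_zz (g r : ℝ) : zz g r ^ 2 * r ^ 2 = (r - g / sin g * sin r) ^ 2 := by
  unfold zz
  rcases eq_or_ne r 0 with h | h
  · subst h
    simp
  · rw [← mul_pow]
    congr 1
    have : g * sin r / (sin g * r) * r = g / sin g * sin r := by
      rcases eq_or_ne (sin g) 0 with h2 | h2
      · rw [h2]; simp
      · field_simp
    rw [sub_mul, this, one_mul]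

private theorem tr_F_deriv (a r : ℝ) :
    HasDerivAt (fun r : ℝ => r ^ 3 / 3 - 2 * a * (sin r - r * cos r) +
      a ^ 2 * ((r - sin r * cos r) / 2)) ((r - a * sin r) ^ 2) r := by
  have h := ((((hasDerivAt_pow 3 r).div_const 3)).sub ((tr_s_deriv r).const_mul (2 * a))).add
    ((((hasDerivAt_id r).sub
      ((Real.hasDerivAt_sin r).mul (Real.hasDerivAt_cos r))).div_const 2).const_mul (a ^ 2))
  refine h.congr_deriv ?_
  have h2 : cos r ^ 2 = 1 - sin r ^ 2 := by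
    have := Real.sin_sq_add_cos_sq r
    linarith
  simp only [Nat.cast_ofNat, Nat.add_one_sub_one]
  ring_nf
  rw [h2]
  ring

private theorem tr_P_deriv (a b r : ℝ) :
    HasDerivAt (fun r : ℝ => 2 * r ^ 3 / 3 + a * (r ^ 2 * sin r + 2 * (r * cos r) - 2 * sin r) -
      b * (sin r - r * cos r)) (r * (2 * r + a * (r * cos r) - b * sin r)) r := by
  have h := (((((hasDerivAt_pow 3 r).const_mul 2).div_const 3)).add
    (((((hasDerivAt_pow 2 r).mul (Real.hasDerivAt_sin r)).add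
      (((hasDerivAt_id r).mul (Real.hasDerivAt_cos r)).const_mul 2)).sub
      ((Real.hasDerivAt_sin r).const_mul 2)).const_mul a)).sub ((tr_s_deriv r).const_mul b)
  refine h.congr_deriv ?_
  simp only [Nat.cast_ofNat, Nat.add_one_sub_one, id, pow_one]
  ring

theorem s_nonneg {τ : ℝ} (hτ : IsTau τ) {r : ℝ} (h0 : 0 ≤ r) (h1 : r ≤ τ) :
    r * cos r ≤ sin r := by
  rcases le_total r π with h | h
  · have h2 := tr_s_mono (a := 0) (b := r) ⟨le_rfl, Real.pi_pos.le⟩ ⟨h0, h⟩ h0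
    simp only [sin_zero, zero_mul, sub_zero] at h2
    linarith
  · have h2 : sin τ - τ * cos τ ≤ sin r - r * cos r :=
      (tr_s_anti hτ).antitoneOn (a := r) (b := τ) ⟨h, h1⟩ ⟨hτ.1.le, le_rfl⟩ h1
    rw [tr_s_zero hτ] at h2
    linarith

theorem q_nonneg {τ : ℝ} (hτ : IsTau τ) {r : ℝ} (h0 : 0 ≤ r) (h1 : r ≤ τ) :
    r ^ 2 * sin r ≤ 3 * (sin r - r * cos r) := by
  have hm : MonotoneOn (fun r : ℝ => 3 * (sin r - r * cos r) - r ^ 2 * sin r) (Set.Icc 0 τ) := by
    refine monotoneOn_of_deriv_nonneg (convex_Icc _ _)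
      (fun r _ => (tr_q_deriv r).continuousAt.continuousWithinAt)
      (fun r _ => (tr_q_deriv r).differentiableAt.differentiableWithinAt) fun r hr => ?_
    rw [interior_Icc] at hr
    rw [(tr_q_deriv r).deriv]
    exact mul_nonneg hr.1.le (by linarith [s_nonneg hτ hr.1.le hr.2.le])
  have h := hm (a := 0) (b := r) ⟨le_rfl, h0.trans h1⟩ ⟨h0, h1⟩ h0
  simp only [sin_zero, zero_mul, sub_zero, mul_zero] at h
  linarith

theorem sin_neg' {τ : ℝ} (hτ : IsTau τ) {g : ℝ} (h0 : π < g) (h1 : g ≤ τ) : sin g < 0 := by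
  exact tr_sin_neg h0 (by linarith [hτ.2.1])

theorem cot_ge {τ : ℝ} (hτ : IsTau τ) {g : ℝ} (h0 : π < g) (h1 : g ≤ τ) :
    1 ≤ g * cos g / sin g := by
  rw [le_div_iff_of_neg (sin_neg' hτ h0 h1)]
  linarith [s_nonneg hτ (by linarith [Real.pi_pos] : 0 ≤ g) h1]

theorem int_zz {τ : ℝ} (hτ : IsTau τ) {g : ℝ} (h0 : π < g) (h1 : g ≤ τ) :
    ∫ r in (0 : ℝ)..g, zz g r ^ 2 * r ^ 2 =
      5 / 6 * g ^ 3 + g * (g * cos g / sin g - 1) * (2 + g * cos g / sin g / 2) := by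
  have hs : sin g ≠ 0 := (sin_neg' hτ h0 h1).ne
  have h1' : ∫ r in (0 : ℝ)..g, zz g r ^ 2 * r ^ 2 =
      ∫ r in (0 : ℝ)..g, (r - g / sin g * sin r) ^ 2 := by
    congr 1
    funext r
    exact tr_zz g r
  rw [h1', intervalIntegral.integral_eq_sub_of_hasDerivAt (fun r _ => tr_F_deriv (g / sin g) r)
    ((by fun_prop : Continuous fun r : ℝ => (r - g / sin g * sin r) ^ 2).intervalIntegrable _ _)]
  have h2 : cos g ^ 2 = 1 - sin g ^ 2 := by
    have := Real.sin_sq_add_cos_sq g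
    linarith
  simp only [sin_zero, zero_mul, sub_zero, mul_zero]
  field_simp
  ring_nf
  rw [h2]
  ring

theorem int_zz_tau {τ : ℝ} (hτ : IsTau τ) :
    ∫ r in (0 : ℝ)..τ, zz τ r ^ 2 * r ^ 2 = 5 / 6 * τ ^ 3 := by
  have hs : sin τ ≠ 0 := (sin_neg' hτ hτ.1 le_rfl).ne
  rw [int_zz hτ hτ.1 le_rfl, ← hτ.2.2, div_self hs]
  ring

theorem int_zz_lt {τ : ℝ} (hτ : IsTau τ) {g : ℝ} (h0 : π < g) (h1 : g < τ) :
    5 / 6 * τ ^ 3 < ∫ r in (0 : ℝ)..g, zz g r ^ 2 * r ^ 2 := by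
  rw [int_zz hτ h0 h1.le]
  have hx := tr_strict hτ h0 h1
  have hG := tr_G_anti hτ (a := g) (b := τ) ⟨h0, h1.le⟩ ⟨hτ.1, le_rfl⟩ h1.le
  simp only at hG
  have hs : sin τ ≠ 0 := (sin_neg' hτ hτ.1 le_rfl).ne
  have hc : τ ^ 2 * (cos τ / sin τ) = τ := by
    rw [mul_div_assoc', div_eq_iff hs, hτ.2.2]
    ring
  have hg : g ^ 2 * (cos g / sin g) = g * (g * cos g / sin g) := by ring
  rw [hc, hg] at hG
  set x := g * cos g / sin g with hxd
  have hgp : 0 < g := Real.pi_pos.trans h0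
  have h3 : 0 < g * (x - 1) ^ 2 := mul_pos hgp (pow_pos (by linarith) 2)
  nlinarith

/-- `∫ r P = 2 ∫ z² r²` for `P = 2 r - A r cos r + A (2 + g cot g) sin r`, `A = - g / sin g` -/
theorem int_P {τ : ℝ} (hτ : IsTau τ) {g : ℝ} (h0 : π < g) (h1 : g ≤ τ) :
    ∫ r in (0 : ℝ)..g, r * (2 * r + g / sin g * (r * cos r) -
      g / sin g * (2 + g * cos g / sin g) * sin r) = 2 * ∫ r in (0 : ℝ)..g, zz g r ^ 2 * r ^ 2 := by
  have hs : sin g ≠ 0 := (sin_neg' hτ h0 h1).ne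
  rw [int_zz hτ h0 h1]
  rw [intervalIntegral.integral_eq_sub_of_hasDerivAt
    (fun r _ => tr_P_deriv (g / sin g) (g / sin g * (2 + g * cos g / sin g)) r)
    ((by fun_prop : Continuous fun r : ℝ => r * (2 * r + g / sin g * (r * cos r) -
      g / sin g * (2 + g * cos g / sin g) * sin r)).intervalIntegrable _ _)]
  simp only [sin_zero, zero_mul, sub_zero, mul_zero]
  field_simp
  ring_nf

end Pool.H56.PO
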