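import Pool.Agent.H56.PO.Wt
import Pool.Agent.H56.PO.Tr

/-!
# Module Core (about 120 lines): the lower bound for the second moment of a profile

PROOF. (a) `g ≤ π` is impossible (`pi_lt`): `weight` with `P = sin (π r / g)`, `P2 = -(π/g)² sin (π r / g)`,
`r P1 ≤ P` is `x cos x ≤ sin x` on `[0, π]`; left side `> 0`, right side `≤ 0`.
(b) `π < g ≤ τ` (`weak`): `weight` with `P = 2 r - A r cos r + B sin r`, `A = -g / sin g > 0`,
`B = A (2 + g cot g) ≥ 3 A`: `P + P'' = 2 r + 2 A sin r = 2 r z`, `z = zz g`, `P g = 0`,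
`P - r P' = - A r² sin r + B (sin r - r cos r) ≥ A (3 (sin r - r cos r) - r² sin r) ≥ 0` (`q_nonneg`, `s_nonneg`).
With `int_P`: `2 ∫ z² r² = ∫ r P ≤ 2 ∫ w z r²`. So `∫ z² r² ≤ ∫ w z r²` (`weak`), and
`0 ≤ ∫ (w - z)² r² = ∫ w² r² - 2 ∫ w z r² + ∫ z² r²` gives `∫ w² r² ≥ ∫ z² r²` (`second`).
(c) `core_lt`: `int_zz_lt`. (d) `core_eq`: `g = τ` and `∫ w² r² ≤ (5/6) τ³ = ∫ z² r²`: then
`∫ (w - z)² r² ≤ 0`, so `w = z` almost everywhere on `(0, τ)`, and everywhere because `w` is antitone and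
`z` is continuous.
-/

set_option autoImplicit false

namespace Pool.H56.PO

open MeasureTheory Filter Topology

/-- `x cos x ≤ sin x` on `[0, π]` -/
theorem mul_cos_le {x : ℝ} (h0 : 0 ≤ x) (h1 : x ≤ Real.pi) : x * Real.cos x ≤ Real.sin x := by
  rcases lt_or_ge x (Real.pi / 2) with h2 | h2
  · have hc : 0 < Real.cos x := Real.cos_pos_of_mem_Ioo ⟨by linarith [Real.pi_pos], h2⟩
    have h3 := Real.le_tan h0 h2
    rw [Real.tan_eq_sin_div_cos, le_div_iff₀ hc] at h3
    exact h3
  · have hc : Real.cos x ≤ 0 := Real.cos_nonpos_of_pi_div_two_le_of_le h2 (by linarith [Real.pi_pos])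
    have hs : 0 ≤ Real.sin x := Real.sin_nonneg_of_nonneg_of_le_pi h0 h1
    nlinarith [mul_nonneg h0 (neg_nonneg.2 hc)]

/-- integrability of continuous expressions in a profile -/
theorem Prof.int {g : ℝ} {w : ℝ → ℝ} (h : Prof g w) {F : ℝ → ℝ → ℝ}
    (hF : Continuous fun p : ℝ × ℝ => F p.1 p.2) :
    IntervalIntegrable (fun r => F (w r) r) volume 0 g := by
  obtain ⟨B, hB⟩ := h.bdd
  rw [intervalIntegrable_iff_integrableOn_Ioo_of_le h.pos.le]
  have hw : AEMeasurable w (volume.restrict (Set.Ioo 0 g)) :=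
    aemeasurable_restrict_of_antitoneOn measurableSet_Ioo h.anti
  obtain ⟨C, hC⟩ := ((isCompact_Icc (a := (0 : ℝ)) (b := B)).prod
    (isCompact_Icc (a := (0 : ℝ)) (b := g))).exists_bound_of_continuousOn hF.continuousOn
  refine Integrable.of_bound ?_ C ?_
  · exact (hF.measurable.comp_aemeasurable (hw.prodMk aemeasurable_id)).aestronglyMeasurable
  · refine (ae_restrict_iff' measurableSet_Ioo).2 (Eventually.of_forall fun r hr => ?_)
    exact hC (w r, r) ⟨⟨h.nonneg r hr, hB r hr⟩, ⟨hr.1.le, hr.2.le⟩⟩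

theorem pi_lt {g : ℝ} {w : ℝ → ℝ} (h : Prof g w) : Real.pi < g := by
  by_contra hlt
  push Not at hlt
  have hg := h.pos
  set a : ℝ := Real.pi / g with ha
  have ha1 : 1 ≤ a := by rw [ha, le_div_iff₀ hg]; linarith
  have hag : a * g = Real.pi := by rw [ha]; field_simp
  have hw := weight h (P := fun r => Real.sin (a * r)) (P1 := fun r => a * Real.cos (a * r))
    (P2 := fun r => -(a ^ 2 * Real.sin (a * r)))
    (fun r => by
      have := (Real.hasDerivAt_sin (a * r)).comp r ((hasDerivAt_id r).const_mul a)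
      refine this.congr_deriv ?_
      simp; ring)
    (fun r => by
      have := ((Real.hasDerivAt_cos (a * r)).comp r ((hasDerivAt_id r).const_mul a)).const_mul a
      refine this.congr_deriv ?_
      simp; ring)
    (by fun_prop) (by simp) (by simp only [hag, Real.sin_pi])
    (fun r hr => by
      have h1 : a * r ≤ Real.pi := by
        rw [← hag]; exact mul_le_mul_of_nonneg_left hr.2 (by linarith)
      have := mul_cos_le (mul_nonneg (by linarith) hr.1) h1
      calc r * (a * Real.cos (a * r)) = a * r * Real.cos (a * r) := by ring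
        _ ≤ _ := this)
  have hpos : 0 < ∫ r in (0 : ℝ)..g, r * Real.sin (a * r) := by
    refine intervalIntegral.intervalIntegral_pos_of_pos_on
      ((by fun_prop : Continuous fun r : ℝ => r * Real.sin (a * r)).intervalIntegrable _ _)
      (fun r hr => ?_) hg
    refine mul_pos hr.1 (Real.sin_pos_of_pos_of_lt_pi (mul_pos (by linarith) hr.1) ?_)
    rw [← hag]; exact mul_lt_mul_of_pos_left hr.2 (by linarith)
  have hneg : ∫ r in (0 : ℝ)..g,
      w r * (r * (Real.sin (a * r) + -(a ^ 2 * Real.sin (a * r)))) ≤ 0 := by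
    rw [intervalIntegral.integral_of_le hg.le, integral_Ioc_eq_integral_Ioo]
    refine setIntegral_nonpos measurableSet_Ioo fun r hr => ?_
    have h1 : a * r < Real.pi := by
      rw [← hag]; exact mul_lt_mul_of_pos_left hr.2 (by linarith)
    have h2 : 0 ≤ Real.sin (a * r) :=
      Real.sin_nonneg_of_nonneg_of_le_pi (mul_nonneg (by linarith) hr.1.le) h1.le
    have h3 : Real.sin (a * r) + -(a ^ 2 * Real.sin (a * r)) ≤ 0 := by
      nlinarith [mul_nonneg h2 (by nlinarith : 0 ≤ a ^ 2 - 1)]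
    exact mul_nonpos_of_nonneg_of_nonpos (h.nonneg r hr)
      (mul_nonpos_of_nonneg_of_nonpos hr.1.le h3)
  exact absurd (hpos.trans_le (hw.trans hneg)) (lt_irrefl _)

theorem r_zz {g : ℝ} (r : ℝ) : zz g r * r = r - g / Real.sin g * Real.sin r := by
  rcases eq_or_ne r 0 with rfl | hr
  · simp
  · unfold zz
    rcases eq_or_ne (Real.sin g) 0 with h0 | h0
    · simp [h0]
    · field_simp

theorem weak {τ : ℝ} (hτ : IsTau τ) {g : ℝ} {w : ℝ → ℝ} (h : Prof g w) (hg : g ≤ τ) :
    ∫ r in (0 : ℝ)..g, zz g r ^ 2 * r ^ 2 ≤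
      ∫ r in (0 : ℝ)..g, w r * r * (r - g / Real.sin g * Real.sin r) := by
  have hπ := pi_lt h
  have hs := sin_neg' hτ hπ hg
  have hcot := cot_ge hτ hπ hg
  have hg0 := h.pos
  have hc : g / Real.sin g < 0 := div_neg_of_pos_of_neg hg0 hs
  have hI := int_P hτ hπ hg
  set c : ℝ := g / Real.sin g with hcdef
  set D : ℝ := 2 + g * Real.cos g / Real.sin g with hD
  have hD3 : 3 ≤ D := by linarith
  have hcs : c * Real.sin g = g := by rw [hcdef]; field_simp [hs.ne]
  have hcD : c * D * Real.sin g = 2 * g + c * (g * Real.cos g) := by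
    rw [hD, hcdef]; field_simp [hs.ne]
  have hw := weight h (P := fun r => 2 * r + c * (r * Real.cos r) - c * D * Real.sin r)
    (P1 := fun r => 2 + c * (Real.cos r - r * Real.sin r) - c * D * Real.cos r)
    (P2 := fun r => c * (-Real.sin r - (Real.sin r + r * Real.cos r)) + c * D * Real.sin r)
    (fun r => by
      have h1 := ((hasDerivAt_id r).mul (Real.hasDerivAt_cos r)).const_mul c
      have h2 := (((hasDerivAt_id r).const_mul 2).add h1).sub
        ((Real.hasDerivAt_sin r).const_mul (c * D))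
      refine h2.congr_deriv ?_
      simp only [id]; ring)
    (fun r => by
      have h1 := ((Real.hasDerivAt_cos r).sub
        ((hasDerivAt_id r).mul (Real.hasDerivAt_sin r))).const_mul c
      have h2 := ((h1.const_add 2)).sub ((Real.hasDerivAt_cos r).const_mul (c * D))
      refine h2.congr_deriv ?_
      simp)
    (by fun_prop) (by simp)
    (by rw [hcD]; ring)
    (fun r hr => by
      have h1 := s_nonneg hτ hr.1 (hr.2.trans hg)
      have h2 := q_nonneg hτ hr.1 (hr.2.trans hg)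
      have h3 : 0 ≤ D * (Real.sin r - r * Real.cos r) - r ^ 2 * Real.sin r := by
        nlinarith [mul_nonneg (sub_nonneg.2 hD3) (sub_nonneg.2 h1)]
      have h4 := mul_nonneg (neg_nonneg.2 hc.le) h3
      nlinarith [h4])
  have e1 : ∀ r : ℝ, w r * (r * (2 * r + c * (r * Real.cos r) - c * D * Real.sin r +
      (c * (-Real.sin r - (Real.sin r + r * Real.cos r)) + c * D * Real.sin r))) =
      2 * (w r * r * (r - c * Real.sin r)) := fun r => by ring
  simp only [e1] at hw
  rw [intervalIntegral.integral_const_mul, hI] at hw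
  linarith

theorem sq_int {τ : ℝ} (hτ : IsTau τ) {g : ℝ} {w : ℝ → ℝ} (h : Prof g w) (hg : g ≤ τ) :
    ∫ r in (0 : ℝ)..g, (w r * r - (r - g / Real.sin g * Real.sin r)) ^ 2 ≤
      (∫ r in (0 : ℝ)..g, w r ^ 2 * r ^ 2) - ∫ r in (0 : ℝ)..g, zz g r ^ 2 * r ^ 2 := by
  have hwk := weak hτ h hg
  set c : ℝ := g / Real.sin g with hcdef
  have e0 : (fun r : ℝ => (w r * r - (r - c * Real.sin r)) ^ 2) = fun r =>
      w r ^ 2 * r ^ 2 - 2 * (w r * r * (r - c * Real.sin r)) + zz g r ^ 2 * r ^ 2 := by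
    funext r
    have := r_zz (g := g) r
    rw [← hcdef] at this
    rw [← this]; ring
  have i1 : IntervalIntegrable (fun r => w r ^ 2 * r ^ 2) volume 0 g :=
    h.int (F := fun a r => a ^ 2 * r ^ 2) (by fun_prop)
  have i2 : IntervalIntegrable (fun r => 2 * (w r * r * (r - c * Real.sin r))) volume 0 g :=
    h.int (F := fun a r => 2 * (a * r * (r - c * Real.sin r))) (by fun_prop)
  have i3 : IntervalIntegrable (fun r => zz g r ^ 2 * r ^ 2) volume 0 g := by
    have : (fun r => zz g r ^ 2 * r ^ 2) = fun r => (r - c * Real.sin r) ^ 2 := by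
      funext r
      rw [← mul_pow, r_zz, ← hcdef]
    rw [this]
    exact (by fun_prop : Continuous fun r : ℝ => (r - c * Real.sin r) ^ 2).intervalIntegrable _ _
  rw [e0, intervalIntegral.integral_add (i1.sub i2) i3, intervalIntegral.integral_sub i1 i2,
    intervalIntegral.integral_const_mul]
  linarith

theorem second {τ : ℝ} (hτ : IsTau τ) {g : ℝ} {w : ℝ → ℝ} (h : Prof g w) (hg : g ≤ τ) :
    ∫ r in (0 : ℝ)..g, zz g r ^ 2 * r ^ 2 ≤ ∫ r in (0 : ℝ)..g, w r ^ 2 * r ^ 2 := by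
  have h1 := sq_int hτ h hg
  have h2 : 0 ≤ ∫ r in (0 : ℝ)..g, (w r * r - (r - g / Real.sin g * Real.sin r)) ^ 2 :=
    intervalIntegral.integral_nonneg h.pos.le fun r _ => sq_nonneg _
  linarith

theorem core_lt {τ : ℝ} (hτ : IsTau τ) {g : ℝ} {w : ℝ → ℝ} (h : Prof g w) (hg : g < τ) :
    5 / 6 * τ ^ 3 < ∫ r in (0 : ℝ)..g, w r ^ 2 * r ^ 2 :=
  (int_zz_lt hτ (pi_lt h) hg).trans_le (second hτ h hg.le)

theorem core_eq {τ : ℝ} (hτ : IsTau τ) {w : ℝ → ℝ} (h : Prof τ w)
    (he : ∫ r in (0 : ℝ)..τ, w r ^ 2 * r ^ 2 ≤ 5 / 6 * τ ^ 3) :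
    ∀ r ∈ Set.Ioo 0 τ, w r = zz τ r := by
  have h1 := sq_int hτ h le_rfl
  rw [int_zz_tau hτ] at h1
  have i1 : IntervalIntegrable (fun r => (w r * r - (r - τ / Real.sin τ * Real.sin r)) ^ 2)
      volume 0 τ :=
    h.int (F := fun a r => (a * r - (r - τ / Real.sin τ * Real.sin r)) ^ 2) (by fun_prop)
  have h2 : ∫ r in (0 : ℝ)..τ, (w r * r - (r - τ / Real.sin τ * Real.sin r)) ^ 2 = 0 :=
    le_antisymm (by linarith)
      (intervalIntegral.integral_nonneg h.pos.le fun r _ => sq_nonneg _)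
  rw [intervalIntegral.integral_of_le h.pos.le, integral_Ioc_eq_integral_Ioo] at h2
  rw [intervalIntegrable_iff_integrableOn_Ioo_of_le h.pos.le] at i1
  rw [setIntegral_eq_zero_iff_of_nonneg_ae (Eventually.of_forall fun r => sq_nonneg _) i1] at h2
  have h3 : volume {x | ¬ (x ∈ Set.Ioo 0 τ → w x = zz τ x)} = 0 := by
    have h4 : ∀ᵐ x ∂volume, x ∈ Set.Ioo 0 τ →
        (w x * x - (x - τ / Real.sin τ * Real.sin x)) ^ 2 = 0 :=
      (ae_restrict_iff' measurableSet_Ioo).1 h2
    refine ae_iff.1 (h4.mono fun x hx hm => ?_)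
    have h5 := pow_eq_zero_iff (two_ne_zero) |>.1 (hx hm)
    rw [← r_zz, ← sub_mul] at h5
    rcases mul_eq_zero.1 h5 with h6 | h6
    · linarith
    · exact absurd h6 hm.1.ne'
  have hfreq : ∀ a b : ℝ, 0 ≤ a → b ≤ τ → a < b → ∃ x ∈ Set.Ioo a b, w x = zz τ x := by
    intro a b ha hb hab
    by_contra hne
    push Not at hne
    have hsub : Set.Ioo a b ⊆ {x | ¬ (x ∈ Set.Ioo 0 τ → w x = zz τ x)} := fun x hx hx' =>
      hne x hx (hx' ⟨ha.trans_lt hx.1, hx.2.trans_le hb⟩)
    have := measure_mono_null hsub h3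
    rw [Real.volume_Ioo, ENNReal.ofReal_eq_zero] at this
    linarith
  intro r hr
  have hcont : ContinuousAt (zz τ) r := by
    unfold zz
    refine continuousAt_const.sub (ContinuousAt.div (by fun_prop) (by fun_prop) ?_)
    exact mul_ne_zero (sin_neg' hτ hτ.1 le_rfl).ne hr.1.ne'
  refine le_antisymm ?_ ?_
  · refine le_of_forall_pos_le_add fun ε hε => ?_
    obtain ⟨δ, hδ, hd⟩ := Metric.continuousAt_iff.1 hcont ε hε
    obtain ⟨x, hx, hxe⟩ := hfreq (max 0 (r - δ)) r (le_max_left _ _) hr.2.le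
      (max_lt hr.1 (by linarith))
    have hx0 : 0 < x := (le_max_left _ _).trans_lt hx.1
    have hx1 : r - δ < x := (le_max_right _ _).trans_lt hx.1
    have h6 := h.anti ⟨hx0, hx.2.trans hr.2⟩ hr hx.2.le
    have h7 := hd (x := x) (by rw [Real.dist_eq, abs_lt]; constructor <;> linarith [hx.2])
    rw [Real.dist_eq, abs_lt] at h7
    rw [hxe] at h6
    linarith [h7.2]
  · refine le_of_forall_pos_le_add fun ε hε => ?_
    obtain ⟨δ, hδ, hd⟩ := Metric.continuousAt_iff.1 hcont ε hε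
    obtain ⟨x, hx, hxe⟩ := hfreq r (min τ (r + δ)) hr.1.le (min_le_left _ _)
      (lt_min hr.2 (by linarith))
    have hx0 : x < τ := hx.2.trans_le (min_le_left _ _)
    have hx1 : x < r + δ := hx.2.trans_le (min_le_right _ _)
    have h6 := h.anti hr ⟨hr.1.trans hx.1, hx0⟩ hx.1.le
    have h7 := hd (x := x) (by rw [Real.dist_eq, abs_lt]; constructor <;> linarith [hx.1])
    rw [Real.dist_eq, abs_lt] at h7
    rw [hxe] at h6
    linarith [h7.1]

end Pool.H56.PO
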