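import Pool.Agent.H56.PO.Slab

/-!
# Module EqB (about 150 lines): the gradient bound in the equality case

PROOF. Suppose `dz τ r + 2 δ < ‖fderiv v x‖` with `δ > 0`. Choose `0 < a < r < b < τ` with
`|dz τ y - dz τ r| ≤ δ` for `y ∈ [a, b]` (`dz_cont`). Let `U` be the open set of all `y` with
`zc τ b < v y < zc τ a` and `dz τ r + 2 δ < ‖fderiv v y‖`; `x ∈ U` (`zc_anti`), so `|U| > 0`. Let
`F ρ = |U ∩ {zc τ ρ ≤ v}|`. By `slab` the function `F` is Lipschitz on `[a, b]` and its right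
derivative vanishes, so `0 = F a = F b = |U|`. Contradiction.
-/

set_option autoImplicit false

namespace Pool.H56.PO

open MeasureTheory Filter Topology

private theorem eqb_step {D : Set E3} {v : E3 → ℝ} {τ : ℝ} (h : Eq1 D v τ) {r a b δ : ℝ}
    (ha : 0 < a) (hb : b < τ) (hδ : 0 < δ) {U : Set E3} (hU : IsOpen U)
    (hUg : ∀ y ∈ U, dz τ r + 2 * δ < ‖fderiv ℝ v y‖) {ρ' ρ m M : ℝ}
    (h1 : a ≤ ρ') (h2 : ρ' < ρ) (h3 : ρ ≤ b) (hm : 0 ≤ m)
    (hmM : ∀ x ∈ Set.Icc ρ' ρ, m ≤ dz τ x ∧ dz τ x ≤ M) (hmr : m ≤ dz τ r + δ) :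
    δ ^ 2 * (volume.real (U ∩ {y | zc τ ρ ≤ v y}) - volume.real (U ∩ {y | zc τ ρ' ≤ v y})) ≤
      4 * Real.pi * (ρ - ρ') * (ρ ^ 2 * M ^ 2 - 2 * m ^ 2 * ρ' ^ 2 + m ^ 2 * ρ ^ 2) := by
  have hs := slab h (ha.trans_le h1) h2 (h3.trans_lt hb) hm hmM
  refine le_trans ?_ hs
  have hv : Continuous v := h.sol.cont
  have hfd : Continuous (fderiv ℝ v) := h.sol.c1.continuous_fderiv (by norm_num)
  have hpos : 0 < zc τ ρ := by
    rw [← zc_tau h.tau]
    refine zc_anti h.tau ⟨?_, ?_⟩ ⟨?_, le_refl _⟩ ?_ <;> linarith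
  set S : Set E3 := {y | zc τ ρ ≤ v y ∧ v y ≤ zc τ ρ'} with hS
  have hSc : IsClosed S :=
    (isClosed_le continuous_const hv).inter (isClosed_le hv continuous_const)
  have hSD : S ⊆ closure D := by
    intro y hy
    by_contra hn
    have : v y = 0 := h.sol.zero y fun hd => hn (subset_closure hd)
    have h5 : zc τ ρ ≤ v y := hy.1
    linarith
  have hScp : IsCompact S :=
    IsCompact.of_isClosed_subset h.sol.bd.isCompact_closure hSc hSD
  have hint : IntegrableOn (fun y => (‖fderiv ℝ v y‖ - m) ^ 2) S volume :=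
    (((hfd.norm.sub continuous_const).pow 2).continuousOn).integrableOn_compact hScp
  have hSfin : volume S ≠ ⊤ := hScp.measure_lt_top.ne
  have hUS : MeasurableSet (U ∩ S) := hU.measurableSet.inter hSc.measurableSet
  have hUSfin : volume (U ∩ S) ≠ ⊤ :=
    ne_top_of_le_ne_top hSfin (measure_mono Set.inter_subset_right)
  have hfinlev : ∀ c, 0 < c → volume (U ∩ {y | c ≤ v y}) ≠ ⊤ := by
    intro c hc
    refine ne_top_of_le_ne_top h.sol.bd.isCompact_closure.measure_lt_top.ne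
      (measure_mono ?_)
    intro y hy
    by_contra hn
    have h4 : v y = 0 := h.sol.zero y fun hd => hn (subset_closure hd)
    have h5 : c ≤ v y := hy.2
    linarith
  have hpos' : 0 < zc τ ρ' := by
    rw [← zc_tau h.tau]
    refine zc_anti h.tau ⟨?_, ?_⟩ ⟨?_, le_refl _⟩ ?_ <;> linarith
  have hcov : volume.real (U ∩ {y | zc τ ρ ≤ v y}) ≤
      volume.real (U ∩ {y | zc τ ρ' ≤ v y}) + volume.real (U ∩ S) := by
    refine le_trans (measureReal_mono (s₂ := (U ∩ {y | zc τ ρ' ≤ v y}) ∪ (U ∩ S)) ?_ ?_)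
      (measureReal_union_le _ _)
    · intro y hy
      have hy1 : zc τ ρ ≤ v y := hy.2
      by_cases hc : zc τ ρ' ≤ v y
      · exact Or.inl ⟨hy.1, hc⟩
      · exact Or.inr ⟨hy.1, hy1, (not_le.mp hc).le⟩
    · exact (measure_union_ne_top (hfinlev _ hpos') hUSfin)
  have hlow : δ ^ 2 * volume.real (U ∩ S) ≤ ∫ y in U ∩ S, (‖fderiv ℝ v y‖ - m) ^ 2 := by
    have h6 : ∫ _y in U ∩ S, δ ^ 2 = δ ^ 2 * volume.real (U ∩ S) := by
      rw [setIntegral_const, smul_eq_mul, mul_comm]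
    rw [← h6]
    refine setIntegral_mono_on (integrableOn_const hUSfin)
      (hint.mono_set Set.inter_subset_right) hUS ?_
    intro y hy
    have := hUg y hy.1
    have h7 : δ ≤ ‖fderiv ℝ v y‖ - m := by linarith
    exact pow_le_pow_left₀ hδ.le h7 2
  have hup : ∫ y in U ∩ S, (‖fderiv ℝ v y‖ - m) ^ 2 ≤ ∫ y in S, (‖fderiv ℝ v y‖ - m) ^ 2 := by
    refine setIntegral_mono_set hint ?_ (Filter.Eventually.of_forall fun y hy => hy.2)
    exact Filter.Eventually.of_forall fun y => sq_nonneg _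
  have h8 : 0 < δ ^ 2 := by positivity
  nlinarith

theorem grad_le {D : Set E3} {v : E3 → ℝ} {τ : ℝ} (h : Eq1 D v τ) {x : E3} {r : ℝ} (h0 : 0 < r)
    (h1 : r < τ) (hx : v x = zc τ r) : ‖fderiv ℝ v x‖ ≤ dz τ r := by
  by_contra hcon
  rw [not_le] at hcon
  obtain ⟨δ, hδ, hδ2⟩ : ∃ δ : ℝ, 0 < δ ∧ dz τ r + 2 * δ < ‖fderiv ℝ v x‖ :=
    ⟨(‖fderiv ℝ v x‖ - dz τ r) / 3, by linarith, by linarith⟩
  have hv : Continuous v := h.sol.cont
  have hfd : Continuous (fderiv ℝ v) := h.sol.c1.continuous_fderiv (by norm_num)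
  have hdzc : ∀ y, 0 < y → ContinuousAt (dz τ) y := fun y hy =>
    (dz_cont τ).continuousAt (Ioi_mem_nhds hy)
  -- the interval
  obtain ⟨a, b, ha, har, hrb, hb, hab⟩ : ∃ a b : ℝ, 0 < a ∧ a < r ∧ r < b ∧ b < τ ∧
      ∀ y ∈ Set.Icc a b, |dz τ y - dz τ r| ≤ δ := by
    obtain ⟨η, hη, hη2⟩ := Metric.continuousAt_iff.mp (hdzc r h0) δ hδ
    refine ⟨max (r / 2) (r - η / 2), min ((r + τ) / 2) (r + η / 2), ?_, ?_, ?_, ?_, ?_⟩
    · exact lt_max_of_lt_left (by linarith)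
    · exact max_lt (by linarith) (by linarith)
    · exact lt_min (by linarith) (by linarith)
    · exact min_lt_of_left_lt (by linarith)
    · intro y hy
      have h2 := (le_max_right (r / 2) (r - η / 2)).trans hy.1
      have h3 := hy.2.trans (min_le_right ((r + τ) / 2) (r + η / 2))
      have h4 : dist y r < η := by
        rw [Real.dist_eq, abs_lt]
        constructor <;> linarith
      have := hη2 h4
      rw [Real.dist_eq] at this
      exact this.le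
  set U : Set E3 := {y | (zc τ b < v y ∧ v y < zc τ a) ∧ dz τ r + 2 * δ < ‖fderiv ℝ v y‖}
    with hU
  have hUo : IsOpen U :=
    ((isOpen_lt continuous_const hv).inter (isOpen_lt hv continuous_const)).inter
      (isOpen_lt continuous_const hfd.norm)
  have hxU : x ∈ U := by
    refine ⟨⟨?_, ?_⟩, hδ2⟩
    · rw [hx]
      exact zc_anti h.tau ⟨by linarith, by linarith⟩ ⟨by linarith, by linarith⟩ hrb
    · rw [hx]
      exact zc_anti h.tau ⟨by linarith, by linarith⟩ ⟨by linarith, by linarith⟩ har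
  have hUg : ∀ y ∈ U, dz τ r + 2 * δ < ‖fderiv ℝ v y‖ := fun y hy => hy.2
  have hposb : 0 < zc τ b := by
    rw [← zc_tau h.tau]
    exact zc_anti h.tau ⟨by linarith, by linarith⟩ ⟨by linarith, le_refl _⟩ hb
  have hUD : U ⊆ closure D := by
    intro y hy
    by_contra hn
    have h4 : v y = 0 := h.sol.zero y fun hd => hn (subset_closure hd)
    have h5 : zc τ b < v y := hy.1.1
    linarith
  have hUfin : volume U ≠ ⊤ :=
    ne_top_of_le_ne_top h.sol.bd.isCompact_closure.measure_lt_top.ne (measure_mono hUD)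
  set F : ℝ → ℝ := fun ρ => volume.real (U ∩ {y | zc τ ρ ≤ v y}) with hF
  have hstep : ∀ ρ' ρ m M : ℝ, a ≤ ρ' → ρ' < ρ → ρ ≤ b → 0 ≤ m →
      (∀ x ∈ Set.Icc ρ' ρ, m ≤ dz τ x ∧ dz τ x ≤ M) → m ≤ dz τ r + δ →
      δ ^ 2 * (F ρ - F ρ') ≤
      4 * Real.pi * (ρ - ρ') * (ρ ^ 2 * M ^ 2 - 2 * m ^ 2 * ρ' ^ 2 + m ^ 2 * ρ ^ 2) :=
    fun ρ' ρ m M i1 i2 i3 i4 i5 i6 => eqb_step h ha hb hδ hUo hUg i1 i2 i3 i4 i5 i6
  have hmono : ∀ ρ' ρ : ℝ, a ≤ ρ' → ρ' ≤ ρ → ρ ≤ b → F ρ' ≤ F ρ := by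
    intro ρ' ρ i1 i2 i3
    refine measureReal_mono ?_ (ne_top_of_le_ne_top hUfin (measure_mono Set.inter_subset_left))
    intro y hy
    have h5 : zc τ ρ' ≤ v y := hy.2
    have h6 : zc τ ρ ≤ zc τ ρ' := by
      rcases i2.eq_or_lt with h7 | h7
      · rw [h7]
      · exact (zc_anti h.tau ⟨by linarith, by linarith⟩ ⟨by linarith, by linarith⟩ h7).le
    exact ⟨hy.1, h6.trans h5⟩
  have hdpos : ∀ y, a ≤ y → y ≤ b → 0 < dz τ y := fun y i1 i2 =>
    dz_pos h.tau (ha.trans_le i1) (i2.trans_lt hb)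
  have hdr : 0 < dz τ r := dz_pos h.tau h0 h1
  -- Lipschitz bound
  set K : ℝ := dz τ r + δ with hK
  have hlip : ∀ ρ' ρ : ℝ, a ≤ ρ' → ρ' < ρ → ρ ≤ b →
      F ρ - F ρ' ≤ (4 * Real.pi * b ^ 2 * K ^ 2 / δ ^ 2) * (ρ - ρ') := by
    intro ρ' ρ i1 i2 i3
    have h5 := hstep ρ' ρ 0 K i1 i2 i3 le_rfl (fun y hy => ⟨(hdpos y (i1.trans hy.1)
      (hy.2.trans i3)).le, by
        have := abs_le.mp (hab y ⟨i1.trans hy.1, hy.2.trans i3⟩)
        linarith [this.2]⟩) (by linarith)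
    have h6 : F ρ - F ρ' ≤ (4 * Real.pi * (ρ - ρ') * (ρ ^ 2 * K ^ 2)) / δ ^ 2 := by
      rw [le_div_iff₀ (by positivity)]
      nlinarith
    refine h6.trans ?_
    have h7 : ρ ^ 2 ≤ b ^ 2 := pow_le_pow_left₀ (by linarith) i3 2
    have h8 : 0 ≤ ρ - ρ' := by linarith
    rw [div_mul_eq_mul_div, div_le_div_iff_of_pos_right (by positivity)]
    have h9 : 0 ≤ 4 * Real.pi * (ρ - ρ') * K ^ 2 := by positivity
    nlinarith
  have hcont : ContinuousOn F (Set.Icc a b) := by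
    set L : ℝ := 4 * Real.pi * b ^ 2 * K ^ 2 / δ ^ 2 with hL
    have hL0 : 0 ≤ L := by positivity
    have hlw : LipschitzOnWith (Real.toNNReal L) F (Set.Icc a b) := by
      refine LipschitzOnWith.of_dist_le_mul ?_
      intro p hp q hq
      rw [Real.coe_toNNReal _ hL0, Real.dist_eq, Real.dist_eq]
      rcases lt_trichotomy p q with hpq | hpq | hpq
      · have i1 := hlip p q hp.1 hpq hq.2
        have i2 := hmono p q hp.1 hpq.le hq.2
        rw [abs_sub_comm, abs_of_nonneg (by linarith), abs_sub_comm, abs_of_pos (by linarith)]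
        exact i1
      · rw [hpq]; simp
      · have i1 := hlip q p hq.1 hpq hp.2
        have i2 := hmono q p hq.1 hpq.le hp.2
        rw [abs_of_nonneg (by linarith), abs_of_pos (by linarith)]
        exact i1
    exact hlw.continuousOn
  have hder : ∀ ρ' ∈ Set.Ico a b, HasDerivWithinAt F 0 (Set.Ici ρ') ρ' := by
    intro ρ' hρ
    have hd0 : 0 < dz τ ρ' := hdpos ρ' hρ.1 hρ.2.le
    have hρ0 : 0 < ρ' := ha.trans_le hρ.1
    rw [hasDerivWithinAt_iff_isLittleO, Asymptotics.isLittleO_iff]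
    intro c hc
    set d : ℝ := dz τ ρ' with hd
    -- the choice of `ε`
    obtain ⟨ε, hε0, hεd, hεq⟩ : ∃ ε : ℝ, 0 < ε ∧ ε < d ∧
        4 * Real.pi * (ρ' ^ 2 * (d + ε) ^ 2 - 2 * (d - ε) ^ 2 * ρ' ^ 2 + (d - ε) ^ 2 * ρ' ^ 2) <
          c * δ ^ 2 := by
      have e1 : Continuous fun ε : ℝ => 4 * Real.pi * (ρ' ^ 2 * (d + ε) ^ 2 -
          2 * (d - ε) ^ 2 * ρ' ^ 2 + (d - ε) ^ 2 * ρ' ^ 2) := by fun_prop
      have e2 : (fun ε : ℝ => 4 * Real.pi * (ρ' ^ 2 * (d + ε) ^ 2 -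
          2 * (d - ε) ^ 2 * ρ' ^ 2 + (d - ε) ^ 2 * ρ' ^ 2)) 0 < c * δ ^ 2 := by
        have : 0 < c * δ ^ 2 := by positivity
        simp only [add_zero, sub_zero]
        nlinarith
      have e3 : ∀ᶠ ε in 𝓝[>] (0 : ℝ), 4 * Real.pi * (ρ' ^ 2 * (d + ε) ^ 2 -
          2 * (d - ε) ^ 2 * ρ' ^ 2 + (d - ε) ^ 2 * ρ' ^ 2) < c * δ ^ 2 :=
        (nhdsWithin_le_nhds (e1.continuousAt.eventually_lt_const e2))
      have e4 : ∀ᶠ ε in 𝓝[>] (0 : ℝ), ε ∈ Set.Ioo 0 d := Ioo_mem_nhdsGT hd0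
      obtain ⟨ε, e5, e6⟩ := (e3.and e4).exists
      exact ⟨ε, e6.1, e6.2, e5⟩
    have f1 : Continuous fun ρ : ℝ => 4 * Real.pi * (ρ ^ 2 * (d + ε) ^ 2 -
        2 * (d - ε) ^ 2 * ρ' ^ 2 + (d - ε) ^ 2 * ρ ^ 2) := by fun_prop
    have f2 : ∀ᶠ ρ in 𝓝 ρ', 4 * Real.pi * (ρ ^ 2 * (d + ε) ^ 2 -
        2 * (d - ε) ^ 2 * ρ' ^ 2 + (d - ε) ^ 2 * ρ ^ 2) < c * δ ^ 2 :=
      f1.continuousAt.eventually_lt_const hεq
    obtain ⟨η, hη, hη2⟩ := Metric.continuousAt_iff.mp (hdzc ρ' hρ0) ε hε0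
    have f3 : ∀ᶠ ρ in 𝓝 ρ', ρ < ρ' + η := eventually_lt_nhds (by linarith)
    have f4 : ∀ᶠ ρ in 𝓝 ρ', ρ < b := eventually_lt_nhds hρ.2
    have f5 : ∀ᶠ ρ in 𝓝[≥] ρ', ρ ∈ Set.Ici ρ' := self_mem_nhdsWithin
    filter_upwards [nhdsWithin_le_nhds f2, nhdsWithin_le_nhds f3, nhdsWithin_le_nhds f4, f5]
      with ρ g2 g3 g4 g5
    rcases (Set.mem_Ici.mp g5).eq_or_lt with g6 | g6
    · rw [← g6]; simp
    · have g7 := hstep ρ' ρ (d - ε) (d + ε) hρ.1 g6 g4.le (by linarith) (fun y hy => by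
        have k1 : dist y ρ' < η := by
          rw [Real.dist_eq, abs_of_nonneg (by linarith [hy.1])]
          linarith [hy.2]
        have k2 := hη2 k1
        rw [Real.dist_eq, abs_lt] at k2
        constructor <;> linarith [k2.1, k2.2]) (by
        have := abs_le.mp (hab ρ' ⟨hρ.1, hρ.2.le⟩)
        linarith [this.2])
      have g8 := hmono ρ' ρ hρ.1 g6.le g4.le
      have g9 : ‖F ρ - F ρ' - (ρ - ρ') • (0 : ℝ)‖ = F ρ - F ρ' := by
        rw [smul_zero, sub_zero, Real.norm_eq_abs, abs_of_nonneg (by linarith)]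
      have g10 : ‖ρ - ρ'‖ = ρ - ρ' := by
        rw [Real.norm_eq_abs, abs_of_pos (by linarith)]
      rw [g9, g10]
      have g11 : 0 < ρ - ρ' := by linarith
      have g12 : δ ^ 2 * (F ρ - F ρ') ≤ (c * δ ^ 2) * (ρ - ρ') := by
        refine g7.trans ?_
        calc 4 * Real.pi * (ρ - ρ') * (ρ ^ 2 * (d + ε) ^ 2 - 2 * (d - ε) ^ 2 * ρ' ^ 2 +
              (d - ε) ^ 2 * ρ ^ 2)
            = (4 * Real.pi * (ρ ^ 2 * (d + ε) ^ 2 - 2 * (d - ε) ^ 2 * ρ' ^ 2 +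
              (d - ε) ^ 2 * ρ ^ 2)) * (ρ - ρ') := by ring
          _ ≤ (c * δ ^ 2) * (ρ - ρ') := mul_le_mul_of_nonneg_right g2.le g11.le
      have g13 : 0 < δ ^ 2 := by positivity
      have g14 : δ ^ 2 * (F ρ - F ρ') ≤ δ ^ 2 * (c * (ρ - ρ')) := by linarith
      exact le_of_mul_le_mul_left g14 g13
  have hconst := constant_of_has_deriv_right_zero hcont hder b ⟨by linarith, le_refl _⟩
  have hFa : F a = 0 := by
    have : U ∩ {y | zc τ a ≤ v y} = ∅ := by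
      ext y
      simp only [Set.mem_inter_iff, Set.mem_empty_iff_false, iff_false, not_and]
      intro hy hy2
      have k1 : v y < zc τ a := hy.1.2
      have k2 : zc τ a ≤ v y := hy2
      linarith
    simp only [hF, this, measureReal_empty]
  have hFb : F b = volume.real U := by
    have : U ∩ {y | zc τ b ≤ v y} = U :=
      Set.inter_eq_left.mpr fun y hy => le_of_lt (show zc τ b < v y from hy.1.1)
    simp only [hF, this]
  have hpos : 0 < volume.real U :=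
    ENNReal.toReal_pos (hUo.measure_pos volume ⟨x, hxU⟩).ne' hUfin
  rw [hFb, hFa] at hconst
  linarith

end Pool.H56.PO
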