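import Pool.Agent.H56.PO.Slab

/-!
# Module EqC (about 130 lines): the domain is a ball

PROOF. `v` is continuous with compact support, so it has a maximum point `x₀`. (1) `v x₀ = zc τ 0`. If
`zc τ 0 < t < v x₀` then `{v > t}` is open and not empty, `ds v t > 0`, and for small `r ∈ (0, τ)`
`4π/3 r³ < ds v t`, so `t < rea v r = zc τ r ≤ zc τ 0` (`rea_lt_iff`, `zc_anti`), a contradiction. For `r ∈ (0, τ)`
and `0 ≤ t < zc τ r = rea v r` the set `{v > t}` has positive measure (`rea_lt_iff`), so `t < v x₀`; hence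
`zc τ r ≤ v x₀`, and `r → 0`.
(2) Let `‖e‖ = 1`, `y s = v (x₀ + s • e)`, `λ > 1`, `η > 0`, `0 ≤ b`, `λ b + η < τ`. On `[0, b]` apply
`image_le_of_deriv_right_lt_deriv_boundary` with `f s = zc τ (λ s + η)`, `f' s = - λ dz τ (λ s + η)`, `B = y`,
`B' s = fderiv v (x₀ + s e) e`: `f 0 = zc τ η ≤ zc τ 0 = B 0`, and if `f s = B s` then by `hgr`
`B' s ≥ - dz τ (λ s + η) > - λ dz τ (λ s + η)` (`dz_pos`). So `zc τ (λ s + η) ≤ y s`. Let `λ → 1`, `η → 0`:
`zc τ s ≤ y s` for `0 ≤ s < τ`. So `v x ≥ zc τ (dist x x₀) > 0` in the ball `B = ball x₀ τ`, and `B ⊆ D` (`v = 0`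
outside `D`). (3) `volume.real B = volume.real D` (`EuclideanSpace.volume_ball_fin_three`), both finite,
so `D \ B` is null; the open null set `D \ closedBall x₀ τ` is empty, so `D ⊆ closedBall x₀ τ` and
`D = interior D ⊆ interior (closedBall x₀ τ) = B` (`interior_closedBall`).
-/

set_option autoImplicit false

namespace Pool.H56.PO

open MeasureTheory Filter Topology

private theorem eqc_max {D : Set E3} {v : E3 → ℝ} {τ : ℝ} (h : Eq1 D v τ) {x₀ : E3}
    (hx : ∀ y, v y ≤ v x₀) : zc τ 0 ≤ v x₀ := by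
  have hτ0 : 0 < τ := lt_trans Real.pi_pos h.tau.1
  have hrad : rad (ds v 0) = τ := by rw [h.vol, rad_vol hτ0.le]
  have key : ∀ r ∈ Set.Ioo 0 τ, zc τ r ≤ v x₀ := by
    intro r hr
    by_contra hlt
    push Not at hlt
    rw [← h.re r hr] at hlt
    have h1 := (rea_lt_iff h.sol.cont h.sol.hcs hr.1 (by rw [hrad]; exact hr.2) (h.nn x₀)).1 hlt
    have h2 : ds v (v x₀) = 0 := by
      have : {x : E3 | v x₀ < v x} = ∅ := by
        ext y
        simp only [Set.mem_setOf_eq, Set.mem_empty_iff_false, iff_false, not_lt]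
        exact hx y
      unfold ds
      rw [this]
      simp
    rw [h2] at h1
    have h3 : 0 < 4 * Real.pi / 3 * r ^ 3 := by
      have := hr.1
      positivity
    linarith
  have ht : Tendsto (zc τ) (𝓝[>] 0) (𝓝 (zc τ 0)) :=
    ((zc_cont τ).tendsto 0).mono_left nhdsWithin_le_nhds
  refine le_of_tendsto ht ?_
  filter_upwards [Ioo_mem_nhdsGT hτ0] with r hr using key r hr

private theorem eqc_ray {D : Set E3} {v : E3 → ℝ} {τ : ℝ} (h : Eq1 D v τ)
    (hgr : ∀ (x : E3) (r : ℝ), 0 < r → r < τ → v x = zc τ r → ‖fderiv ℝ v x‖ ≤ dz τ r)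
    {x₀ : E3} (hm : zc τ 0 ≤ v x₀) {e : E3} (he : ‖e‖ = 1) {s : ℝ} (hs0 : 0 ≤ s) (hs : s < τ) :
    zc τ s ≤ v (x₀ + s • e) := by
  have hτ0 : 0 < τ := lt_trans Real.pi_pos h.tau.1
  have hdv : Differentiable ℝ v := h.sol.c1.differentiable one_ne_zero
  -- the comparison
  have key : ∀ ε : ℝ, 0 < ε → (1 + ε) * s + ε < τ → zc τ ((1 + ε) * s + ε) ≤ v (x₀ + s • e) := by
    intro ε hε hlt
    have hB : ∀ x : ℝ, HasDerivAt (fun s : ℝ => v (x₀ + s • e)) (fderiv ℝ v (x₀ + x • e) e) x := by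
      intro x
      have h1 : HasDerivAt (fun s : ℝ => x₀ + s • e) e x := by
        have := ((hasDerivAt_id x).smul_const e).const_add x₀
        simpa using this
      exact (hdv (x₀ + x • e)).hasFDerivAt.comp_hasDerivAt x h1
    have hpos : ∀ x ∈ Set.Ico (0 : ℝ) s, 0 < (1 + ε) * x + ε ∧ (1 + ε) * x + ε < τ := by
      intro x hx
      have h1 : (1 + ε) * x ≤ (1 + ε) * s := mul_le_mul_of_nonneg_left hx.2.le (by linarith)
      have h2 : 0 ≤ (1 + ε) * x := mul_nonneg (by linarith) hx.1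
      constructor <;> linarith
    have hf' : ∀ x ∈ Set.Ico (0 : ℝ) s, HasDerivWithinAt (fun x : ℝ => zc τ ((1 + ε) * x + ε))
        (-dz τ ((1 + ε) * x + ε) * (1 + ε)) (Set.Ici x) x := by
      intro x hx
      have h1 : HasDerivAt (fun x : ℝ => (1 + ε) * x + ε) (1 + ε) x := by
        have := ((hasDerivAt_id x).const_mul (1 + ε)).add_const ε
        simpa using this
      have h2 := (zc_deriv τ (ne_of_gt (hpos x hx).1)).comp x h1
      exact h2.hasDerivWithinAt
    have hcont : ContinuousOn (fun x : ℝ => zc τ ((1 + ε) * x + ε)) (Set.Icc 0 s) :=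
      ((zc_cont τ).comp ((continuous_const.mul continuous_id).add continuous_const)).continuousOn
    have ha : zc τ ((1 + ε) * 0 + ε) ≤ v (x₀ + (0 : ℝ) • e) := by
      rw [zero_smul, add_zero, mul_zero, zero_add]
      refine le_trans ?_ hm
      have hετ : ε < τ := by
        have : 0 ≤ (1 + ε) * s := mul_nonneg (by linarith) hs0
        linarith
      exact ((zc_anti h.tau) ⟨le_refl _, hτ0.le⟩ ⟨hε.le, hετ.le⟩ hε).le
    have hbound : ∀ x ∈ Set.Ico (0 : ℝ) s, zc τ ((1 + ε) * x + ε) = v (x₀ + x • e) →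
        -dz τ ((1 + ε) * x + ε) * (1 + ε) < fderiv ℝ v (x₀ + x • e) e := by
      intro x hx hxe
      obtain ⟨h1, h2⟩ := hpos x hx
      have h3 := hgr (x₀ + x • e) _ h1 h2 hxe.symm
      have h4 := dz_pos h.tau h1 h2
      have h5 : ‖fderiv ℝ v (x₀ + x • e) e‖ ≤ ‖fderiv ℝ v (x₀ + x • e)‖ * ‖e‖ :=
        ContinuousLinearMap.le_opNorm _ _
      rw [he, mul_one, Real.norm_eq_abs] at h5
      have h6 := neg_abs_le (fderiv ℝ v (x₀ + x • e) e)
      nlinarith
    exact image_le_of_deriv_right_lt_deriv_boundary hcont hf' ha hB hbound ⟨hs0, le_refl s⟩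
  have hlim : Tendsto (fun ε : ℝ => zc τ ((1 + ε) * s + ε)) (𝓝[>] 0) (𝓝 (zc τ s)) := by
    have hc : Continuous (fun ε : ℝ => zc τ ((1 + ε) * s + ε)) :=
      (zc_cont τ).comp (((continuous_const.add continuous_id).mul continuous_const).add
        continuous_id)
    have h1 := (hc.tendsto 0).mono_left (nhdsWithin_le_nhds (s := Set.Ioi 0))
    simpa using h1
  refine le_of_tendsto hlim ?_
  have hlin : Tendsto (fun ε : ℝ => (1 + ε) * s + ε) (𝓝[>] 0) (𝓝 s) := by
    have hc : Continuous (fun ε : ℝ => (1 + ε) * s + ε) :=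
      ((continuous_const.add continuous_id).mul continuous_const).add continuous_id
    have h1 := (hc.tendsto 0).mono_left (nhdsWithin_le_nhds (s := Set.Ioi 0))
    simpa using h1
  filter_upwards [hlin.eventually_lt_const hs, self_mem_nhdsWithin] with ε h1 h2
  exact key ε h2 h1

private theorem eqc_sub {D : Set E3} {v : E3 → ℝ} {τ : ℝ} (h : Eq1 D v τ)
    (hgr : ∀ (x : E3) (r : ℝ), 0 < r → r < τ → v x = zc τ r → ‖fderiv ℝ v x‖ ≤ dz τ r)
    {x₀ : E3} (hm : zc τ 0 ≤ v x₀) : Metric.ball x₀ τ ⊆ D := by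
  have hτ0 : 0 < τ := lt_trans Real.pi_pos h.tau.1
  intro x hx
  rw [Metric.mem_ball, dist_eq_norm] at hx
  by_contra hD
  have h0 := h.sol.zero x hD
  have hzp : ∀ s, 0 ≤ s → s < τ → 0 < zc τ s := by
    intro s h1 h2
    have := (zc_anti h.tau) ⟨h1, h2.le⟩ ⟨hτ0.le, le_refl _⟩ h2
    rw [zc_tau h.tau] at this
    exact this
  rcases eq_or_ne x x₀ with he | hne
  · have := hzp 0 (le_refl _) hτ0
    rw [he] at h0
    linarith
  · have hn : 0 < ‖x - x₀‖ := norm_pos_iff.2 (sub_ne_zero.2 hne)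
    have he : ‖(‖x - x₀‖⁻¹ • (x - x₀) : E3)‖ = 1 := by
      rw [norm_smul, norm_inv, norm_norm, inv_mul_cancel₀ hn.ne']
    have h1 := eqc_ray h hgr hm he hn.le hx
    rw [smul_smul, mul_inv_cancel₀ hn.ne', one_smul, add_sub_cancel, h0] at h1
    have := hzp _ hn.le hx
    linarith

theorem ball_eq {D : Set E3} {v : E3 → ℝ} {τ : ℝ} (h : Eq1 D v τ)
    (hgr : ∀ (x : E3) (r : ℝ), 0 < r → r < τ → v x = zc τ r → ‖fderiv ℝ v x‖ ≤ dz τ r) :
    ∃ z : E3, D = Metric.ball z τ := by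
  have hτ0 : 0 < τ := lt_trans Real.pi_pos h.tau.1
  obtain ⟨x₀, hx₀⟩ := h.sol.cont.exists_forall_ge_of_hasCompactSupport h.sol.hcs
  have hm := eqc_max h hx₀
  have hsub := eqc_sub h hgr hm
  refine ⟨x₀, Set.Subset.antisymm ?_ hsub⟩
  have hDfin : volume D ≠ ⊤ := h.sol.bd.measure_lt_top.ne
  have hvb : volume.real (Metric.ball x₀ τ) = 4 * Real.pi / 3 * τ ^ 3 := by
    rw [measureReal_def, EuclideanSpace.volume_ball_fin_three, ← ENNReal.ofReal_pow hτ0.le,
      ← ENNReal.ofReal_mul (by positivity), ENNReal.toReal_ofReal (by positivity)]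
    ring
  have hnull : volume (D \ Metric.ball x₀ τ) = 0 := by
    have h1 : volume.real (D \ Metric.ball x₀ τ) = 0 := by
      rw [measureReal_diff hsub Metric.isOpen_ball.measurableSet, hvb, h.volD, sub_self]
    rw [measureReal_def, ENNReal.toReal_eq_zero_iff] at h1
    rcases h1 with h1 | h1
    · exact h1
    · exact absurd h1 (ne_top_of_le_ne_top hDfin (measure_mono Set.diff_subset))
  have hopen : IsOpen (D \ Metric.closedBall x₀ τ) := h.sol.op.sdiff Metric.isClosed_closedBall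
  have hempty : D \ Metric.closedBall x₀ τ = ∅ := by
    rw [← hopen.measure_eq_zero_iff volume]
    refine measure_mono_null ?_ hnull
    exact Set.diff_subset_diff_right Metric.ball_subset_closedBall
  have hc : D ⊆ Metric.closedBall x₀ τ := Set.diff_eq_empty.1 hempty
  have := interior_maximal hc h.sol.op
  rwa [interior_closedBall x₀ hτ0.ne'] at this

end Pool.H56.PO
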