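import Pool.Agent.H56.PO.Defs

/-!
# Module Ext (about 120 lines): extension by zero

PROOF. Let `v = indicator D (1 - u / c)`. In `D` it is `C²`, `fderiv v = - fderiv u / c`,
`lap v + v = -(lap u) / c + 1 - u / c = 1`. At an interior point of the complement `v = 0` nearby. At a point
`p ∈ frontier D` (`p ∉ D`, `D` open): `v` has derivative `0` at `p`: given `ε > 0` there is `δ > 0` with
`‖fderiv v y‖ ≤ ε` for `y ∈ D`, `|y - p| < δ` (hypothesis). Let `|x - p| < δ`, `x ∈ D` (otherwise
`v x = 0`). Let `y = x + s (p - x)`, `s ∈ (0, 1]`, be the first point of the segment from `x` to `p` that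
is not in `D` (`D` open, so it exists, `sInf`); it is in `frontier D`, the half open segment is in `D`, and
`v` tends to `0` along it (hypothesis `u → c`). The mean value inequality on `[0, s')`, `s' → s`, gives
`|v x| ≤ ε |x - y| ≤ ε |x - p|`. So `fderiv v p = 0`, `v` is differentiable everywhere, and `fderiv v` is
zero outside `D` (field `gz`) and continuous: in `D` and in the exterior clear, at `p ∈ frontier D` because `fderiv v → 0` along `D`
(hypothesis) and `fderiv v = 0` outside `D`. Use `contDiff_one_iff_fderiv`.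
-/

set_option autoImplicit false

namespace Pool.H56.PO

open MeasureTheory Filter Topology

private theorem Ext_tendsto {D : Set E3} (hD : IsOpen D) {F : Type} [NormedAddCommGroup F]
    {f : E3 → F} {p : E3} (hp : p ∉ D) (h0 : ∀ x, x ∉ D → f x = 0)
    (h1 : p ∈ frontier D → Tendsto f (𝓝[D] p) (𝓝 0)) : Tendsto f (𝓝 p) (𝓝 0) := by
  rw [← nhdsWithin_univ, ← Set.union_compl_self D, nhdsWithin_union, tendsto_sup]
  constructor
  · by_cases hc : p ∈ closure D
    · apply h1
      rw [hD.frontier_eq]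
      exact ⟨hc, hp⟩
    · have h2 : 𝓝[D] p = ⊥ := by
        by_contra h3
        exact hc (mem_closure_iff_nhdsWithin_neBot.2 ⟨h3⟩)
      rw [h2]
      exact tendsto_bot
  · refine tendsto_const_nhds.congr' ?_
    filter_upwards [self_mem_nhdsWithin] with x hx
    exact (h0 x hx).symm

theorem exists_sol {D : Set E3} (hD : IsOpen D) (hb : Bornology.IsBounded D) {c : ℝ} (hc : c ≠ 0)
    {u : E3 → ℝ} (hu : ContDiffOn ℝ 2 u D) (he : ∀ x ∈ D, lap u x + u x = 0)
    (hf : ∀ x ∈ frontier D, Tendsto u (𝓝[D] x) (𝓝 c) ∧ Tendsto (fderiv ℝ u) (𝓝[D] x) (𝓝 0)) :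
    Sol D (D.indicator fun x => 1 - u x / c) := by
  set v : E3 → ℝ := D.indicator fun x => 1 - u x / c with hv
  have hvD : ∀ x ∈ D, v x = 1 - u x / c := fun x hx => Set.indicator_of_mem hx _
  have hv0 : ∀ x, x ∉ D → v x = 0 := fun x hx => Set.indicator_of_notMem hx _
  have hw2 : ContDiffOn ℝ 2 (fun x => 1 - u x / c) D := contDiffOn_const.sub (hu.div_const c)
  have hvc2 : ContDiffOn ℝ 2 v D := hw2.congr hvD
  have hud : ∀ x ∈ D, DifferentiableAt ℝ u x := fun x hx =>
    (hu.contDiffAt (hD.mem_nhds hx)).differentiableAt (by norm_num)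
  have hev : ∀ x ∈ D, v =ᶠ[𝓝 x] fun y => 1 - u y / c := by
    intro x hx
    filter_upwards [hD.mem_nhds hx] with y hy
    exact hvD y hy
  -- the derivative inside
  have hdv : ∀ x ∈ D, HasFDerivAt v (-(c⁻¹ • fderiv ℝ u x)) x := by
    intro x hx
    have h1 : HasFDerivAt (fun y => 1 - u y / c) (-(c⁻¹ • fderiv ℝ u x)) x := by
      have h2 := ((hud x hx).hasFDerivAt.const_smul c⁻¹).const_sub 1
      refine h2.congr_of_eventuallyEq (Eventually.of_forall fun y => ?_)
      simp only [Pi.smul_apply, smul_eq_mul]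
      ring
    exact h1.congr_of_eventuallyEq (hev x hx)
  have hdD : ∀ x ∈ D, fderiv ℝ v x = -(c⁻¹ • fderiv ℝ u x) := fun x hx => (hdv x hx).fderiv
  -- continuity of v
  have htv : ∀ p, p ∉ D → Tendsto v (𝓝 p) (𝓝 0) := by
    intro p hp
    refine Ext_tendsto hD hp hv0 (fun hpf => ?_)
    have h1 : Tendsto (fun x => 1 - u x / c) (𝓝[D] p) (𝓝 (1 - c / c)) :=
      tendsto_const_nhds.sub ((hf p hpf).1.div_const c)
    rw [div_self hc, sub_self] at h1
    refine h1.congr' ?_
    filter_upwards [self_mem_nhdsWithin] with x hx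
    exact (hvD x hx).symm
  have hcont : Continuous v := by
    rw [continuous_iff_continuousAt]
    intro x
    by_cases hx : x ∈ D
    · exact (hdv x hx).continuousAt
    · have h1 := htv x hx
      rw [← hv0 x hx] at h1
      exact h1
  -- the derivative outside
  have hdo : ∀ p, p ∉ D → HasFDerivAt v (0 : E3 →L[ℝ] ℝ) p := by
    intro p hp
    rw [hasFDerivAt_iff_isLittleO, Asymptotics.isLittleO_iff]
    intro ε hε
    -- a neighbourhood of p where the derivative is small
    have hsm : ∀ᶠ y in 𝓝[D] p, ‖fderiv ℝ v y‖ ≤ ε := by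
      by_cases hcl : p ∈ closure D
      · have hpf : p ∈ frontier D := by
          rw [hD.frontier_eq]
          exact ⟨hcl, hp⟩
        have h1 : Tendsto (fun y => -(c⁻¹ • fderiv ℝ u y)) (𝓝[D] p) (𝓝 0) := by
          have h2 := ((hf p hpf).2.const_smul c⁻¹).neg
          rw [smul_zero, neg_zero] at h2
          exact h2
        have h3 : ∀ᶠ y in 𝓝[D] p, ‖-(c⁻¹ • fderiv ℝ u y)‖ < ε := by
          have h4 := h1.norm
          rw [norm_zero] at h4
          exact h4.eventually (gt_mem_nhds hε)
        filter_upwards [h3, self_mem_nhdsWithin] with y hy hyD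
        rw [hdD y hyD]
        exact hy.le
      · have h2 : 𝓝[D] p = ⊥ := by
          by_contra h3
          exact hcl (mem_closure_iff_nhdsWithin_neBot.2 ⟨h3⟩)
        rw [h2]
        exact eventually_bot
    rw [eventually_nhdsWithin_iff, Metric.eventually_nhds_iff] at hsm
    obtain ⟨δ, hδ, hsm⟩ := hsm
    rw [Metric.eventually_nhds_iff]
    refine ⟨δ, hδ, fun x hx => ?_⟩
    rw [hv0 p hp, sub_zero]
    change ‖v x - (0 : E3 →L[ℝ] ℝ) (x - p)‖ ≤ ε * ‖x - p‖
    rw [zero_apply, sub_zero]
    by_cases hxD : x ∈ D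
    · -- the segment
      set γ : ℝ → E3 := fun s => x + s • (p - x) with hγ
      have hγc : Continuous γ := by
        rw [hγ]
        fun_prop
      have hγd : ∀ s, HasDerivAt γ (p - x) s := by
        intro s
        have h1 : HasDerivAt (fun s : ℝ => s • (p - x)) ((1 : ℝ) • (p - x)) s :=
          (hasDerivAt_id s).smul_const (p - x)
        rw [one_smul] at h1
        exact h1.const_add x
      set S : Set ℝ := Set.Icc 0 1 ∩ γ ⁻¹' Dᶜ with hS
      have hScl : IsClosed S := isClosed_Icc.inter (hD.isClosed_compl.preimage hγc)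
      have h1S : (1 : ℝ) ∈ S := by
        refine ⟨⟨zero_le_one, le_refl _⟩, ?_⟩
        change γ 1 ∉ D
        have : γ 1 = p := by
          simp only [hγ, one_smul]
          abel
        rw [this]
        exact hp
      have hSb : BddBelow S := ⟨0, fun s hs => hs.1.1⟩
      set s₁ := sInf S with hs₁
      have hs₁S : s₁ ∈ S := hScl.csInf_mem ⟨1, h1S⟩ hSb
      have hlt : ∀ s ∈ Set.Ico 0 s₁, γ s ∈ D := by
        intro s hs
        by_contra hsD
        have h3 : s ∈ S := ⟨⟨hs.1, (hs.2.trans_le hs₁S.1.2).le⟩, hsD⟩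
        exact absurd (csInf_le hSb h3) (not_le.2 hs.2)
      have hγp : ∀ s ∈ Set.Ico 0 s₁, dist (γ s) p < δ := by
        intro s hs
        have h3 : γ s - p = (1 - s) • (x - p) := by
          simp only [hγ, sub_smul, one_smul, smul_sub]
          abel
        have h4 : s ≤ 1 := (hs.2.trans_le hs₁S.1.2).le
        rw [dist_eq_norm, h3, norm_smul, Real.norm_of_nonneg (by linarith)]
        rw [dist_eq_norm] at hx
        have h5 := norm_nonneg (x - p)
        have h6 : (1 - s) * ‖x - p‖ ≤ ‖x - p‖ := by nlinarith [hs.1]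
        linarith
      have hmv := norm_image_sub_le_of_norm_deriv_right_le_segment
        (f := fun s => v (γ s)) (f' := fun s => fderiv ℝ v (γ s) (p - x)) (a := 0) (b := s₁)
        (C := ε * ‖x - p‖) (hcont.comp hγc).continuousOn
        (fun s hs => by
          have h3 : HasFDerivAt v (fderiv ℝ v (γ s)) (γ s) :=
            (hdv (γ s) (hlt s hs)).differentiableAt.hasFDerivAt
          exact (h3.comp_hasDerivAt s (hγd s)).hasDerivWithinAt)
        (fun s hs => by
          have h3 := hsm (hγp s hs) (hlt s hs)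
          calc ‖fderiv ℝ v (γ s) (p - x)‖ ≤ ‖fderiv ℝ v (γ s)‖ * ‖p - x‖ :=
                ContinuousLinearMap.le_opNorm _ _
            _ ≤ ε * ‖p - x‖ := mul_le_mul_of_nonneg_right h3 (norm_nonneg _)
            _ = ε * ‖x - p‖ := by rw [norm_sub_rev])
        s₁ ⟨hs₁S.1.1, le_refl _⟩
      have h5 : v (γ s₁) = 0 := hv0 _ hs₁S.2
      have h6 : γ 0 = x := by simp [hγ]
      rw [h5, h6, zero_sub, norm_neg, sub_zero] at hmv
      refine hmv.trans ?_
      have h7 : 0 ≤ ε * ‖x - p‖ := by positivity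
      exact mul_le_of_le_one_right h7 hs₁S.1.2
    · rw [hv0 x hxD, norm_zero]
      positivity
  have hdo' : ∀ p, p ∉ D → fderiv ℝ v p = 0 := fun p hp => (hdo p hp).fderiv
  have hdiff : Differentiable ℝ v := by
    intro x
    by_cases hx : x ∈ D
    · exact (hdv x hx).differentiableAt
    · exact (hdo x hx).differentiableAt
  have hcd : Continuous (fderiv ℝ v) := by
    rw [continuous_iff_continuousAt]
    intro x
    by_cases hx : x ∈ D
    · have h1 : ContDiffAt ℝ 2 v x := hvc2.contDiffAt (hD.mem_nhds hx)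
      exact (h1.fderiv_right (m := 1) (by norm_num)).continuousAt
    · have h1 : Tendsto (fderiv ℝ v) (𝓝 x) (𝓝 0) := by
        refine Ext_tendsto hD hx hdo' (fun hpf => ?_)
        have h2 := ((hf x hpf).2.const_smul c⁻¹).neg
        rw [smul_zero, neg_zero] at h2
        refine h2.congr' ?_
        filter_upwards [self_mem_nhdsWithin] with y hy
        exact (hdD y hy).symm
      rw [← hdo' x hx] at h1
      exact h1
  refine ⟨hD, hb, contDiff_one_iff_fderiv.2 ⟨hdiff, hcd⟩, hv0, hdo', hvc2, ?_⟩
  intro x hx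
  have h1 : fderiv ℝ v =ᶠ[𝓝 x] fun y => -(c⁻¹ • fderiv ℝ u y) := by
    filter_upwards [hD.mem_nhds hx] with y hy
    exact hdD y hy
  have h2 : fderiv ℝ (fderiv ℝ v) x = -(c⁻¹ • fderiv ℝ (fderiv ℝ u) x) := by
    rw [h1.fderiv_eq]
    have h3 : DifferentiableAt ℝ (fderiv ℝ u) x :=
      ((hu.contDiffAt (hD.mem_nhds hx)).fderiv_right (m := 1) (by norm_num)).differentiableAt
        (by norm_num)
    exact (h3.hasFDerivAt.const_smul c⁻¹).neg.fderiv
  have h3 : lap v x = -(c⁻¹ * lap u x) := by
    unfold lap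
    rw [h2, Finset.mul_sum, ← Finset.sum_neg_distrib]
    refine Finset.sum_congr rfl fun i _ => ?_
    simp
  rw [h3, hvD x hx]
  have h4 : lap u x = -u x := by linarith [he x hx]
  rw [h4]
  field_simp
  ring

end Pool.H56.PO
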