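import Pool.Agent.H56.PO.Defs

/-!
# Module Mono (about 120 lines): from the local inequality to the integral inequality

PROOF. `fl w` is continuous on `[0, g)` (`w` bounded on `(0, g)`, interval integrable because antitone).
Fix `0 < r' < r < g` and `h(x) = w x + ∫_{r'}^x fl w y / y² dy` on `[r', r]`. Claim: for every `ε > 0` there is
`δ > 0` such that `h(y) - h(x) ≥ -ε (y - x)` for `r' ≤ x < y ≤ r`, `y - x ≤ δ`. Indeed with
`M = max_{[x, y]} fl w` (attained): `w x - w y ≤ (y³ - x³) M / (3 x⁴)` by `hloc`, `y³ - x³ ≤ 3 y² (y - x)`, so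
`w x - w y ≤ (y - x) M y² / x⁴` if `M ≥ 0` (and `M ≥ 0` holds because the left side of `hloc` is `≥ 0`),
and `∫_x^y fl w / s² ≥ (y - x) min_{[x,y]} (fl w s / s²)`; by uniform continuity of `fl w s / s²` on the
compact interval `[r', r]` the difference is at most `ε (y - x)`. Divide `[r', r]` into equal parts of length
`≤ δ` and add: `h(r) - h(r') ≥ -ε (r - r')` for all `ε > 0`.
-/

set_option autoImplicit false

namespace Pool.H56.PO

open MeasureTheory Filter Topology

private theorem Mono_int {g : ℝ} {w : ℝ → ℝ} (ha : AntitoneOn w (Set.Ioo 0 g))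
    (hn : ∀ r ∈ Set.Ioo 0 g, 0 ≤ w r) (hb : ∃ B : ℝ, ∀ r ∈ Set.Ioo 0 g, w r ≤ B) {r : ℝ}
    (hr0 : 0 < r) (hr : r < g) : IntegrableOn (fun x => (w x - 1) * x ^ 2) (Set.uIcc 0 r) := by
  rw [Set.uIcc_of_le hr0.le, integrableOn_Icc_iff_integrableOn_Ioc]
  obtain ⟨B, hB⟩ := hb
  have hsub : Set.Ioc 0 r ⊆ Set.Ioo 0 g := fun x hx => ⟨hx.1, lt_of_le_of_lt hx.2 hr⟩
  have hm : AEMeasurable w (volume.restrict (Set.Ioc 0 r)) :=
    aemeasurable_restrict_of_antitoneOn measurableSet_Ioc (ha.mono hsub)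
  have hfin : IsFiniteMeasure (volume.restrict (Set.Ioc 0 r)) :=
    ⟨by rw [Measure.restrict_apply_univ]; exact measure_Ioc_lt_top⟩
  refine Integrable.of_bound ?_ ((|B| + 1) * r ^ 2) ?_
  · exact ((hm.sub_const 1).mul (measurable_id.pow_const 2).aemeasurable).aestronglyMeasurable
  · refine (ae_restrict_iff' measurableSet_Ioc).2 (Eventually.of_forall fun x hx => ?_)
    rw [Real.norm_eq_abs, abs_mul, abs_of_nonneg (sq_nonneg x)]
    have h1 := hn x (hsub hx)
    have h2 := hB x (hsub hx)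
    have h3 := le_abs_self B
    have h4 : |w x - 1| ≤ |B| + 1 := by
      rw [abs_le]
      constructor <;> linarith [abs_nonneg B]
    have h5 : x ^ 2 ≤ r ^ 2 := pow_le_pow_left₀ hx.1.le hx.2 2
    exact mul_le_mul h4 h5 (sq_nonneg x) (by positivity)

private theorem Mono_cont {g : ℝ} {w : ℝ → ℝ} (ha : AntitoneOn w (Set.Ioo 0 g))
    (hn : ∀ r ∈ Set.Ioo 0 g, 0 ≤ w r) (hb : ∃ B : ℝ, ∀ r ∈ Set.Ioo 0 g, w r ≤ B) {r' r : ℝ}
    (hr' : 0 < r') (h : r' ≤ r) (hr : r < g) : ContinuousOn (fl w) (Set.Icc r' r) := by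
  have h1 := intervalIntegral.continuousOn_primitive_interval (Mono_int ha hn hb (hr'.trans_le h) hr)
  refine h1.mono fun x hx => ?_
  rw [Set.uIcc_of_le (hr'.trans_le h).le]
  exact ⟨hr'.le.trans hx.1, hx.2⟩


theorem mono {g : ℝ} {w : ℝ → ℝ} (hg : 0 < g) (ha : AntitoneOn w (Set.Ioo 0 g))
    (hn : ∀ r ∈ Set.Ioo 0 g, 0 ≤ w r) (hb : ∃ B : ℝ, ∀ r ∈ Set.Ioo 0 g, w r ≤ B)
    (hloc : ∀ r' r M : ℝ, 0 < r' → r' < r → r < g → (∀ x ∈ Set.Icc r' r, fl w x ≤ M) →
      (w r' - w r) * (3 * r' ^ 4) ≤ (r ^ 3 - r' ^ 3) * M) :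
    ∀ r' r : ℝ, 0 < r' → r' ≤ r → r < g → w r' - w r ≤ ∫ x in r'..r, fl w x / x ^ 2 := by
  intro r' r hr' hle hr
  have hF := Mono_cont ha hn hb hr' hle hr
  have hG : ContinuousOn (fun x => fl w x / x ^ 2) (Set.Icc r' r) := by
    refine hF.div (continuous_pow 2).continuousOn fun x hx => ?_
    have : 0 < x := hr'.trans_le hx.1
    positivity
  have hGi : ∀ x y : ℝ, x ∈ Set.Icc r' r → y ∈ Set.Icc r' r →
      IntervalIntegrable (fun x => fl w x / x ^ 2) volume x y := fun x y hx hy => by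
    refine (hG.mono ?_).intervalIntegrable
    exact Set.uIcc_subset_Icc hx hy
  have hΦ : ContinuousOn (fun p : ℝ × ℝ × ℝ => fl w p.2.2 * p.2.1 ^ 2 / p.1 ^ 4)
      (Set.Icc r' r ×ˢ (Set.Icc r' r ×ˢ Set.Icc r' r)) := by
    refine ContinuousOn.div (ContinuousOn.mul ?_ ?_) ?_ ?_
    · refine hF.comp (continuous_snd.comp continuous_snd).continuousOn ?_
      intro p hp
      exact hp.2.2
    · exact ((continuous_fst.comp continuous_snd).pow 2).continuousOn
    · exact (continuous_fst.pow 4).continuousOn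
    · intro p hp
      have : 0 < p.1 := hr'.trans_le hp.1.1
      positivity
  have hU := (isCompact_Icc.prod (isCompact_Icc.prod isCompact_Icc)).uniformContinuousOn_of_continuous
    hΦ
  rw [Metric.uniformContinuousOn_iff] at hU
  refine le_of_forall_pos_le_add fun e he => ?_
  obtain ⟨ε, hε, hεe⟩ : ∃ ε : ℝ, 0 < ε ∧ ε * (r - r') ≤ e := by
    refine ⟨e / (r - r' + 1), by have := sub_nonneg.2 hle; positivity, ?_⟩
    have h0 := sub_nonneg.2 hle
    rw [div_mul_eq_mul_div, div_le_iff₀ (by linarith)]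
    nlinarith
  obtain ⟨δ, hδ, hδU⟩ := hU ε hε
  have piece : ∀ x y : ℝ, r' ≤ x → x ≤ y → y ≤ r → y - x < δ →
      w x - w y ≤ (∫ s in x..y, fl w s / s ^ 2) + ε * (y - x) := by
    intro x y hx hxy hy hd
    rcases eq_or_lt_of_le hxy with h | h
    · rw [h]; simp
    have hx0 : 0 < x := hr'.trans_le hx
    obtain ⟨z, hz, hzm⟩ := isCompact_Icc.exists_isMaxOn (Set.nonempty_Icc.2 hxy)
      (hF.mono (Set.Icc_subset_Icc hx hy))
    have hM : ∀ s ∈ Set.Icc x y, fl w s ≤ fl w z := fun s hs => hzm hs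
    have h1 := hloc x y (fl w z) hx0 h (lt_of_le_of_lt hy hr) hM
    have h2 : 0 ≤ w x - w y := sub_nonneg.2 (ha ⟨hx0, lt_of_le_of_lt (hxy.trans hy) hr⟩
      ⟨hx0.trans h, lt_of_le_of_lt hy hr⟩ hxy)
    have h3 : 0 < y ^ 3 - x ^ 3 := sub_pos.2 (pow_lt_pow_left₀ h hx0.le (by norm_num))
    have h4 : 0 ≤ fl w z := by
      by_contra hneg
      push Not at hneg
      have h5 : (y ^ 3 - x ^ 3) * fl w z < 0 := mul_neg_of_pos_of_neg h3 hneg
      have h6 : 0 ≤ (w x - w y) * (3 * x ^ 4) := by positivity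
      linarith
    have h5 : y ^ 3 - x ^ 3 ≤ 3 * y ^ 2 * (y - x) := by
      have : 3 * y ^ 2 * (y - x) - (y ^ 3 - x ^ 3) = (y - x) ^ 2 * (2 * y + x) := by ring
      have h6 : 0 ≤ (y - x) ^ 2 * (2 * y + x) := by
        have : 0 ≤ 2 * y + x := by linarith
        positivity
      linarith
    have h6 : w x - w y ≤ (y - x) * (fl w z * y ^ 2 / x ^ 4) := by
      have h7 : (w x - w y) * (3 * x ^ 4) ≤ 3 * y ^ 2 * (y - x) * fl w z :=
        h1.trans (mul_le_mul_of_nonneg_right h5 h4)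
      have h8 : (y - x) * (fl w z * y ^ 2 / x ^ 4) = (3 * y ^ 2 * (y - x) * fl w z) / (3 * x ^ 4) := by
        field_simp
      rw [h8, le_div_iff₀ (by positivity)]
      exact h7
    have h7 : ∀ s ∈ Set.Icc x y, fl w z * y ^ 2 / x ^ 4 ≤ fl w s / s ^ 2 + ε := by
      intro s hs
      have hsK : s ∈ Set.Icc r' r := ⟨hx.trans hs.1, hs.2.trans hy⟩
      have hxK : x ∈ Set.Icc r' r := ⟨hx, hxy.trans hy⟩
      have hyK : y ∈ Set.Icc r' r := ⟨hx.trans hxy, hy⟩
      have hzK : z ∈ Set.Icc r' r := ⟨hx.trans hz.1, hz.2.trans hy⟩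
      have h8 := hδU (x, y, z) ⟨hxK, hyK, hzK⟩ (s, s, s) ⟨hsK, hsK, hsK⟩ (by
        rw [Prod.dist_eq, Prod.dist_eq]
        simp only [Real.dist_eq]
        refine max_lt ?_ (max_lt ?_ ?_)
        · rw [abs_lt]; constructor <;> linarith [hs.1, hs.2]
        · rw [abs_lt]; constructor <;> linarith [hs.1, hs.2]
        · rw [abs_lt]; constructor <;> linarith [hs.1, hs.2, hz.1, hz.2])
      rw [Real.dist_eq] at h8
      have h9 := (abs_lt.1 h8).2
      have hs0 : 0 < s := hr'.trans_le hsK.1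
      have h10 : fl w s * s ^ 2 / s ^ 4 = fl w s / s ^ 2 := by
        field_simp
      have h11 : fl w z * y ^ 2 / x ^ 4 - fl w s * s ^ 2 / s ^ 4 < ε := h9
      rw [h10] at h11
      linarith
    have hi1 := hGi x y ⟨hx, hxy.trans hy⟩ ⟨hx.trans hxy, hy⟩
    have h8 : ∫ s in x..y, (fl w z * y ^ 2 / x ^ 4) ≤ ∫ s in x..y, (fl w s / s ^ 2 + ε) :=
      intervalIntegral.integral_mono_on hxy intervalIntegrable_const
        (hi1.add intervalIntegrable_const) h7
    rw [intervalIntegral.integral_add hi1 intervalIntegrable_const,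
      intervalIntegral.integral_const, intervalIntegral.integral_const, smul_eq_mul,
      smul_eq_mul] at h8
    linarith
  have hind : ∀ n : ℕ, ∀ x y : ℝ, r' ≤ x → x ≤ y → y ≤ r → y - x ≤ n * (δ / 2) →
      w x - w y ≤ (∫ s in x..y, fl w s / s ^ 2) + ε * (y - x) := by
    intro n
    induction n with
    | zero =>
      intro x y hx hxy hy hd
      exact piece x y hx hxy hy (by
        have : y - x ≤ 0 := by simpa using hd
        linarith)
    | succ n ih =>
      intro x y hx hxy hy hd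
      by_cases hs : y - x < δ
      · exact piece x y hx hxy hy hs
      · push Not at hs
        have hd' : y - x ≤ n * (δ / 2) + δ / 2 := by
          push_cast at hd
          linarith
        have h1 := piece x (x + δ / 2) hx (by linarith) (by linarith) (by linarith)
        have h2 := ih (x + δ / 2) y (by linarith) (by linarith) hy (by linarith)
        have hx1 : x ∈ Set.Icc r' r := ⟨hx, hxy.trans hy⟩
        have hx2 : x + δ / 2 ∈ Set.Icc r' r := ⟨by linarith, by linarith⟩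
        have hx3 : y ∈ Set.Icc r' r := ⟨hx.trans hxy, hy⟩
        have h3 := intervalIntegral.integral_add_adjacent_intervals (hGi _ _ hx1 hx2)
          (hGi _ _ hx2 hx3)
        rw [← h3]
        linarith
  obtain ⟨n, hn'⟩ := exists_nat_ge ((r - r') / (δ / 2))
  rw [div_le_iff₀ (by linarith)] at hn'
  have := hind n r' r le_rfl hle le_rfl hn'
  linarith

end Pool.H56.PO
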