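import Pool.Agent.H56.PO.Defs

/-!
# Module Rea (about 150 lines): the decreasing radial rearrangement

`ds v t = |{v > t}|` is finite for `t ≥ 0` (compact support), antitone, right continuous
(`{v > t} = ⋃ {v > t + 1/n}`), zero for `t ≥ max v`. `rad s ^ 3 = 3 s / (4 π)`.
PROOF. `rea_lt_iff`: `t < rea v r` iff some `t' > t` has `4π/3 r³ < ds v t'` (definition of `sSup`, bounded above
by `max v`, nonempty) iff `4π/3 r³ < ds v t` (→ antitone, ← right continuity). The next facts follow.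
`rea_int`: push-forward measures: `Measure.map v (volume.restrict {t < v})` and
`Measure.map (rea v) (withDensity (4 π r²) on (0, rad (ds v t)))` agree on all `Ioi s`, `s ≥ t`: both are `ds v s`
(`{r ∈ (0, rad (ds v t)) | s < rea v r} = {r | 0 < r, 4π/3 r³ < ds v s}` an interval, and
`∫_0^ρ 4 π r² dr = 4π/3 ρ³`), and on `Ioi s`, `s < t`, both are `ds v t`; finite measures on `ℝ` that agree on all
`Ioi s` are equal (`Measure.ext_of_Ioi` or `ext_of_Iic`). Then `integral_map`.
-/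

set_option autoImplicit false

namespace Pool.H56.PO

open MeasureTheory Filter Topology

theorem rad_nonneg {s : ℝ} (hs : 0 ≤ s) : 0 ≤ rad s := by
  unfold rad; positivity

theorem rad_pow {s : ℝ} (hs : 0 ≤ s) : 4 * Real.pi / 3 * rad s ^ 3 = s := by
  have hpi := Real.pi_pos
  have h1 : (0 : ℝ) ≤ 3 * s / (4 * Real.pi) := by positivity
  have h2 : rad s ^ 3 = 3 * s / (4 * Real.pi) := by
    unfold rad
    rw [← Real.rpow_natCast, ← Real.rpow_mul h1]
    norm_num
  rw [h2]
  field_simp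

theorem rad_vol {r : ℝ} (hr : 0 ≤ r) : rad (4 * Real.pi / 3 * r ^ 3) = r := by
  have hpi := Real.pi_pos
  unfold rad
  have h1 : 3 * (4 * Real.pi / 3 * r ^ 3) / (4 * Real.pi) = r ^ 3 := by
    field_simp
  rw [h1, ← Real.rpow_natCast, ← Real.rpow_mul hr]
  norm_num

theorem rad_lt {s s' : ℝ} (hs : 0 ≤ s) (h : s < s') : rad s < rad s' := by
  have hpi := Real.pi_pos
  unfold rad
  apply Real.rpow_lt_rpow (by positivity) _ (by norm_num)
  apply div_lt_div_of_pos_right _ (by positivity)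
  linarith

private theorem rea_rad_le {s s' : ℝ} (hs : 0 ≤ s) (h : s ≤ s') : rad s ≤ rad s' := by
  rcases h.eq_or_lt with h | h
  · rw [h]
  · exact (rad_lt hs h).le

private theorem rea_lt_rad_iff {s r : ℝ} (hs : 0 ≤ s) (hr : 0 ≤ r) :
    r < rad s ↔ 4 * Real.pi / 3 * r ^ 3 < s := by
  have hpi := Real.pi_pos
  constructor
  · intro h
    have h1 : r ^ 3 < rad s ^ 3 := pow_lt_pow_left₀ h hr (by norm_num)
    have h2 := rad_pow hs
    have h3 : 4 * Real.pi / 3 * r ^ 3 < 4 * Real.pi / 3 * rad s ^ 3 :=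
      mul_lt_mul_of_pos_left h1 (by positivity)
    linarith
  · intro h
    have h1 := rad_lt (by positivity) h
    rwa [rad_vol hr] at h1

private theorem rea_fin {v : E3 → ℝ} (hc : HasCompactSupport v) {t : ℝ} (ht : 0 ≤ t) :
    volume {x : E3 | t < v x} < ⊤ := by
  refine lt_of_le_of_lt (measure_mono ?_) (IsCompact.measure_lt_top hc)
  intro x hx
  apply subset_tsupport
  rw [Function.mem_support]
  have : t < v x := hx
  linarith

private theorem rea_meas {v : E3 → ℝ} (hv : Continuous v) (t : ℝ) :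
    MeasurableSet {x : E3 | t < v x} :=
  (isOpen_lt continuous_const hv).measurableSet

private theorem rea_ds_nonneg (v : E3 → ℝ) (t : ℝ) : 0 ≤ ds v t := measureReal_nonneg

private theorem rea_ds_anti {v : E3 → ℝ} (hc : HasCompactSupport v) {t t' : ℝ} (ht : 0 ≤ t)
    (h : t ≤ t') : ds v t' ≤ ds v t := by
  unfold ds
  apply measureReal_mono _ (rea_fin hc ht).ne
  intro x hx
  exact lt_of_le_of_lt h hx

private theorem rea_sup {v : E3 → ℝ} (hv : Continuous v) (hc : HasCompactSupport v) :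
    ∃ B : ℝ, 0 ≤ B ∧ ∀ x, v x ≤ B := by
  obtain ⟨C, hC⟩ := hc.exists_bound_of_continuous hv
  exact ⟨C, (norm_nonneg _).trans (hC 0), fun x => (le_abs_self _).trans (hC x)⟩

private theorem rea_ds_zero {v : E3 → ℝ} {B t : ℝ} (hB : ∀ x, v x ≤ B) (h : B ≤ t) :
    ds v t = 0 := by
  unfold ds
  have : {x : E3 | t < v x} = ∅ := by
    ext x
    simp only [Set.mem_ofPred_eq, Set.mem_empty_iff_false, iff_false, not_lt]
    exact (hB x).trans h
  rw [this]
  simp

private theorem rea_mem_le {v : E3 → ℝ} {B r t : ℝ} (hB : ∀ x, v x ≤ B) (hr : 0 < r)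
    (h : 0 ≤ t ∧ 4 * Real.pi / 3 * r ^ 3 < ds v t) : t ≤ B := by
  by_contra hlt
  push Not at hlt
  have h1 := rea_ds_zero hB hlt.le
  have hpi := Real.pi_pos
  have h2 : 0 < 4 * Real.pi / 3 * r ^ 3 := by positivity
  linarith [h.2]

private theorem rea_right {v : E3 → ℝ} (hc : HasCompactSupport v) {t a : ℝ} (ht : 0 ≤ t)
    (ha : a < ds v t) : ∃ t' : ℝ, t < t' ∧ a < ds v t' := by
  have hmono : Monotone fun n : ℕ => {x : E3 | t + 1 / ((n : ℝ) + 1) < v x} := by
    intro m n hmn x hx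
    have h1 : (1 : ℝ) / ((n : ℝ) + 1) ≤ 1 / ((m : ℝ) + 1) := by
      apply one_div_le_one_div_of_le (by positivity)
      have : (m : ℝ) ≤ n := by exact_mod_cast hmn
      linarith
    have hx' : t + 1 / ((m : ℝ) + 1) < v x := hx
    show t + 1 / ((n : ℝ) + 1) < v x
    linarith
  have hU : (⋃ n : ℕ, {x : E3 | t + 1 / ((n : ℝ) + 1) < v x}) = {x : E3 | t < v x} := by
    ext x
    simp only [Set.mem_iUnion, Set.mem_ofPred_eq]
    constructor
    · rintro ⟨n, hn⟩
      have : (0 : ℝ) < 1 / ((n : ℝ) + 1) := by positivity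
      linarith
    · intro hx
      obtain ⟨n, hn⟩ := exists_nat_one_div_lt (sub_pos.2 hx)
      exact ⟨n, by linarith⟩
  have h1 := tendsto_measure_iUnion_atTop (μ := (volume : Measure E3)) hmono
  rw [hU] at h1
  have h2 := (ENNReal.tendsto_toReal (rea_fin hc ht).ne).comp h1
  have h3 : Tendsto (fun n : ℕ => ds v (t + 1 / ((n : ℝ) + 1))) atTop (𝓝 (ds v t)) := h2
  obtain ⟨n, hn⟩ := (h3.eventually (lt_mem_nhds ha)).exists
  have : (0 : ℝ) < 1 / ((n : ℝ) + 1) := by positivity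
  exact ⟨t + 1 / ((n : ℝ) + 1), by linarith, hn⟩

theorem rea_lt_iff {v : E3 → ℝ} (hv : Continuous v) (hc : HasCompactSupport v) {r t : ℝ}
    (hr : 0 < r) (hr' : r < rad (ds v 0)) (ht : 0 ≤ t) :
    t < rea v r ↔ 4 * Real.pi / 3 * r ^ 3 < ds v t := by
  obtain ⟨B, -, hB⟩ := rea_sup hv hc
  have hb : BddAbove {t : ℝ | 0 ≤ t ∧ 4 * Real.pi / 3 * r ^ 3 < ds v t} :=
    ⟨B, fun t ht => rea_mem_le hB hr ht⟩
  have hne : {t : ℝ | 0 ≤ t ∧ 4 * Real.pi / 3 * r ^ 3 < ds v t}.Nonempty :=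
    ⟨0, le_refl _, (rea_lt_rad_iff (rea_ds_nonneg v 0) hr.le).1 hr'⟩
  unfold rea
  rw [lt_csSup_iff hb hne]
  constructor
  · rintro ⟨t', ⟨h0, h1⟩, h2⟩
    exact lt_of_lt_of_le h1 (rea_ds_anti hc ht h2.le)
  · intro h
    obtain ⟨t', h1, h2⟩ := rea_right hc ht h
    exact ⟨t', ⟨by linarith, h2⟩, h1⟩

theorem rea_anti {v : E3 → ℝ} (hv : Continuous v) (hc : HasCompactSupport v) :
    AntitoneOn (rea v) (Set.Ioo 0 (rad (ds v 0))) := by
  intro r hr r' hr' hrr
  by_contra hlt
  push Not at hlt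
  have h0 : 0 ≤ rea v r := Real.sSup_nonneg fun _ ht => ht.1
  have h1 := (rea_lt_iff hv hc hr'.1 hr'.2 h0).1 hlt
  have hpi := Real.pi_pos
  have h2 : r ^ 3 ≤ r' ^ 3 := pow_le_pow_left₀ hr.1.le hrr 3
  have h3 : 4 * Real.pi / 3 * r ^ 3 ≤ 4 * Real.pi / 3 * r' ^ 3 :=
    mul_le_mul_of_nonneg_left h2 (by positivity)
  have h4 := (rea_lt_iff hv hc hr.1 hr.2 h0).2 (lt_of_le_of_lt h3 h1)
  exact lt_irrefl _ h4

theorem rea_nonneg (v : E3 → ℝ) (r : ℝ) : 0 ≤ rea v r :=
  Real.sSup_nonneg fun _ ht => ht.1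

theorem rea_bdd {v : E3 → ℝ} (hv : Continuous v) (hc : HasCompactSupport v) :
    ∃ B : ℝ, ∀ r : ℝ, 0 < r → rea v r ≤ B := by
  obtain ⟨B, hB0, hB⟩ := rea_sup hv hc
  exact ⟨B, fun r hr => Real.sSup_le (fun t ht => rea_mem_le hB hr ht) hB0⟩

private theorem rea_lint {ρ : ℝ} (hρ : 0 ≤ ρ) :
    ∫⁻ r in Set.Ioo 0 ρ, ENNReal.ofReal (4 * Real.pi * r ^ 2) =
      ENNReal.ofReal (4 * Real.pi / 3 * ρ ^ 3) := by
  have hpi := Real.pi_pos
  rw [← ofReal_integral_eq_lintegral_ofReal]
  · congr 1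
    rw [← integral_Ioc_eq_integral_Ioo, ← intervalIntegral.integral_of_le hρ,
      intervalIntegral.integral_const_mul, integral_pow]
    norm_num
    ring
  · exact (Continuous.integrableOn_Icc (by fun_prop)).mono_set Set.Ioo_subset_Icc_self
  · exact Eventually.of_forall fun r => by positivity

theorem rea_int {v : E3 → ℝ} (hv : Continuous v) (hc : HasCompactSupport v) {t : ℝ} (ht : 0 ≤ t)
    {F : ℝ → ℝ} (hF : Continuous F) :
    ∫ x in {x | t < v x}, F (v x) =
      4 * Real.pi * ∫ r in (0 : ℝ)..rad (ds v t), F (rea v r) * r ^ 2 := by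
  have hpi := Real.pi_pos
  set ρ := rad (ds v t) with hρ
  have hρ0 : 0 ≤ ρ := rad_nonneg (rea_ds_nonneg v t)
  have hρ1 : ρ ≤ rad (ds v 0) :=
    rea_rad_le (rea_ds_nonneg v t) (rea_ds_anti hc le_rfl ht)
  set D : ℝ → ENNReal := fun r => ENNReal.ofReal (4 * Real.pi * r ^ 2) with hD
  have hDm : Measurable D := by
    rw [hD]; fun_prop
  set ν : Measure ℝ := (volume.restrict (Set.Ioo 0 ρ)).withDensity D with hν
  have hanti : AntitoneOn (rea v) (Set.Ioo 0 ρ) :=
    (rea_anti hv hc).mono (Set.Ioo_subset_Ioo_right hρ1)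
  have hae0 : AEMeasurable (rea v) (volume.restrict (Set.Ioo 0 ρ)) :=
    aemeasurable_restrict_of_antitoneOn measurableSet_Ioo hanti
  have hae : AEMeasurable (rea v) ν := hae0.mono_ac (withDensity_absolutelyContinuous _ _)
  have hfin : ∀ s : ℝ, 0 ≤ s → volume {x : E3 | s < v x} = ENNReal.ofReal (ds v s) := by
    intro s hs
    unfold ds
    rw [measureReal_def, ENNReal.ofReal_toReal (rea_fin hc hs).ne]
  -- sets
  have hset : ∀ s : ℝ, t ≤ s →
      {r | s < rea v r} ∩ Set.Ioo 0 ρ = Set.Ioo 0 (rad (ds v s)) := by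
    intro s hs
    have hs0 : 0 ≤ s := ht.trans hs
    have hle : rad (ds v s) ≤ ρ := rea_rad_le (rea_ds_nonneg v s) (rea_ds_anti hc ht hs)
    ext r
    simp only [Set.mem_inter_iff, Set.mem_ofPred_eq, Set.mem_Ioo]
    constructor
    · rintro ⟨h1, h2, h3⟩
      refine ⟨h2, ?_⟩
      rw [rea_lt_rad_iff (rea_ds_nonneg v s) h2.le]
      exact (rea_lt_iff hv hc h2 (h3.trans_le hρ1) hs0).1 h1
    · rintro ⟨h1, h2⟩
      refine ⟨?_, h1, h2.trans_le hle⟩
      rw [rea_lt_iff hv hc h1 ((h2.trans_le hle).trans_le hρ1) hs0]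
      exact (rea_lt_rad_iff (rea_ds_nonneg v s) h1.le).1 h2
  have hset2 : ∀ s : ℝ, rea v ⁻¹' Set.Ioi s ∩ Set.Ioo 0 ρ = Set.Ioo 0 (rad (ds v (max s t))) := by
    intro s
    rcases le_total t s with hs | hs
    · rw [max_eq_left hs]; exact hset s hs
    · rw [max_eq_right hs]
      have h1 := hset t le_rfl
      apply Set.Subset.antisymm
      · exact Set.inter_subset_right
      · intro r hr
        refine ⟨?_, hr⟩
        have h2 : r ∈ {r | t < rea v r} ∩ Set.Ioo 0 ρ := by rw [h1]; exact hr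
        exact lt_of_le_of_lt hs h2.1
  have hA : ∀ s : ℝ, ν.map (rea v) (Set.Ioi s) = ENNReal.ofReal (ds v (max s t)) := by
    intro s
    rw [Measure.map_apply_of_aemeasurable hae measurableSet_Ioi, hν, withDensity_apply',
      Measure.restrict_restrict' measurableSet_Ioo, hset2 s,
      rea_lint (rad_nonneg (rea_ds_nonneg v _)), rad_pow (rea_ds_nonneg v _)]
  set μ : Measure E3 := volume.restrict {x | t < v x} with hμ
  have hB : ∀ s : ℝ, μ.map v (Set.Ioi s) = ENNReal.ofReal (ds v (max s t)) := by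
    intro s
    rw [Measure.map_apply hv.measurable measurableSet_Ioi, hμ,
      Measure.restrict_apply (hv.measurable measurableSet_Ioi),
      ← hfin _ (ht.trans (le_max_right s t))]
    congr 1
    ext x
    simp only [Set.mem_inter_iff, Set.mem_preimage, Set.mem_Ioi, Set.mem_ofPred_eq, max_lt_iff]
  have hAu : ν.map (rea v) Set.univ = ENNReal.ofReal (ds v t) := by
    rw [Measure.map_apply_of_aemeasurable hae MeasurableSet.univ, Set.preimage_univ, hν,
      withDensity_apply', Measure.restrict_univ, rea_lint hρ0, rad_pow (rea_ds_nonneg v _)]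
  have hBu : μ.map v Set.univ = ENNReal.ofReal (ds v t) := by
    rw [Measure.map_apply hv.measurable MeasurableSet.univ, Set.preimage_univ, hμ,
      Measure.restrict_apply_univ, hfin t ht]
  have : IsFiniteMeasure (μ.map v) := ⟨by rw [hBu]; exact ENNReal.ofReal_lt_top⟩
  have : IsFiniteMeasure (ν.map (rea v)) := ⟨by rw [hAu]; exact ENNReal.ofReal_lt_top⟩
  have hEq : μ.map v = ν.map (rea v) := by
    apply Measure.ext_of_Iic
    intro a
    have hcomp : Set.Iic a = (Set.Ioi a)ᶜ := by rw [Set.compl_Ioi]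
    rw [hcomp, measure_compl measurableSet_Ioi (measure_ne_top _ _),
      measure_compl measurableSet_Ioi (measure_ne_top _ _), hA, hB, hAu, hBu]
  calc ∫ x in {x | t < v x}, F (v x) = ∫ y, F y ∂(μ.map v) := by
        rw [integral_map hv.aemeasurable hF.aestronglyMeasurable]
    _ = ∫ y, F y ∂(ν.map (rea v)) := by rw [hEq]
    _ = ∫ r, F (rea v r) ∂ν := integral_map hae hF.aestronglyMeasurable
    _ = ∫ r in Set.Ioo 0 ρ, (D r).toReal • F (rea v r) := by
        rw [hν, integral_withDensity_eq_integral_toReal_smul hDm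
          (Eventually.of_forall fun r => ENNReal.ofReal_lt_top)]
    _ = ∫ r in Set.Ioo 0 ρ, 4 * Real.pi * (F (rea v r) * r ^ 2) := by
        congr 1
        ext r
        rw [hD]
        simp only
        rw [ENNReal.toReal_ofReal (by positivity), smul_eq_mul]
        ring
    _ = 4 * Real.pi * ∫ r in (0 : ℝ)..ρ, F (rea v r) * r ^ 2 := by
        rw [integral_const_mul, intervalIntegral.integral_of_le hρ0, integral_Ioc_eq_integral_Ioo]

end Pool.H56.PO
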