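import Pool.Agent.H56.PO.Lev
import Pool.Agent.H56.PO.Rea
import Pool.Agent.H56.PO.Mono

/-!
# Module Key (about 150 lines): the rearrangement of `v` is a profile

Let `w = rea v`, `g = rad (ds v 0) > 0`. PROOF of the hypothesis `hloc` of `mono`. By `rea_int` with
`F y = y - 1`: `∫_{v > τ} (v - 1) = 4 π fl w (rad (ds v τ))` for `τ ≥ 0` (`flux_eq`).
`fl_nonneg`: `fl w ≥ 0` on `[0, g]`: `x ↦ w x - 1` is antitone, so `fl w` is nonnegative up to some point
(where `w ≥ 1`) and decreasing after it (`w ≤ 1`), so it is at least `min (0, fl w g)` and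
`4 π fl w g = ∫_{v > 0} (v - 1)` is `≥ 0`: it is the limit of `∫_{v > τ} (v - 1)`, `τ → 0+` (dominated
convergence), and `∫_τ^{τ'} ∫_{v > σ} (v - 1) dσ ≥ 0` for all `0 < τ < τ'` by `flux_le` (so it cannot be negative
near `0`).
`hloc`: let `0 < r' < r < g`, `t' = w r'`, `t = w r ≤ t'`. If `t = t'` the claim is `0 ≤ (r³ - r'³) M`, true
since `M ≥ fl w r ≥ 0`. Let `t < τ < τ' < t'`. By `rea_lt_iff`: `ds v σ ≤ 4π/3 r³` for `σ ∈ (t, t')`, so
`|{τ ≤ v}| ≤ 4π/3 r³` (it is contained in `{σ < v}` for `t < σ < τ`), and `ds v τ' > 4π/3 r'³`, so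
`|{τ ≤ v ≤ τ'}| = |{τ ≤ v}| - |{τ' < v}| ≤ 4π/3 (r³ - r'³)` and `|{τ' ≤ v}| ≥ 4π/3 r'³`; for `σ ∈ [τ, τ']` the
radius `rad (ds v σ)` is in `[r', r]`, so `∫_{v > σ} (v - 1) ≤ 4 π M`. `lev` gives
`(36 π)^(2/3) (4π/3 r'³)^(4/3) (τ' - τ)² ≤ 4π/3 (r³ - r'³) 4 π M (τ' - τ)`, and
`(36 π)^(1/3) (4π/3 r'³)^(2/3) = 4 π r'²`. Divide by `16 π² (τ' - τ) / 3` and let `τ → t`, `τ' → t'`.
`lim`: for `ε > 0` the set `{0 < v < ε}` is open and not empty (intermediate value theorem: `v` is continuous,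
takes a positive value (`ds v 0 > 0`) and the value `0`), so `ds v ε < ds v 0`, and `rea v r ≤ ε` for
`r ≥ rad (ds v ε)` by `rea_lt_iff`.
-/

set_option autoImplicit false

namespace Pool.H56.PO

open MeasureTheory Filter Topology

private theorem Key_finite {v : E3 → ℝ} (_hv : Continuous v) (hc : HasCompactSupport v) {t : ℝ}
    (ht : 0 ≤ t) : volume {x : E3 | t < v x} ≠ ⊤ := by
  refine (lt_of_le_of_lt (measure_mono ?_) hc.isCompact.measure_lt_top).ne
  intro x hx
  refine subset_tsupport v ?_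
  have hx' : t < v x := hx
  exact (lt_of_le_of_lt ht hx').ne'

private theorem Key_finite' {v : E3 → ℝ} (_hv : Continuous v) (hc : HasCompactSupport v) {t : ℝ}
    (ht : 0 < t) : volume {x : E3 | t ≤ v x} ≠ ⊤ := by
  refine (lt_of_le_of_lt (measure_mono ?_) hc.isCompact.measure_lt_top).ne
  intro x hx
  refine subset_tsupport v ?_
  have hx' : t ≤ v x := hx
  exact (lt_of_lt_of_le ht hx').ne'

private theorem Key_meas {v : E3 → ℝ} (hv : Continuous v) (t : ℝ) :
    MeasurableSet {x : E3 | t < v x} := (isOpen_lt continuous_const hv).measurableSet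

/-- the flux in terms of the rearrangement -/
private theorem Key_flux_eq {v : E3 → ℝ} (hv : Continuous v) (hc : HasCompactSupport v) {τ : ℝ}
    (hτ : 0 ≤ τ) : ∫ x in {x | τ < v x}, (v x - 1) = 4 * Real.pi * fl (rea v) (rad (ds v τ)) :=
  rea_int hv hc hτ (F := fun y => y - 1) (by fun_prop)

private theorem Key_W_sub {v : E3 → ℝ} (hv : Continuous v) (hc : HasCompactSupport v) {τ : ℝ}
    (hτ : 0 ≤ τ) : ∫ x in {x | τ < v x}, (v x - 1) = (∫ x in {x | τ < v x}, v x) - ds v τ := by
  have hi : Integrable v := hv.integrable_of_hasCompactSupport hc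
  rw [integral_sub hi.integrableOn (integrableOn_const (Key_finite hv hc hτ))]
  congr 1
  rw [setIntegral_const, smul_eq_mul, mul_one]
  rfl

private theorem Key_W_int {v : E3 → ℝ} (hv : Continuous v) (hc : HasCompactSupport v) {a b : ℝ}
    (ha : 0 ≤ a) (hab : a ≤ b) :
    IntervalIntegrable (fun τ => ∫ x in {x | τ < v x}, (v x - 1)) volume a b := by
  have hi : Integrable v := hv.integrable_of_hasCompactSupport hc
  have hu : Set.uIcc a b = Set.Icc a b := Set.uIcc_of_le hab
  have h1 : AntitoneOn (fun τ => ∫ x in {x | τ < v x}, v x) (Set.uIcc a b) := by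
    rw [hu]
    intro s hs t ht hst
    refine setIntegral_mono_set hi.integrableOn ?_ ?_
    · rw [EventuallyLE, ae_restrict_iff' (Key_meas hv s)]
      refine Eventually.of_forall fun x hx => ?_
      have hx' : s < v x := hx
      exact ((ha.trans hs.1).trans_lt hx').le
    · exact (Set.ofPred_subset_ofPred.2 fun x hx => lt_of_le_of_lt hst hx).eventuallyLE
  have h2 : AntitoneOn (fun τ => ds v τ) (Set.uIcc a b) := by
    rw [hu]
    intro s hs t ht hst
    exact measureReal_mono (fun x hx => lt_of_le_of_lt hst hx)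
      (Key_finite hv hc (ha.trans hs.1))
  have h3 := h1.intervalIntegrable.sub (μ := volume) h2.intervalIntegrable
  refine h3.congr ?_
  intro τ hτ
  rw [Set.uIoc_of_le hab] at hτ
  exact (Key_W_sub hv hc (ha.trans hτ.1.le)).symm

/-- convergence of the flux to the total flux -/
private theorem Key_W_tendsto {v : E3 → ℝ} (hv : Continuous v) (hc : HasCompactSupport v) :
    Tendsto (fun n : ℕ => ∫ x in {x | 1 / ((n : ℝ) + 1) < v x}, (v x - 1)) atTop
      (𝓝 (∫ x in {x | 0 < v x}, (v x - 1))) := by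
  have hmono : Monotone fun n : ℕ => {x : E3 | 1 / ((n : ℝ) + 1) < v x} := by
    intro m n hmn x hx
    have hx' : 1 / ((m : ℝ) + 1) < v x := hx
    have h1 : (m : ℝ) ≤ n := by exact_mod_cast hmn
    have h2 : (0 : ℝ) ≤ m := Nat.cast_nonneg m
    have h3 : 1 / ((n : ℝ) + 1) ≤ 1 / ((m : ℝ) + 1) :=
      one_div_le_one_div_of_le (by linarith) (by linarith)
    exact lt_of_le_of_lt h3 hx'
  have hU : (⋃ n : ℕ, {x : E3 | 1 / ((n : ℝ) + 1) < v x}) = {x | 0 < v x} := by
    ext x
    simp only [Set.mem_iUnion, Set.mem_ofPred_eq]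
    constructor
    · rintro ⟨n, hn⟩
      exact lt_trans (by positivity) hn
    · intro hx
      exact exists_nat_one_div_lt hx
  have h := tendsto_setIntegral_of_monotone (μ := (volume : Measure E3)) (f := fun x => v x - 1)
    (s := fun n : ℕ => {x : E3 | 1 / ((n : ℝ) + 1) < v x}) (fun n => Key_meas hv _) hmono ?_
  · rwa [hU] at h
  · rw [hU]
    have hi : Integrable v := hv.integrable_of_hasCompactSupport hc
    exact hi.integrableOn.sub (integrableOn_const (Key_finite hv hc le_rfl))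

/-- the total flux is nonnegative -/
private theorem Key_W_zero {D : Set E3} {v : E3 → ℝ} (h : Sol D v) :
    0 ≤ ∫ x in {x | 0 < v x}, (v x - 1) := by
  by_contra hneg
  push Not at hneg
  set W0 := ∫ x in {x | 0 < v x}, (v x - 1) with hW0
  -- a bound for W on a neighbourhood of zero
  have hv := h.cont
  have hc := h.hcs
  have hi : Integrable v := hv.integrable_of_hasCompactSupport hc
  have hlt := (Key_W_tendsto hv hc).eventually (gt_mem_nhds (show W0 < W0 / 2 by linarith))
  -- W τ = a τ - ds v τ, both antitone; use the flux inequality between 1/(n+1) and 1/(m+1)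
  have hkey : ∀ a b : ℝ, 0 < a → a < b → 0 ≤ ∫ τ in a..b, ∫ x in {x | τ < v x}, (v x - 1) := by
    intro a b ha hab
    refine le_trans ?_ (flux_le h ha hab.le)
    exact setIntegral_nonneg ((isClosed_le continuous_const hv).measurableSet.inter
      (isClosed_le hv continuous_const).measurableSet) fun x _ => by positivity
  -- the function of τ converges to W0 at 0+
  have hT : Tendsto (fun τ : ℝ => ∫ x in {x | τ < v x}, (v x - 1)) (𝓝[>] 0) (𝓝 W0) := by
    have hdom : ∀ τ : ℝ, (∫ x in {x | τ < v x}, (v x - 1)) =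
        ∫ x, ({x | τ < v x}.indicator (fun x => v x - 1) x) := fun τ =>
      (integral_indicator (Key_meas hv τ)).symm
    rw [hW0, hdom 0]
    simp only [hdom]
    have hK : IntegrableOn (fun x => |v x - 1|) (tsupport v) :=
      (((hv.sub continuous_const).abs).continuousOn).integrableOn_compact hc.isCompact
    refine tendsto_integral_filter_of_dominated_convergence
      ((tsupport v).indicator fun x => |v x - 1|) ?_ ?_ ?_ ?_
    · refine Eventually.of_forall fun τ => ?_
      exact ((hv.sub continuous_const).measurable.indicator (Key_meas hv τ)).aestronglyMeasurable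
    · filter_upwards [self_mem_nhdsWithin] with τ hτ
      refine Eventually.of_forall fun x => ?_
      by_cases hx : x ∈ {x | τ < v x}
      · have hx' : τ < v x := hx
        have hx2 : x ∈ tsupport v := subset_tsupport v (lt_trans hτ hx').ne'
        rw [Set.indicator_of_mem hx, Set.indicator_of_mem hx2, Real.norm_eq_abs]
      · rw [Set.indicator_of_notMem hx, norm_zero]
        exact Set.indicator_nonneg (fun _ _ => abs_nonneg _) x
    · exact (integrable_indicator_iff hc.isCompact.measurableSet).2 hK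
    · refine Eventually.of_forall fun x => ?_
      by_cases hx : 0 < v x
      · have h1 : ∀ᶠ τ in 𝓝[>] (0 : ℝ), {x | τ < v x}.indicator (fun x => v x - 1) x =
            {x | 0 < v x}.indicator (fun x => v x - 1) x := by
          filter_upwards [mem_nhdsWithin_of_mem_nhds (Iio_mem_nhds hx)] with τ hτ
          have hτ' : τ < v x := hτ
          rw [Set.indicator_of_mem (show x ∈ {x | τ < v x} from hτ'),
            Set.indicator_of_mem (show x ∈ {x | 0 < v x} from hx)]
        exact tendsto_const_nhds.congr' (h1.mono fun _ h => h.symm)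
      · have h1 : ∀ᶠ τ in 𝓝[>] (0 : ℝ), {x | τ < v x}.indicator (fun x => v x - 1) x =
            {x | 0 < v x}.indicator (fun x => v x - 1) x := by
          filter_upwards [self_mem_nhdsWithin] with τ hτ
          have hτ' : (0 : ℝ) < τ := hτ
          rw [Set.indicator_of_notMem (show x ∉ {x | τ < v x} from
              fun h' => hx (lt_trans hτ' h')),
            Set.indicator_of_notMem (show x ∉ {x | 0 < v x} from hx)]
        exact tendsto_const_nhds.congr' (h1.mono fun _ h => h.symm)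
  have hev := hT.eventually (gt_mem_nhds (show W0 < W0 / 2 by linarith))
  rw [eventually_nhdsWithin_iff, Metric.eventually_nhds_iff] at hev
  obtain ⟨δ, hδ, hδ'⟩ := hev
  have h1 : ∀ τ ∈ Set.Icc (δ / 4) (δ / 2), (∫ x in {x | τ < v x}, (v x - 1)) ≤ W0 / 2 := by
    intro τ hτ
    refine (hδ' (y := τ) ?_ ?_).le
    · rw [Real.dist_eq, sub_zero, abs_of_pos (by linarith [hτ.1])]
      linarith [hτ.2]
    · exact lt_of_lt_of_le (by linarith) hτ.1
  have h2 := hkey (δ / 4) (δ / 2) (by linarith) (by linarith)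
  have h3 : ∫ τ in (δ / 4)..(δ / 2), (∫ x in {x | τ < v x}, (v x - 1)) ≤
      ∫ τ in (δ / 4)..(δ / 2), (W0 / 2 : ℝ) :=
    intervalIntegral.integral_mono_on (by linarith) (Key_W_int hv hc (by linarith) (by linarith))
      intervalIntegrable_const h1
  rw [intervalIntegral.integral_const, smul_eq_mul] at h3
  nlinarith

/-- integrability of the profile -/
private theorem Key_fl_int {g : ℝ} {w : ℝ → ℝ} (ha : AntitoneOn w (Set.Ioo 0 g))
    (hn : ∀ r ∈ Set.Ioo 0 g, 0 ≤ w r) (hb : ∃ B : ℝ, ∀ r ∈ Set.Ioo 0 g, w r ≤ B) {a b : ℝ}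
    (h0 : 0 ≤ a) (hab : a ≤ b) (hbg : b ≤ g) :
    IntervalIntegrable (fun x => (w x - 1) * x ^ 2) volume a b := by
  obtain ⟨B, hB⟩ := hb
  rw [intervalIntegrable_iff_integrableOn_Ioo_of_le hab]
  have hsub : Set.Ioo a b ⊆ Set.Ioo 0 g := Set.Ioo_subset_Ioo h0 hbg
  have hm : AEMeasurable w (volume.restrict (Set.Ioo a b)) :=
    aemeasurable_restrict_of_antitoneOn measurableSet_Ioo (ha.mono hsub)
  have hm2 : AEStronglyMeasurable (fun x => (w x - 1) * x ^ 2) (volume.restrict (Set.Ioo a b)) :=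
    ((hm.sub aemeasurable_const).mul (by fun_prop)).aestronglyMeasurable
  refine Integrable.of_bound hm2 ((|B| + 1) * b ^ 2) ?_
  rw [ae_restrict_iff' measurableSet_Ioo]
  refine Eventually.of_forall fun x hx => ?_
  have h1 := hn x (hsub hx)
  have h2 := hB x (hsub hx)
  have h3 : |w x - 1| ≤ |B| + 1 := by
    rw [abs_le]
    constructor
    · have := abs_nonneg B; linarith
    · have := le_abs_self B; linarith
  rw [Real.norm_eq_abs, abs_mul, abs_of_nonneg (sq_nonneg x)]
  have h4 : x ^ 2 ≤ b ^ 2 := pow_le_pow_left₀ (h0.trans hx.1.le) hx.2.le 2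
  exact mul_le_mul h3 h4 (sq_nonneg x) (by positivity)

private theorem Key_fl_nonneg {g : ℝ} {w : ℝ → ℝ} (ha : AntitoneOn w (Set.Ioo 0 g))
    (hn : ∀ r ∈ Set.Ioo 0 g, 0 ≤ w r) (hb : ∃ B : ℝ, ∀ r ∈ Set.Ioo 0 g, w r ≤ B)
    (hfg : 0 ≤ fl w g) {r : ℝ} (hr : r ∈ Set.Ioo 0 g) : 0 ≤ fl w r := by
  rcases le_total 1 (w r) with h1 | h1
  · unfold fl
    refine intervalIntegral.integral_nonneg_of_ae_restrict hr.1.le ?_
    rw [EventuallyLE, ae_restrict_iff' measurableSet_Icc]
    have h0 : ∀ᵐ x : ℝ ∂volume, x ≠ 0 := by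
      rw [ae_iff]; simp
    filter_upwards [h0] with x hx0 hx
    have hx1 : 0 < x := lt_of_le_of_ne hx.1 (Ne.symm hx0)
    have h2 : w r ≤ w x := ha ⟨hx1, lt_of_le_of_lt hx.2 hr.2⟩ hr hx.2
    simp only [Pi.zero_apply]
    exact mul_nonneg (by linarith) (sq_nonneg x)
  · have e : fl w g = fl w r + ∫ x in r..g, (w x - 1) * x ^ 2 := by
      unfold fl
      rw [intervalIntegral.integral_add_adjacent_intervals
        (Key_fl_int ha hn hb le_rfl hr.1.le hr.2.le) (Key_fl_int ha hn hb hr.1.le hr.2.le le_rfl)]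
    have h3 : ∫ x in r..g, (w x - 1) * x ^ 2 ≤ 0 := by
      have h4 : 0 ≤ ∫ x in r..g, -((w x - 1) * x ^ 2) := by
        refine intervalIntegral.integral_nonneg_of_ae_restrict hr.2.le ?_
        rw [EventuallyLE, ae_restrict_iff' measurableSet_Icc]
        have h0 : ∀ᵐ x : ℝ ∂volume, x ≠ g := by
          rw [ae_iff]; simp
        filter_upwards [h0] with x hx0 hx
        have hx1 : x < g := lt_of_le_of_ne hx.2 hx0
        have h2 : w x ≤ w r := ha hr ⟨lt_of_lt_of_le hr.1 hx.1, hx1⟩ hx.1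
        simp only [Pi.zero_apply]
        have h5 : (w x - 1) * x ^ 2 ≤ 0 :=
          mul_nonpos_of_nonpos_of_nonneg (by linarith) (sq_nonneg x)
        linarith
      rw [intervalIntegral.integral_neg] at h4
      linarith
    linarith

private theorem Key_const {r : ℝ} (hr : 0 < r) :
    (36 * Real.pi) ^ (1 / 3 : ℝ) * (4 * Real.pi / 3 * r ^ 3) ^ (2 / 3 : ℝ) =
      4 * Real.pi * r ^ 2 := by
  have hpi := Real.pi_pos
  have h0 : 0 ≤ 4 * Real.pi / 3 * r ^ 3 := by positivity
  have h1 : (4 * Real.pi / 3 * r ^ 3) ^ (2 / 3 : ℝ) =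
      ((4 * Real.pi / 3 * r ^ 3) ^ 2) ^ (1 / 3 : ℝ) := by
    rw [← Real.rpow_natCast (4 * Real.pi / 3 * r ^ 3) 2, ← Real.rpow_mul h0]
    norm_num
  rw [h1, ← Real.mul_rpow (by positivity) (by positivity)]
  have h2 : 36 * Real.pi * (4 * Real.pi / 3 * r ^ 3) ^ 2 = (4 * Real.pi * r ^ 2) ^ 3 := by ring
  rw [h2, ← Real.rpow_natCast, ← Real.rpow_mul (by positivity)]
  norm_num

/-- the local inequality between two levels -/
private theorem Key_loc {D : Set E3} {v : E3 → ℝ} (h : Sol D v) {r' r M τ τ' : ℝ} (hr' : 0 < r')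
    (hrr : r' < r) (hr : r < rad (ds v 0)) (hM : ∀ x ∈ Set.Icc r' r, fl (rea v) x ≤ M)
    (hτ : rea v r < τ) (hττ : τ < τ') (hτ' : τ' < rea v r') :
    (τ' - τ) * (3 * r' ^ 4) ≤ (r ^ 3 - r' ^ 3) * M := by
  have hv := h.cont
  have hc := h.hcs
  have hpi := Real.pi_pos
  have hr0 : 0 < r := hr'.trans hrr
  have hw0 : 0 ≤ rea v r := rea_nonneg v r
  have hτ0 : 0 < τ := lt_of_le_of_lt hw0 hτ
  have hτ'0 : 0 < τ' := hτ0.trans hττ
  have hlev := lev h hτ0 hττ
  -- volume of {τ' ≤ v}
  have h1 : ∀ σ, 0 ≤ σ → σ ≤ τ' → 4 * Real.pi / 3 * r' ^ 3 < ds v σ := fun σ h0 hσ =>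
    (rea_lt_iff hv hc hr' (hrr.trans hr) h0).1 (lt_of_le_of_lt hσ hτ')
  have h2 : ∀ σ, rea v r < σ → ds v σ ≤ 4 * Real.pi / 3 * r ^ 3 := fun σ hσ =>
    not_lt.1 fun h' => (not_lt.2 hσ.le) ((rea_lt_iff hv hc hr0 hr (hw0.trans hσ.le)).2 h')
  have h3 : 4 * Real.pi / 3 * r' ^ 3 ≤ volume.real {x | τ' ≤ v x} := by
    refine (h1 τ' hτ'0.le le_rfl).le.trans ?_
    refine measureReal_mono (fun x hx => ?_) (Key_finite' hv hc hτ'0)
    have hx' : τ' < v x := hx
    exact hx'.le
  have h4 : volume.real {x | τ ≤ v x} ≤ 4 * Real.pi / 3 * r ^ 3 := by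
    obtain ⟨σ, hσ1, hσ2⟩ := exists_between hτ
    refine le_trans ?_ (h2 σ hσ1)
    exact measureReal_mono (fun x hx => lt_of_lt_of_le hσ2 hx)
      (Key_finite hv hc (hw0.trans hσ1.le))
  have h5 : volume.real {x | τ ≤ v x ∧ v x ≤ τ'} ≤ 4 * Real.pi / 3 * (r ^ 3 - r' ^ 3) := by
    have h6 : volume.real {x | τ ≤ v x ∧ v x ≤ τ'} + ds v τ' = volume.real {x | τ ≤ v x} := by
      have hd : Disjoint {x : E3 | τ ≤ v x ∧ v x ≤ τ'} {x | τ' < v x} := by
        rw [Set.disjoint_left]
        intro x hx hx'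
        exact (not_lt.2 hx.2) hx'
      have hu : {x : E3 | τ ≤ v x ∧ v x ≤ τ'} ∪ {x | τ' < v x} = {x | τ ≤ v x} := by
        ext x
        simp only [Set.mem_union, Set.mem_ofPred_eq]
        constructor
        · rintro (hx | hx)
          · exact hx.1
          · linarith
        · intro hx
          rcases le_or_gt (v x) τ' with h7 | h7
          · exact Or.inl ⟨hx, h7⟩
          · exact Or.inr h7
      have hf1 : volume {x : E3 | τ ≤ v x ∧ v x ≤ τ'} ≠ ⊤ :=
        (lt_of_le_of_lt (measure_mono fun x hx => hx.1)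
          (Key_finite' hv hc hτ0).lt_top).ne
      rw [← hu]
      unfold ds
      rw [measureReal_union hd (Key_meas hv τ') hf1 (Key_finite hv hc hτ'0.le)]
    have h7 := h1 τ' hτ'0.le le_rfl
    linarith
  have h8 : ∀ σ ∈ Set.Icc τ τ', (∫ x in {x | σ < v x}, (v x - 1)) ≤ 4 * Real.pi * M := by
    intro σ hσ
    have hσ0 : 0 ≤ σ := hτ0.le.trans hσ.1
    rw [Key_flux_eq hv hc hσ0]
    refine mul_le_mul_of_nonneg_left (hM _ ⟨?_, ?_⟩) (by positivity)
    · have h9 := rad_lt (by positivity) (h1 σ hσ0 hσ.2)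
      rw [rad_vol hr'.le] at h9
      exact h9.le
    · have h10 := h2 σ (lt_of_lt_of_le hτ hσ.1)
      rcases h10.eq_or_lt with h11 | h11
      · rw [h11, rad_vol hr0.le]
      · have h12 := rad_lt measureReal_nonneg h11
        rw [rad_vol hr0.le] at h12
        exact h12.le
  have h9 : ∫ τ in τ..τ', (∫ x in {x | τ < v x}, (v x - 1)) ≤ 4 * Real.pi * M * (τ' - τ) := by
    have h10 := intervalIntegral.integral_mono_on hττ.le (Key_W_int hv hc hτ0.le hττ.le)
      intervalIntegrable_const h8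
    rw [intervalIntegral.integral_const, smul_eq_mul] at h10
    linarith
  have h10 : 4 * Real.pi * r' ^ 2 * (τ' - τ) ≤
      (36 * Real.pi) ^ (1 / 3 : ℝ) * (volume.real {x | τ' ≤ v x}) ^ (2 / 3 : ℝ) * (τ' - τ) := by
    refine mul_le_mul_of_nonneg_right ?_ (by linarith)
    rw [← Key_const hr']
    refine mul_le_mul_of_nonneg_left ?_ (by positivity)
    exact Real.rpow_le_rpow (by positivity) h3 (by norm_num)
  have h11 : (4 * Real.pi * r' ^ 2 * (τ' - τ)) ^ 2 ≤
      volume.real {x | τ ≤ v x ∧ v x ≤ τ'} * ∫ τ in τ..τ', (∫ x in {x | τ < v x}, (v x - 1)) :=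
    (pow_le_pow_left₀ (by have : 0 < τ' - τ := by linarith
                          positivity) h10 2).trans hlev
  have h12 : 0 < τ' - τ := by linarith
  have h13 : 0 ≤ ∫ τ in τ..τ', (∫ x in {x | τ < v x}, (v x - 1)) := by
    refine le_trans ?_ (flux_le h hτ0 hττ.le)
    exact setIntegral_nonneg ((isClosed_le continuous_const hv).measurableSet.inter
      (isClosed_le hv continuous_const).measurableSet) fun x _ => by positivity
  have h14 : volume.real {x | τ ≤ v x ∧ v x ≤ τ'} *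
      (∫ τ in τ..τ', (∫ x in {x | τ < v x}, (v x - 1))) ≤
      4 * Real.pi / 3 * (r ^ 3 - r' ^ 3) * (4 * Real.pi * M * (τ' - τ)) :=
    mul_le_mul h5 h9 h13 (measureReal_nonneg.trans h5)
  have h15 := h11.trans h14
  have h16 : (4 * Real.pi * r' ^ 2 * (τ' - τ)) ^ 2 =
      16 * Real.pi ^ 2 / 3 * (τ' - τ) * ((τ' - τ) * (3 * r' ^ 4)) := by ring
  have h17 : 4 * Real.pi / 3 * (r ^ 3 - r' ^ 3) * (4 * Real.pi * M * (τ' - τ)) =
      16 * Real.pi ^ 2 / 3 * (τ' - τ) * ((r ^ 3 - r' ^ 3) * M) := by ring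
  rw [h16, h17] at h15
  exact le_of_mul_le_mul_left h15 (by positivity)

private theorem Key_strict {D : Set E3} {v : E3 → ℝ} (h : Sol D v) (hG : 0 < ds v 0) {ε : ℝ}
    (hε : 0 < ε) : ds v ε < ds v 0 := by
  have hv := h.cont
  have hc := h.hcs
  -- a point where v is positive
  obtain ⟨x, hx⟩ : ∃ x, 0 < v x := by
    by_contra hne
    push Not at hne
    have : {x : E3 | 0 < v x} = ∅ := by
      ext x
      simp only [Set.mem_ofPred_eq, Set.mem_empty_iff_false, iff_false, not_lt]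
      exact hne x
    unfold ds at hG
    rw [this] at hG
    simp at hG
  obtain ⟨y, hy⟩ : ∃ y, y ∉ D := by
    by_contra hne
    push Not at hne
    have hu : closure D = Set.univ := by
      apply Set.eq_univ_of_forall
      intro z
      exact subset_closure (hne z)
    have h1 : IsCompact (Set.univ : Set E3) := by rw [← hu]; exact h.bd.isCompact_closure
    have : NoncompactSpace E3 := NormedSpace.noncompactSpace ℝ E3
    exact noncompact_univ E3 h1
  have hy0 : v y = 0 := h.zero y hy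
  have hne : {z : E3 | 0 < v z ∧ v z < ε}.Nonempty := by
    rcases lt_or_ge (v x) ε with h1 | h1
    · exact ⟨x, hx, h1⟩
    · obtain ⟨z, hz⟩ := mem_range_of_exists_le_of_exists_ge hv (c := ε / 2)
        ⟨y, by rw [hy0]; linarith⟩ ⟨x, by linarith⟩
      exact ⟨z, by rw [hz]; linarith, by rw [hz]; linarith⟩
  have hop : IsOpen {z : E3 | 0 < v z ∧ v z < ε} :=
    (isOpen_lt continuous_const hv).inter (isOpen_lt hv continuous_const)
  have hpos : 0 < volume {z : E3 | 0 < v z ∧ v z < ε} := hop.measure_pos volume hne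
  have hfin : volume {z : E3 | 0 < v z ∧ v z < ε} ≠ ⊤ :=
    (lt_of_le_of_lt (measure_mono fun z hz => hz.1) (Key_finite hv hc le_rfl).lt_top).ne
  have hposr : 0 < volume.real {z : E3 | 0 < v z ∧ v z < ε} := ENNReal.toReal_pos hpos.ne' hfin
  have hd : Disjoint {z : E3 | 0 < v z ∧ v z < ε} {z | ε < v z} := by
    rw [Set.disjoint_left]
    intro z hz hz'
    have h1 : ε < v z := hz'
    linarith [hz.2]
  have h1 := measureReal_union hd (Key_meas hv ε) hfin (Key_finite hv hc hε.le)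
  have h2 : volume.real ({z : E3 | 0 < v z ∧ v z < ε} ∪ {z | ε < v z}) ≤ ds v 0 := by
    refine measureReal_mono ?_ (Key_finite hv hc le_rfl)
    rintro z (hz | hz)
    · exact hz.1
    · exact lt_trans hε hz
  unfold ds at h2 ⊢
  linarith

theorem prof {D : Set E3} {v : E3 → ℝ} (h : Sol D v) (hG : 0 < ds v 0) :
    Prof (rad (ds v 0)) (rea v) := by
  have hv := h.cont
  have hc := h.hcs
  have hg : 0 < rad (ds v 0) := lt_of_le_of_lt (rad_nonneg le_rfl) (rad_lt le_rfl hG)
  have hanti := rea_anti hv hc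
  have hnn : ∀ r ∈ Set.Ioo 0 (rad (ds v 0)), 0 ≤ rea v r := fun r _ => rea_nonneg v r
  have hbd : ∃ B : ℝ, ∀ r ∈ Set.Ioo 0 (rad (ds v 0)), rea v r ≤ B := by
    obtain ⟨B, hB⟩ := rea_bdd hv hc
    exact ⟨B, fun r hr => hB r hr.1⟩
  have hfg : 0 ≤ fl (rea v) (rad (ds v 0)) := by
    have h1 := Key_W_zero h
    rw [Key_flux_eq hv hc le_rfl] at h1
    exact nonneg_of_mul_nonneg_right h1 (by positivity)
  have hfl : ∀ r ∈ Set.Ioo 0 (rad (ds v 0)), 0 ≤ fl (rea v) r := fun r hr =>
    Key_fl_nonneg hanti hnn hbd hfg hr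
  refine ⟨hg, hanti, hnn, hbd, ?_, ?_⟩
  · -- the limit
    rw [Metric.tendsto_nhds]
    intro ε hε
    have h1 : rad (ds v (ε / 2)) < rad (ds v 0) :=
      rad_lt measureReal_nonneg (Key_strict h hG (half_pos hε))
    filter_upwards [Ioo_mem_nhdsLT h1] with r hr
    have hr0 : 0 < r := lt_of_le_of_lt (rad_nonneg measureReal_nonneg) hr.1
    rw [Real.dist_eq, sub_zero, abs_of_nonneg (rea_nonneg v r)]
    have h2 : ¬ ε / 2 < rea v r := by
      rw [rea_lt_iff hv hc hr0 hr.2 (half_pos hε).le, not_lt]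
      have h3 : (0 : ℝ) ≤ ds v (ε / 2) := measureReal_nonneg
      have h4 := rad_pow h3
      have h5 : rad (ds v (ε / 2)) ^ 3 ≤ r ^ 3 := pow_le_pow_left₀ (rad_nonneg h3) hr.1.le 3
      have hpi := Real.pi_pos
      calc ds v (ε / 2) = 4 * Real.pi / 3 * rad (ds v (ε / 2)) ^ 3 := h4.symm
        _ ≤ 4 * Real.pi / 3 * r ^ 3 := mul_le_mul_of_nonneg_left h5 (by positivity)
    linarith [not_lt.1 h2]
  · refine mono hg hanti hnn hbd ?_
    intro r' r M hr' hrr hr hM
    have hr0 : 0 < r := hr'.trans hrr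
    have hmem : r ∈ Set.Ioo 0 (rad (ds v 0)) := ⟨hr0, hr⟩
    have hM0 : 0 ≤ M := (hfl r hmem).trans (hM r ⟨hrr.le, le_rfl⟩)
    have hcube : 0 ≤ r ^ 3 - r' ^ 3 := by
      have := pow_le_pow_left₀ hr'.le hrr.le 3
      linarith
    have hle : rea v r ≤ rea v r' := hanti ⟨hr', hrr.trans hr⟩ hmem hrr.le
    rcases hle.eq_or_lt with heq | hlt
    · rw [heq, sub_self, zero_mul]
      exact mul_nonneg hcube hM0
    · set K := (r ^ 3 - r' ^ 3) * M with hK
      set P : ℝ := 3 * r' ^ 4 with hP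
      have hPpos : 0 < P := by positivity
      refine le_of_forall_pos_le_add fun ε hε => ?_
      set δ := min ((rea v r' - rea v r) / 4) (ε / (2 * P)) with hδ
      have hδ0 : 0 < δ := lt_min (by linarith) (by positivity)
      have hδ1 : δ ≤ (rea v r' - rea v r) / 4 := min_le_left _ _
      have hδ2 : δ ≤ ε / (2 * P) := min_le_right _ _
      have h1 := Key_loc h hr' hrr hr hM (τ := rea v r + δ) (τ' := rea v r' - δ) (by linarith)
        (by linarith) (by linarith)
      have h2 : 2 * P * δ ≤ ε := by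
        rw [le_div_iff₀ (by positivity)] at hδ2
        linarith
      nlinarith

end Pool.H56.PO
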