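import Pool.Agent.H56.PO.Div

/-!
# Module Poh (about 150 lines): the integral identities

PROOF. `v` is `C¹` with compact support; `v` and `fderiv v` vanish outside `D`.
(1) `mass`: `integral_div` with the field `F = ∇ v` (components `fderiv v x (ei i)`), `div F = lap v = 1 - v`:
`∫_D (1 - v) = 0`.
(2) `energy`: field `v ∇ v`: `div = |∇ v|² + v (1 - v)`.
(3) `poh`: fields `(x · ∇ v) ∇ v - (1/2) |∇ v|² x` with `div = - (1/2) |∇ v|² + (x · ∇ v) (1 - v)`
(`∑_i ∂_i (x · ∇ v) ∂_i v = |∇ v|² + ∑_{i,j} x_j ∂_j ∂_i v ∂_i v`, symmetry of the second derivative), `v x`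
with `div = 3 v + x · ∇ v`, and `(1/2) v² x` with `div = (3/2) v² + v (x · ∇ v)`. Let `E = ∫ |∇ v|²`, `M1 = ∫ v`,
`M2 = ∫ v²`: (2) `E = M2 - M1`, (3) `- E / 2 + (- 3 M1) + (3/2) M2 = 0`: so `M2 = (5/2) M1`.
All divergences are bounded on `D` (no second derivatives), all fields are `C¹` on `D`, continuous, and
vanish outside `D`.
-/

set_option autoImplicit false

namespace Pool.H56.PO

open MeasureTheory Filter Topology

/-- the divergence theorem in components -/
theorem div_aux {D : Set E3} {χ : ℕ → E3 → ℝ} {C : ℝ} (hχ : Cut D χ C) (hD : IsOpen D)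
    (hb : Bornology.IsBounded D) {f : Fin 3 → E3 → ℝ} (hf : ∀ i, Continuous (f i))
    (h0 : ∀ x, x ∉ D → ∀ i, f i x = 0) (h1 : ∀ i, ContDiffOn ℝ 1 (f i) D)
    {g : E3 → ℝ} (hg : Continuous g)
    (hdiv : ∀ x ∈ D, ∑ i : Fin 3, fderiv ℝ (f i) x (ei i) = g x) :
    ∫ x in D, g x = 0 := by
  set F : E3 → E3 := fun x => WithLp.toLp 2 (fun i => f i x) with hF
  have hFc : Continuous F := (PiLp.continuous_toLp 2 _).comp (continuous_pi hf)
  have hF0 : ∀ x, x ∉ D → F x = 0 := by
    intro x hx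
    ext i
    simp [hF, h0 x hx i]
  have hF1 : ContDiffOn ℝ 1 F D := by
    rw [contDiffOn_euclidean]
    intro i
    simpa [hF] using h1 i
  have hcomp : ∀ x ∈ D, ∀ i, (fderiv ℝ F x (ei i)) i = fderiv ℝ (f i) x (ei i) := by
    intro x hx i
    have hd : DifferentiableAt ℝ F x :=
      (hF1.contDiffAt (hD.mem_nhds hx)).differentiableAt (by norm_num)
    have h2 : HasFDerivAt (fun z => F z i)
        ((EuclideanSpace.proj i : E3 →L[ℝ] ℝ).comp (fderiv ℝ F x)) x :=
      (EuclideanSpace.proj i : E3 →L[ℝ] ℝ).hasFDerivAt.comp x hd.hasFDerivAt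
    have h3 : (fun z => F z i) = f i := by
      ext z
      simp [hF]
    rw [h3] at h2
    rw [h2.fderiv]
    rfl
  have hdiv' : ∀ x ∈ D, ∑ i : Fin 3, (fderiv ℝ F x (ei i)) i = g x := by
    intro x hx
    rw [← hdiv x hx]
    exact Finset.sum_congr rfl fun i _ => hcomp x hx i
  obtain ⟨B, hB⟩ := (hb.isCompact_closure).exists_bound_of_continuousOn (f := g) hg.continuousOn
  have key := integral_div hχ hD hb hFc hF0 hF1
    ⟨B, fun x hx => by
      rw [hdiv' x hx]
      exact hB x (subset_closure hx)⟩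
  rw [← key]
  exact (setIntegral_congr_fun hD.measurableSet (fun x hx => (hdiv' x hx).symm))

section

variable {D : Set E3} {v : E3 → ℝ}

theorem Sol.dcont (h : Sol D v) : Continuous (fderiv ℝ v) := h.c1.continuous_fderiv (by norm_num)

theorem Sol.dc1 (h : Sol D v) : ContDiffOn ℝ 1 (fderiv ℝ v) D :=
  h.c2.fderiv_of_isOpen h.op (by norm_num)

theorem Sol.ddiff (h : Sol D v) {x : E3} (hx : x ∈ D) : DifferentiableAt ℝ (fderiv ℝ v) x :=
  (h.dc1.contDiffAt (h.op.mem_nhds hx)).differentiableAt (by norm_num)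

theorem Sol.diff (h : Sol D v) (x : E3) : DifferentiableAt ℝ v x :=
  (h.c1.differentiable (by norm_num)) x

theorem Sol.hasd (h : Sol D v) (x : E3) : HasFDerivAt v (fderiv ℝ v x) x :=
  (h.diff x).hasFDerivAt

/-- derivative of a component of the gradient -/
theorem Sol.hasdi (h : Sol D v) {x : E3} (hx : x ∈ D) (i : Fin 3) :
    HasFDerivAt (fun z => fderiv ℝ v z (ei i))
      ((ContinuousLinearMap.apply ℝ ℝ (ei i)).comp (fderiv ℝ (fderiv ℝ v) x)) x :=
  (ContinuousLinearMap.apply ℝ ℝ (ei i)).hasFDerivAt.comp x (h.ddiff hx).hasFDerivAt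

theorem Sol.dicont (h : Sol D v) (i : Fin 3) : Continuous (fun z => fderiv ℝ v z (ei i)) :=
  h.dcont.clm_apply continuous_const

theorem Sol.dic1 (h : Sol D v) (i : Fin 3) : ContDiffOn ℝ 1 (fun z => fderiv ℝ v z (ei i)) D :=
  h.dc1.clm_apply contDiffOn_const

theorem Sol.lapeq (h : Sol D v) {x : E3} (hx : x ∈ D) : lap v x = 1 - v x := by
  have := h.eq x hx
  linarith

/-- the integral over `D` of a function that vanishes outside `D` -/
theorem Sol.set_int {g : E3 → ℝ} (h0 : ∀ x, x ∉ D → g x = 0) :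
    ∫ x in D, g x = ∫ x, g x :=
  setIntegral_eq_integral_of_forall_compl_eq_zero h0

theorem Sol.intble (h : Sol D v) {g : E3 → ℝ} (hg : Continuous g) : IntegrableOn g D := by
  have : IntegrableOn g (closure D) := hg.continuousOn.integrableOn_compact h.bd.isCompact_closure
  exact this.mono_set subset_closure

end

/-- the mass identity -/
theorem mass {D : Set E3} {v : E3 → ℝ} (h : Sol D v) {χ : ℕ → E3 → ℝ} {C : ℝ} (hχ : Cut D χ C) :
    ∫ x, v x = volume.real D := by
  have hk := div_aux hχ h.op h.bd (f := fun i x => fderiv ℝ v x (ei i)) (g := fun x => 1 - v x)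
    (fun i => h.dicont i) (fun x hx i => by simp [h.gz x hx]) (fun i => h.dic1 i)
    (continuous_const.sub h.cont) (by
      intro x hx
      rw [← h.lapeq hx, lap]
      refine Finset.sum_congr rfl fun i _ => ?_
      rw [(h.hasdi hx i).fderiv]
      rfl)
  have h1 : ∫ x in D, (1 - v x) = volume.real D - ∫ x, v x := by
    rw [integral_sub (h.intble continuous_const) (h.intble h.cont), Sol.set_int h.zero]
    simp
  rw [h1] at hk
  linarith

/-- the energy identity -/
theorem energy {D : Set E3} {v : E3 → ℝ} (h : Sol D v) {χ : ℕ → E3 → ℝ} {C : ℝ}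
    (hχ : Cut D χ C) : ∫ x, ‖fderiv ℝ v x‖ ^ 2 = (∫ x, v x ^ 2) - ∫ x, v x := by
  have hk := div_aux hχ h.op h.bd (f := fun i x => v x * fderiv ℝ v x (ei i))
    (g := fun x => ‖fderiv ℝ v x‖ ^ 2 + (v x - v x ^ 2))
    (fun i => h.cont.mul (h.dicont i)) (fun x hx i => by simp [h.gz x hx])
    (fun i => (h.c1.contDiffOn).mul (h.dic1 i))
    ((h.dcont.norm.pow 2).add (h.cont.sub (h.cont.pow 2))) (by
      intro x hx
      have e1 : ∀ i : Fin 3, fderiv ℝ (fun x => v x * fderiv ℝ v x (ei i)) x (ei i) =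
          v x * fderiv ℝ (fderiv ℝ v) x (ei i) (ei i) + (fderiv ℝ v x (ei i)) ^ 2 := by
        intro i
        have hm : HasFDerivAt (fun z => v z * fderiv ℝ v z (ei i)) _ x :=
          (h.hasd x).mul (h.hasdi hx i)
        rw [hm.fderiv]
        simp [ContinuousLinearMap.apply_apply]
        ring
      simp only [e1]
      rw [Finset.sum_add_distrib, ← Finset.mul_sum, ← norm_sq_form]
      have := h.lapeq hx
      rw [lap] at this
      rw [this]
      ring)
  have h1 : ∫ x in D, (‖fderiv ℝ v x‖ ^ 2 + (v x - v x ^ 2)) =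
      (∫ x, ‖fderiv ℝ v x‖ ^ 2) + ((∫ x, v x) - ∫ x, v x ^ 2) := by
    have i1 : IntegrableOn (fun x => ‖fderiv ℝ v x‖ ^ 2) D := h.intble (h.dcont.norm.pow 2)
    have i2 : IntegrableOn (fun x => v x) D := h.intble h.cont
    have i3 : IntegrableOn (fun x => v x ^ 2) D := h.intble (h.cont.pow 2)
    have i4 : IntegrableOn (fun x => v x - v x ^ 2) D := i2.sub i3
    rw [integral_add i1 i4, integral_sub i2 i3, Sol.set_int h.zero,
      Sol.set_int (g := fun x => v x ^ 2) (fun x hx => by simp [h.zero x hx]),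
      Sol.set_int (g := fun x => ‖fderiv ℝ v x‖ ^ 2) (fun x hx => by simp [h.gz x hx])]
  rw [h1] at hk
  linarith

/-- the sum of the derivatives of the coordinates -/
theorem apply_self (L : E3 →L[ℝ] ℝ) (x : E3) : ∑ i : Fin 3, L (ei i) * x i = L x := by
  have hx : x = ∑ i : Fin 3, x i • ei i := by
    ext j
    simp [ei, Fin.sum_univ_three]
    fin_cases j <;> simp
  conv_rhs => rw [hx]
  rw [map_sum]
  refine Finset.sum_congr rfl fun i _ => ?_
  rw [map_smul, smul_eq_mul, mul_comm]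

/-- the Pohozaev identity -/
theorem poh {D : Set E3} {v : E3 → ℝ} (h : Sol D v) {χ : ℕ → E3 → ℝ} {C : ℝ} (hχ : Cut D χ C) :
    ∫ x, v x ^ 2 = 5 / 2 * ∫ x, v x := by
  have hNc : Continuous (fun x => ∑ j : Fin 3, (fderiv ℝ v x (ei j)) ^ 2) :=
    continuous_finsetSum _ fun j _ => (h.dicont j).pow 2
  have hsc : Continuous (fun x => fderiv ℝ v x x) := h.dcont.clm_apply continuous_id
  have hxc : ∀ i : Fin 3, Continuous (fun x : E3 => x i) := fun i =>
    (EuclideanSpace.proj i : E3 →L[ℝ] ℝ).continuous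
  have hx1 : ∀ i : Fin 3, ContDiff ℝ 1 (fun x : E3 => x i) := fun i =>
    (EuclideanSpace.proj i : E3 →L[ℝ] ℝ).contDiff
  have hN1 : ContDiffOn ℝ 1 (fun x => ∑ j : Fin 3, (fderiv ℝ v x (ei j)) ^ 2) D :=
    ContDiffOn.sum fun j _ => (h.dic1 j).pow 2
  have hs1 : ContDiffOn ℝ 1 (fun x => fderiv ℝ v x x) D := h.dc1.clm_apply contDiffOn_id
  have hk := div_aux hχ h.op h.bd
    (f := fun i x => fderiv ℝ v x x * fderiv ℝ v x (ei i) +
      (-(1 / 2) * (∑ j : Fin 3, (fderiv ℝ v x (ei j)) ^ 2) + 1 / 2 * v x ^ 2 - v x) * x i)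
    (g := fun x => -(1 / 2) * ‖fderiv ℝ v x‖ ^ 2 + (3 / 2 * v x ^ 2 - 3 * v x))
    (fun i => (hsc.mul (h.dicont i)).add
      ((((continuous_const.mul hNc).add (continuous_const.mul (h.cont.pow 2))).sub h.cont).mul
        (hxc i)))
    (fun x hx i => by simp [h.gz x hx, h.zero x hx])
    (fun i => (hs1.mul (h.dic1 i)).add
      ((((contDiffOn_const.mul hN1).add (contDiffOn_const.mul (h.c1.contDiffOn.pow 2))).sub
        h.c1.contDiffOn).mul (hx1 i).contDiffOn))
    ((continuous_const.mul (h.dcont.norm.pow 2)).add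
      ((continuous_const.mul (h.cont.pow 2)).sub (continuous_const.mul h.cont))) (by
      intro x hx
      have hsym : IsSymmSndFDerivAt ℝ v x :=
        (h.c2.contDiffAt (h.op.mem_nhds hx)).isSymmSndFDerivAt (by simp)
      have hS : HasFDerivAt (fun z => fderiv ℝ v z z)
          ((fderiv ℝ v x).comp (ContinuousLinearMap.id ℝ E3) +
            (fderiv ℝ (fderiv ℝ v) x).flip x) x :=
        (h.ddiff hx).hasFDerivAt.clm_apply (hasFDerivAt_id x)
      have hN : HasFDerivAt (fun z => ∑ j : Fin 3, (fderiv ℝ v z (ei j)) ^ 2)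
          (∑ j : Fin 3, (2 * fderiv ℝ v x (ei j)) •
            ((ContinuousLinearMap.apply ℝ ℝ (ei j)).comp (fderiv ℝ (fderiv ℝ v) x))) x := by
        refine HasFDerivAt.fun_sum fun j _ => ?_
        have := (h.hasdi hx j).pow 2
        simpa using this
      have hX : ∀ i : Fin 3, HasFDerivAt (fun z : E3 => z i)
          (EuclideanSpace.proj i : E3 →L[ℝ] ℝ) x := fun i =>
        (EuclideanSpace.proj i : E3 →L[ℝ] ℝ).hasFDerivAt
      have e1 : ∀ i : Fin 3, fderiv ℝ (fun x => fderiv ℝ v x x * fderiv ℝ v x (ei i) +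
          (-(1 / 2) * (∑ j : Fin 3, (fderiv ℝ v x (ei j)) ^ 2) + 1 / 2 * v x ^ 2 - v x) * x i)
            x (ei i) =
          (fderiv ℝ v x (ei i) + fderiv ℝ (fderiv ℝ v) x (ei i) x) * fderiv ℝ v x (ei i) +
          fderiv ℝ v x x * fderiv ℝ (fderiv ℝ v) x (ei i) (ei i) +
          ((-(1 / 2) * (∑ j : Fin 3, 2 * fderiv ℝ v x (ei j) *
            fderiv ℝ (fderiv ℝ v) x (ei i) (ei j)) + v x * fderiv ℝ v x (ei i) -
              fderiv ℝ v x (ei i)) * x i +
          (-(1 / 2) * (∑ j : Fin 3, (fderiv ℝ v x (ei j)) ^ 2) + 1 / 2 * v x ^ 2 - v x)) := by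
        intro i
        have hm : HasFDerivAt (fun x => fderiv ℝ v x x * fderiv ℝ v x (ei i) +
          (-(1 / 2) * (∑ j : Fin 3, (fderiv ℝ v x (ei j)) ^ 2) + 1 / 2 * v x ^ 2 - v x) * x i) _ x :=
          (hS.mul (h.hasdi hx i)).add
            ((((hN.const_mul (-(1 / 2))).add (((h.hasd x).pow 2).const_mul (1 / 2))).sub
              (h.hasd x)).mul (hX i))
        rw [hm.fderiv]
        simp [ContinuousLinearMap.apply_apply, ei]
        ring
      simp only [e1]
      have a1 := apply_self (fderiv ℝ v x) x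
      have a2 := fun i => apply_self (fderiv ℝ (fderiv ℝ v) x (ei i)) x
      have s01 := hsym (ei 0) (ei 1)
      have s02 := hsym (ei 0) (ei 2)
      have s12 := hsym (ei 1) (ei 2)
      have hl := h.lapeq hx
      rw [lap] at hl
      rw [norm_sq_form]
      simp only [← a1, ← a2, Fin.sum_univ_three] at hl ⊢
      rw [s01, s02, s12]
      have hl' : fderiv ℝ (fderiv ℝ v) x (ei 0) (ei 0) = 1 - v x -
        fderiv ℝ (fderiv ℝ v) x (ei 1) (ei 1) - fderiv ℝ (fderiv ℝ v) x (ei 2) (ei 2) := by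
        linarith
      rw [hl']
      ring)
  have h1 : ∫ x in D, (-(1 / 2) * ‖fderiv ℝ v x‖ ^ 2 + (3 / 2 * v x ^ 2 - 3 * v x)) =
      -(1 / 2) * (∫ x, ‖fderiv ℝ v x‖ ^ 2) + (3 / 2 * (∫ x, v x ^ 2) - 3 * ∫ x, v x) := by
    have i1 : IntegrableOn (fun x => ‖fderiv ℝ v x‖ ^ 2) D := h.intble (h.dcont.norm.pow 2)
    have i2 : IntegrableOn (fun x => v x) D := h.intble h.cont
    have i3 : IntegrableOn (fun x => v x ^ 2) D := h.intble (h.cont.pow 2)
    have j1 : IntegrableOn (fun x => -(1 / 2) * ‖fderiv ℝ v x‖ ^ 2) D := i1.const_mul _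
    have j2 : IntegrableOn (fun x => 3 * v x) D := i2.const_mul _
    have j3 : IntegrableOn (fun x => 3 / 2 * v x ^ 2) D := i3.const_mul _
    have j4 : IntegrableOn (fun x => 3 / 2 * v x ^ 2 - 3 * v x) D := j3.sub j2
    rw [integral_add j1 j4, integral_sub j3 j2, integral_const_mul, integral_const_mul,
      integral_const_mul, Sol.set_int h.zero,
      Sol.set_int (g := fun x => v x ^ 2) (fun x hx => by simp [h.zero x hx]),
      Sol.set_int (g := fun x => ‖fderiv ℝ v x‖ ^ 2) (fun x hx => by simp [h.gz x hx])]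
  rw [h1, energy h hχ] at hk
  linarith

end Pool.H56.PO
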