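import Pool.Agent.H56.PO.Lay
import Pool.Agent.H56.PO.Ext
import Pool.Agent.H56.PO.Poh
import Pool.Agent.H56.PO.Key
import Pool.Agent.H56.PO.Core
import Pool.Agent.H56.PO.EqB
import Pool.Agent.H56.PO.EqC
import Pool.Agent.H56.PO.Scale

/-!
# The assembly: the sharp volume bound for solutions of the Schiffer problem in three-space
-/

set_option autoImplicit false

namespace Pool.H56.PO

open MeasureTheory Filter Topology

theorem pos_of_int {v : E3 → ℝ} (hv : 0 < ∫ x, v x) (hs : HasCompactSupport v) :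
    0 < ds v 0 := by
  have hfin : volume {x : E3 | 0 < v x} ≠ ⊤ := by
    refine ne_top_of_le_ne_top hs.isCompact.measure_lt_top.ne (measure_mono fun x hx => ?_)
    exact subset_tsupport _ (Function.mem_support.2 (ne_of_gt hx))
  rcases (measureReal_nonneg (μ := (volume : Measure E3)) (s := {x : E3 | 0 < v x})).lt_or_eq
    with h | h
  · exact h
  · exfalso
    have h0 : volume {x : E3 | 0 < v x} = 0 := by
      have := h.symm
      rw [measureReal_def, ENNReal.toReal_eq_zero_iff] at this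
      exact this.resolve_right hfin
    have h1 : ∫ x, v x ≤ 0 := by
      refine integral_nonpos_of_ae ?_
      rw [Filter.EventuallyLE, ae_iff]
      simpa using h0
    linarith

theorem sq_rea {v : E3 → ℝ} (hc : Continuous v) (hs : HasCompactSupport v) :
    4 * Real.pi * ∫ r in (0 : ℝ)..rad (ds v 0), rea v r ^ 2 * r ^ 2 ≤ ∫ x, v x ^ 2 := by
  have h := rea_int hc hs le_rfl (F := fun y => y ^ 2) (by fun_prop)
  rw [← h]
  refine setIntegral_le_integral ?_ (Eventually.of_forall fun x => sq_nonneg _)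
  refine Continuous.integrable_of_hasCompactSupport (by fun_prop) ?_
  exact hs.comp_left (g := fun y : ℝ => y ^ 2) (by norm_num)

theorem main_one {D : Set E3} {v : E3 → ℝ} {τ : ℝ} (h : Sol D v) (hn : D.Nonempty)
    {χ : ℕ → E3 → ℝ} {C : ℝ} (hχ : Cut D χ C) (hτ : IsTau τ) :
    4 * Real.pi / 3 * τ ^ 3 ≤ volume.real D ∧
      (volume.real D = 4 * Real.pi / 3 * τ ^ 3 → Eq1 D v τ) := by
  have hpi := Real.pi_pos
  have hfin : volume D ≠ ⊤ := h.bd.measure_lt_top.ne
  have hD0 : 0 < volume.real D := by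
    rw [measureReal_def]
    exact ENNReal.toReal_pos (h.op.measure_pos volume hn).ne' hfin
  have hm := mass h hχ
  have hp := poh h hχ
  have hG : 0 < ds v 0 := pos_of_int (by rw [hm]; exact hD0) h.hcs
  have P := prof h hG
  have hsubset : {x : E3 | 0 < v x} ⊆ D := by
    intro x hx
    by_contra hxD
    exact absurd (h.zero x hxD) (ne_of_gt hx)
  have hsub : ds v 0 ≤ volume.real D := measureReal_mono hsubset hfin
  have hsq := sq_rea h.cont h.hcs
  have hrp := rad_pow hG.le
  set g := rad (ds v 0) with hg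
  have hτ0 : 0 < τ := hpi.trans hτ.1
  have key : g < τ → 4 * Real.pi / 3 * τ ^ 3 < volume.real D := by
    intro hlt
    have h1 := core_lt hτ P hlt
    have h2 : 4 * Real.pi * (5 / 6 * τ ^ 3) < 5 / 2 * volume.real D := by
      calc 4 * Real.pi * (5 / 6 * τ ^ 3)
          < 4 * Real.pi * ∫ r in (0 : ℝ)..g, rea v r ^ 2 * r ^ 2 :=
            mul_lt_mul_of_pos_left h1 (by positivity)
        _ ≤ ∫ x, v x ^ 2 := hsq
        _ = 5 / 2 * volume.real D := by rw [hp, hm]
    nlinarith [h2]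
  constructor
  · rcases lt_or_ge g τ with hlt | hge
    · exact (key hlt).le
    · have h3 : τ ^ 3 ≤ g ^ 3 := pow_le_pow_left₀ hτ0.le hge 3
      calc 4 * Real.pi / 3 * τ ^ 3 ≤ 4 * Real.pi / 3 * g ^ 3 :=
            mul_le_mul_of_nonneg_left h3 (by positivity)
        _ = ds v 0 := hrp
        _ ≤ volume.real D := hsub
  · intro heq
    have hge : τ ≤ g := by
      by_contra hlt
      exact absurd heq (key (not_le.1 hlt)).ne'
    have h3 : 4 * Real.pi / 3 * g ^ 3 ≤ 4 * Real.pi / 3 * τ ^ 3 := by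
      rw [hrp, ← heq]; exact hsub
    have h4 : g ^ 3 ≤ τ ^ 3 := le_of_mul_le_mul_left h3 (by positivity)
    have h5 : g ≤ τ := le_of_pow_le_pow_left₀ (by norm_num) hτ0.le h4
    have hgτ : g = τ := le_antisymm h5 hge
    have hvol : ds v 0 = 4 * Real.pi / 3 * τ ^ 3 := by rw [← hrp, hgτ]
    have hnn : ∀ x, 0 ≤ v x := by
      by_contra hcon
      push Not at hcon
      obtain ⟨x, hx⟩ := hcon
      have ho : IsOpen {x : E3 | v x < 0} := isOpen_lt h.cont continuous_const
      have hpos : 0 < volume {x : E3 | v x < 0} := ho.measure_pos volume ⟨x, hx⟩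
      have hsub2 : {x : E3 | v x < 0} ∪ {x : E3 | 0 < v x} ⊆ D := by
        rintro y (hy | hy)
        · by_contra hyD
          exact absurd (h.zero y hyD) (ne_of_lt hy)
        · exact hsubset hy
      have hdis : Disjoint {x : E3 | v x < 0} {x : E3 | 0 < v x} := by
        rw [Set.disjoint_left]
        intro y hy hy'
        exact lt_asymm (show v y < 0 from hy) (show 0 < v y from hy')
      have hle := measureReal_mono (μ := (volume : Measure E3)) hsub2 hfin
      have hfa : volume {x : E3 | v x < 0} ≠ ⊤ :=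
        ne_top_of_le_ne_top hfin (measure_mono (Set.subset_union_left.trans hsub2))
      have hfb : volume {x : E3 | 0 < v x} ≠ ⊤ :=
        ne_top_of_le_ne_top hfin (measure_mono hsubset)
      rw [measureReal_union hdis (isOpen_lt continuous_const h.cont).measurableSet hfa hfb] at hle
      have h7 : 0 < volume.real {x : E3 | v x < 0} := ENNReal.toReal_pos hpos.ne' hfa
      have h8 : volume.real {x : E3 | 0 < v x} = volume.real D := by
        rw [heq, ← hvol]; rfl
      linarith
    refine ⟨h, hτ, hnn, hvol, heq, ?_⟩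
    intro r hr
    rw [zc_eq τ hr.1.ne']
    rw [hgτ] at P hsq
    refine core_eq hτ P ?_ r hr
    have h9 : 4 * Real.pi * ∫ r in (0 : ℝ)..τ, rea v r ^ 2 * r ^ 2 ≤
        4 * Real.pi * (5 / 6 * τ ^ 3) := by
      refine hsq.trans (le_of_eq ?_)
      rw [hp, hm, heq]; ring
    exact le_of_mul_le_mul_left h9 (by positivity)

/-- **The sharp volume bound.** -/
theorem schiffer {τ : ℝ} (hτ : IsTau τ) {D : Set E3} {φ : E3 → ℝ}
    (hb : Bornology.IsBounded D) (hn : D.Nonempty) (hφ : ContDiff ℝ 1 φ)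
    (hD : D = {x | φ x < 0}) (hr : ∀ x, φ x = 0 → fderiv ℝ φ x ≠ 0)
    {k c : ℝ} {u : E3 → ℝ} (hk : 0 < k) (hc : c ≠ 0) (hu : ContDiffOn ℝ 2 u D)
    (he : ∀ x ∈ D, lap u x + k ^ 2 * u x = 0)
    (hf : ∀ x ∈ frontier D, Tendsto u (𝓝[D] x) (𝓝 c) ∧ Tendsto (fderiv ℝ u) (𝓝[D] x) (𝓝 0)) :
    4 * Real.pi / 3 * (τ / k) ^ 3 ≤ volume.real D ∧
      (volume.real D = 4 * Real.pi / 3 * (τ / k) ^ 3 → ∃ z : E3, D = Metric.ball z (τ / k)) := by
  obtain ⟨D', φ', u', hb', hn', hφ', hD', hr', hu', he', hf', hvol, hball, -, -⟩ :=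
    scale hb hn hφ hD hr hk hu he hf
  have hop : IsOpen D' := by
    rw [hD']; exact isOpen_lt hφ'.continuous continuous_const
  have hs := exists_sol hop hb' hc hu' he' hf'
  obtain ⟨χ, C, hχ⟩ := exists_cut hb' hφ' hD' hr'
  obtain ⟨h1, h2⟩ := main_one hs hn' hχ hτ
  rw [hvol] at h1 h2
  have hk3 : 0 < k ^ 3 := by positivity
  have e1 : 4 * Real.pi / 3 * (τ / k) ^ 3 = (4 * Real.pi / 3 * τ ^ 3) / k ^ 3 := by
    rw [div_pow]; ring
  constructor
  · rw [e1, div_le_iff₀ hk3]
    linarith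
  · intro heq
    have h3 : k ^ 3 * volume.real D = 4 * Real.pi / 3 * τ ^ 3 := by
      rw [heq, e1]; field_simp
    have h4 := h2 h3
    obtain ⟨z, hz⟩ := ball_eq h4 fun x r h0 h5 hx => grad_le h4 h0 h5 hx
    exact hball z τ hz

end Pool.H56.PO
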