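import Mathlib

/-!
# Definitions for the volume bound in the Schiffer / Pompeiu problem (MP_f4af34_an, helper56)

`lap`: the Laplacian. `Sol D v`: the normalised solution `v = 1 - u / c`, extended by zero:
`Δ v + v = 1` in `D`, `v` is `C¹` on the whole space and vanishes outside `D`.
`Cut D χ C`: cutoff functions `χ n` of `D` with bounded total variation.
`fl w r = ∫_0^r (w - 1) x² dx`: the flux (divided by `4 π`) of a radial profile `w`.
`Prof g w`: the properties of the radial rearrangement of `v` that are used.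
`rad s`: the radius of the ball of volume `s`; `ds v t = |{v > t}|`; `rea v`: the decreasing radial
rearrangement of the positive part of `v`.
-/

set_option autoImplicit false

namespace Pool.H56.PO

open MeasureTheory Filter Topology

/-- three-space -/
abbrev E3 := EuclideanSpace ℝ (Fin 3)

/-- the standard basis -/
noncomputable def ei (i : Fin 3) : E3 := EuclideanSpace.single i (1 : ℝ)

/-- the Laplacian -/
noncomputable def lap (v : E3 → ℝ) (x : E3) : ℝ :=
  ∑ i : Fin 3, fderiv ℝ (fderiv ℝ v) x (ei i) (ei i)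

/-- a normalised solution of the overdetermined problem -/
structure Sol (D : Set E3) (v : E3 → ℝ) : Prop where
  op : IsOpen D
  bd : Bornology.IsBounded D
  c1 : ContDiff ℝ 1 v
  zero : ∀ x, x ∉ D → v x = 0
  gz : ∀ x, x ∉ D → fderiv ℝ v x = 0
  c2 : ContDiffOn ℝ 2 v D
  eq : ∀ x ∈ D, lap v x + v x = 1

/-- cutoff functions of `D` with bounded total variation -/
structure Cut (D : Set E3) (χ : ℕ → E3 → ℝ) (C : ℝ) : Prop where
  c1 : ∀ n, ContDiff ℝ 1 (χ n)
  cs : ∀ n, HasCompactSupport (χ n)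
  sub : ∀ n, tsupport (χ n) ⊆ D
  mem : ∀ n x, 0 ≤ χ n x ∧ χ n x ≤ 1
  one : ∀ K : Set E3, IsCompact K → K ⊆ D →
    ∀ᶠ n in atTop, ∀ x ∈ K, χ n x = 1 ∧ fderiv ℝ (χ n) x = 0
  grad : ∀ n, ∫ x, ‖fderiv ℝ (χ n) x‖ ≤ C

/-- the norm of a linear form -/
theorem norm_sq_form (L : E3 →L[ℝ] ℝ) : ‖L‖ ^ 2 = ∑ i : Fin 3, (L (ei i)) ^ 2 := by
  obtain ⟨y, rfl⟩ := (InnerProductSpace.toDual ℝ E3).surjective L
  rw [LinearIsometryEquiv.norm_map, EuclideanSpace.norm_sq_eq]
  refine Finset.sum_congr rfl fun i _ => ?_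
  rw [InnerProductSpace.toDual_apply_apply, ei, EuclideanSpace.inner_single_right]
  simp

theorem Sol.hcs {D : Set E3} {v : E3 → ℝ} (h : Sol D v) : HasCompactSupport v := by
  refine HasCompactSupport.intro h.bd.isCompact_closure fun x hx => ?_
  exact h.zero x fun hd => hx (subset_closure hd)

theorem Sol.cont {D : Set E3} {v : E3 → ℝ} (h : Sol D v) : Continuous v := h.c1.continuous

/-- the flux of a radial profile, divided by `4 π` -/
noncomputable def fl (w : ℝ → ℝ) (r : ℝ) : ℝ := ∫ x in (0 : ℝ)..r, (w x - 1) * x ^ 2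

/-- the properties of the radial rearrangement that are used -/
structure Prof (g : ℝ) (w : ℝ → ℝ) : Prop where
  pos : 0 < g
  anti : AntitoneOn w (Set.Ioo 0 g)
  nonneg : ∀ r ∈ Set.Ioo 0 g, 0 ≤ w r
  bdd : ∃ B : ℝ, ∀ r ∈ Set.Ioo 0 g, w r ≤ B
  lim : Tendsto w (𝓝[<] g) (𝓝 0)
  key : ∀ r' r : ℝ, 0 < r' → r' ≤ r → r < g → w r' - w r ≤ ∫ x in r'..r, fl w x / x ^ 2

/-- the radius of the ball of volume `s` -/
noncomputable def rad (s : ℝ) : ℝ := (3 * s / (4 * Real.pi)) ^ (1 / 3 : ℝ)

/-- the distribution function -/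
noncomputable def ds (v : E3 → ℝ) (t : ℝ) : ℝ := volume.real {x : E3 | t < v x}

/-- the decreasing radial rearrangement of the positive part -/
noncomputable def rea (v : E3 → ℝ) (r : ℝ) : ℝ :=
  sSup {t : ℝ | 0 ≤ t ∧ 4 * Real.pi / 3 * r ^ 3 < ds v t}

/-- `τ = 4.4934…`, the first positive solution of `tan τ = τ` -/
def IsTau (τ : ℝ) : Prop :=
  Real.pi < τ ∧ τ < 3 * Real.pi / 2 ∧ Real.sin τ = τ * Real.cos τ

/-- the radial solution in the ball of radius `g` that vanishes on the sphere: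
`z r = 1 - g sin r / (r sin g)` -/
noncomputable def zz (g r : ℝ) : ℝ := 1 - g * Real.sin r / (Real.sin g * r)

end Pool.H56.PO
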