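import Pool.Agent.H56.PO.Defs

/-!
# Module Div (about 120 lines): the divergence theorem for fields that vanish on the boundary

PROOF. `χ n • F` is `C¹` on `E3` with compact support (it is `C¹` on `D` and zero outside the compact
subset `tsupport (χ n)` of `D`), so `∫ ∂_i (χ n F_i) = 0` for every `i`
(`integral_fderiv_eq_zero`-type lemma for compactly supported functions, or
`integral_mul_fderiv_eq_neg_fderiv_mul_of_integrable` with one factor constant near the support).
The product rule gives `∫_D χ n * div F = - ∫ ∑ i, fderiv (χ n) x (ei i) * F_i x`.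
Left side: converges to `∫_D div F` (dominated convergence: `χ n x → 1` for `x ∈ D` by `one` with
`K = {x}`, `|div F| ≤ B`, `D` bounded; measurability from continuity on the open set `D`).
Right side: tends to `0`: let `δ > 0`; the set `K = {x | δ ≤ ‖F x‖}` is a closed subset of `D` (`F = 0`
outside `D`) and bounded, so compact; for large `n` `fderiv (χ n) = 0` on `K`, and outside `K`
the integrand is at most `3 * δ * ‖fderiv (χ n) x‖` (`‖ei i‖ = 1`, `|F_i| ≤ ‖F‖`), so the integral is at
most `3 δ C`.
-/

set_option autoImplicit false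

namespace Pool.H56.PO

open MeasureTheory Filter Topology

private lemma div_ei_norm (i : Fin 3) : ‖ei i‖ = 1 := by simp [ei]

private lemma div_coord_le (v : E3) (i : Fin 3) : |v i| ≤ ‖v‖ := by
  have := PiLp.norm_apply_le v i
  simpa using this

private lemma div_coord {x : E3} {F : E3 → E3} (hF : DifferentiableAt ℝ F x) (i : Fin 3) :
    fderiv ℝ (fun y => F y i) x (ei i) = (fderiv ℝ F x (ei i)) i := by
  have h : HasFDerivAt (fun y => F y i)
      ((EuclideanSpace.proj i : E3 →L[ℝ] ℝ).comp (fderiv ℝ F x)) x :=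
    (EuclideanSpace.proj i : E3 →L[ℝ] ℝ).hasFDerivAt.comp x hF.hasFDerivAt
  rw [h.fderiv]
  rfl

private lemma div_coord_diff {x : E3} {F : E3 → E3} (hF : DifferentiableAt ℝ F x) (i : Fin 3) :
    DifferentiableAt ℝ (fun y => F y i) x :=
  ((EuclideanSpace.proj i : E3 →L[ℝ] ℝ).hasFDerivAt.comp x hF.hasFDerivAt).differentiableAt

private lemma div_cont_coord {F : E3 → E3} (hF : Continuous F) (i : Fin 3) :
    Continuous (fun x => F x i) :=
  (EuclideanSpace.proj i : E3 →L[ℝ] ℝ).continuous.comp hF

theorem integral_div {D : Set E3} {χ : ℕ → E3 → ℝ} {C : ℝ} (hχ : Cut D χ C) (hD : IsOpen D)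
    (hb : Bornology.IsBounded D) {F : E3 → E3} (hF : Continuous F) (h0 : ∀ x, x ∉ D → F x = 0)
    (h1 : ContDiffOn ℝ 1 F D)
    (hB : ∃ B : ℝ, ∀ x ∈ D, |∑ i : Fin 3, (fderiv ℝ F x (ei i)) i| ≤ B) :
    ∫ x in D, ∑ i : Fin 3, (fderiv ℝ F x (ei i)) i = 0 := by
  obtain ⟨B, hB⟩ := hB
  have hdiff : ∀ x ∈ D, DifferentiableAt ℝ F x := fun x hx =>
    (h1.differentiableOn (by norm_num)).differentiableAt (hD.mem_nhds hx)
  have hcf : ContinuousOn (fderiv ℝ F) D := h1.continuousOn_fderiv_of_isOpen hD le_rfl
  have hci : ∀ i : Fin 3, ContinuousOn (fun x => (fderiv ℝ F x (ei i)) i) D := fun i =>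
    (EuclideanSpace.proj i : E3 →L[ℝ] ℝ).continuous.comp_continuousOn
      (hcf.clm_apply continuousOn_const)
  have hcd : ContinuousOn (fun x => ∑ i : Fin 3, (fderiv ℝ F x (ei i)) i) D :=
    continuousOn_finset_sum _ fun i _ => hci i
  have hC : 0 ≤ C := (integral_nonneg fun x => norm_nonneg _).trans (hχ.grad 0)
  have hzero : ∀ n x, x ∉ D → χ n x = 0 := fun n x hx =>
    image_eq_zero_of_notMem_tsupport (fun h => hx (hχ.sub n h))
  -- integration by parts
  have hI2 : ∀ n (i : Fin 3), Integrable (fun x => fderiv ℝ (χ n) x (ei i) * F x i) := by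
    intro n i
    apply Continuous.integrable_of_hasCompactSupport
    · exact (((hχ.c1 n).continuous_fderiv (by norm_num)).clm_apply continuous_const).mul
        (div_cont_coord hF i)
    · apply HasCompactSupport.mul_right
      exact ((hχ.cs n).fderiv_apply (𝕜 := ℝ) (ei i))
  have hI1 : ∀ n (i : Fin 3),
      Integrable (fun x => χ n x * fderiv ℝ (fun y => F y i) x (ei i)) := by
    intro n i
    apply Continuous.integrable_of_hasCompactSupport
    · apply continuous_of_tsupport
      intro x hx
      have hx' : x ∈ D := hχ.sub n (tsupport_mul_subset_left hx)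
      have h2 : ContinuousAt (fun x => (fderiv ℝ F x (ei i)) i) x :=
        (hci i).continuousAt (hD.mem_nhds hx')
      have h3 : (fun x => fderiv ℝ (fun y => F y i) x (ei i)) =ᶠ[𝓝 x]
          fun x => (fderiv ℝ F x (ei i)) i := by
        filter_upwards [hD.mem_nhds hx'] with y hy using div_coord (hdiff y hy) i
      exact (hχ.c1 n).continuous.continuousAt.mul (h2.congr h3.symm)
    · exact (hχ.cs n).mul_right
  have hI3 : ∀ n (i : Fin 3), Integrable (fun x => χ n x * F x i) := by
    intro n i
    apply Continuous.integrable_of_hasCompactSupport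
    · exact (hχ.c1 n).continuous.mul (div_cont_coord hF i)
    · exact (hχ.cs n).mul_right
  have hpart : ∀ n, ∫ x in D, χ n x * ∑ i : Fin 3, (fderiv ℝ F x (ei i)) i =
      - ∫ x, ∑ i : Fin 3, fderiv ℝ (χ n) x (ei i) * F x i := by
    intro n
    have e1 : ∫ x in D, χ n x * ∑ i : Fin 3, (fderiv ℝ F x (ei i)) i =
        ∫ x in D, ∑ i : Fin 3, χ n x * fderiv ℝ (fun y => F y i) x (ei i) := by
      refine setIntegral_congr_fun hD.measurableSet fun x hx => ?_
      simp only [Finset.mul_sum]
      refine Finset.sum_congr rfl fun i _ => ?_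
      rw [div_coord (hdiff x hx) i]
    have e2 : ∫ x in D, ∑ i : Fin 3, χ n x * fderiv ℝ (fun y => F y i) x (ei i) =
        ∫ x, ∑ i : Fin 3, χ n x * fderiv ℝ (fun y => F y i) x (ei i) := by
      refine setIntegral_eq_integral_of_forall_compl_eq_zero fun x hx => ?_
      refine Finset.sum_eq_zero fun i _ => ?_
      rw [hzero n x hx, zero_mul]
    rw [e1, e2, integral_finset_sum _ fun i _ => hI1 n i, integral_finset_sum _ fun i _ => hI2 n i,
      ← Finset.sum_neg_distrib]
    refine Finset.sum_congr rfl fun i _ => ?_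
    refine integral_mul_fderiv_eq_neg_fderiv_mul_of_integrable (hI2 n i) (hI1 n i) (hI3 n i) ?_ ?_
    · intro x _
      exact (hχ.c1 n).differentiable (by norm_num) x
    · intro x hx
      exact div_coord_diff (hdiff x (hχ.sub n hx)) i
  -- left side
  have hfin : volume D < ⊤ := hb.measure_lt_top
  have hlim : Tendsto (fun n => ∫ x in D, χ n x * ∑ i : Fin 3, (fderiv ℝ F x (ei i)) i) atTop
      (𝓝 (∫ x in D, ∑ i : Fin 3, (fderiv ℝ F x (ei i)) i)) := by
    haveI : IsFiniteMeasure (volume.restrict D) := ⟨by simpa using hfin⟩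
    refine tendsto_integral_of_dominated_convergence (fun _ => B) ?_ (integrable_const _) ?_ ?_
    · intro n
      exact ((hχ.c1 n).continuous.continuousOn.mul hcd).aestronglyMeasurable hD.measurableSet
    · intro n
      filter_upwards [ae_restrict_mem hD.measurableSet] with x hx
      rw [Real.norm_eq_abs, abs_mul, abs_of_nonneg (hχ.mem n x).1]
      have h2 := hB x hx
      calc χ n x * |∑ i : Fin 3, (fderiv ℝ F x (ei i)) i|
          ≤ 1 * |∑ i : Fin 3, (fderiv ℝ F x (ei i)) i| :=
            mul_le_mul_of_nonneg_right (hχ.mem n x).2 (abs_nonneg _)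
        _ ≤ B := by rw [one_mul]; exact h2
    · filter_upwards [ae_restrict_mem hD.measurableSet] with x hx
      have h2 := hχ.one {x} isCompact_singleton (Set.singleton_subset_iff.2 hx)
      refine tendsto_const_nhds.congr' ?_
      filter_upwards [h2] with n hn
      rw [(hn x rfl).1, one_mul]
  -- right side
  have hsmall : ∀ δ : ℝ, 0 < δ → |∫ x in D, ∑ i : Fin 3, (fderiv ℝ F x (ei i)) i| ≤ 3 * δ * C := by
    intro δ hδ
    have hK : IsCompact {x | δ ≤ ‖F x‖} := by
      refine Metric.isCompact_of_isClosed_isBounded (isClosed_le continuous_const hF.norm) ?_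
      refine hb.subset fun x hx => ?_
      by_contra hxD
      have h3 : δ ≤ ‖F x‖ := hx
      rw [h0 x hxD, norm_zero] at h3
      linarith
    have hKD : {x | δ ≤ ‖F x‖} ⊆ D := by
      intro x hx
      by_contra hxD
      have h3 : δ ≤ ‖F x‖ := hx
      rw [h0 x hxD, norm_zero] at h3
      linarith
    have hev := hχ.one _ hK hKD
    refine le_of_tendsto hlim.abs ?_
    filter_upwards [hev] with n hn
    rw [hpart n, abs_neg]
    have hint : Integrable (fun x => 3 * δ * ‖fderiv ℝ (χ n) x‖) := by
      apply Integrable.const_mul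
      apply Continuous.integrable_of_hasCompactSupport
      · exact ((hχ.c1 n).continuous_fderiv (by norm_num)).norm
      · exact ((hχ.cs n).fderiv (𝕜 := ℝ)).norm
    have hle : ∀ x, ‖∑ i : Fin 3, fderiv ℝ (χ n) x (ei i) * F x i‖ ≤
        3 * δ * ‖fderiv ℝ (χ n) x‖ := by
      intro x
      by_cases hx : δ ≤ ‖F x‖
      · have h4 := (hn x hx).2
        simp [h4]
      · push_neg at hx
        calc ‖∑ i : Fin 3, fderiv ℝ (χ n) x (ei i) * F x i‖
            ≤ ∑ i : Fin 3, ‖fderiv ℝ (χ n) x (ei i) * F x i‖ := norm_sum_le _ _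
          _ ≤ ∑ _i : Fin 3, ‖fderiv ℝ (χ n) x‖ * δ := by
              refine Finset.sum_le_sum fun i _ => ?_
              rw [norm_mul]
              refine mul_le_mul ?_ ?_ (norm_nonneg _) (norm_nonneg _)
              · have := (fderiv ℝ (χ n) x).le_opNorm (ei i)
                rwa [div_ei_norm, mul_one] at this
              · exact (div_coord_le (F x) i).trans hx.le
          _ = 3 * δ * ‖fderiv ℝ (χ n) x‖ := by
              simp only [Finset.sum_const, Finset.card_univ, Fintype.card_fin, nsmul_eq_mul]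
              push_cast
              ring
    calc |∫ x, ∑ i : Fin 3, fderiv ℝ (χ n) x (ei i) * F x i|
        = ‖∫ x, ∑ i : Fin 3, fderiv ℝ (χ n) x (ei i) * F x i‖ := (Real.norm_eq_abs _).symm
      _ ≤ ∫ x, 3 * δ * ‖fderiv ℝ (χ n) x‖ :=
          norm_integral_le_of_norm_le hint (Eventually.of_forall hle)
      _ = 3 * δ * ∫ x, ‖fderiv ℝ (χ n) x‖ := integral_const_mul _ _
      _ ≤ 3 * δ * C := mul_le_mul_of_nonneg_left (hχ.grad n) (by positivity)
  have habs : |∫ x in D, ∑ i : Fin 3, (fderiv ℝ F x (ei i)) i| ≤ 0 := by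
    refine le_of_forall_pos_le_add fun ε hε => ?_
    rw [zero_add]
    have h5 := hsmall (ε / (3 * (C + 1))) (by positivity)
    refine h5.trans ?_
    have h6 : 3 * (ε / (3 * (C + 1))) * C = ε * (C / (C + 1)) := by
      field_simp
    rw [h6]
    have h7 : C / (C + 1) ≤ 1 := by
      rw [div_le_one (by linarith)]
      linarith
    calc ε * (C / (C + 1)) ≤ ε * 1 := mul_le_mul_of_nonneg_left h7 hε.le
      _ = ε := mul_one _
  exact abs_eq_zero.1 (le_antisymm habs (abs_nonneg _))

end Pool.H56.PO
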