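import Pool.Agent.H56.PO.Defs

/-!
# Module Flux (about 130 lines): the flux through the level sets

`W τ = ∫_{v > τ} (v - 1)`. PROOF. Let `b : ℝ → ℝ` be continuous, `0 ≤ b ≤ 1`, with compact support in
`(0, ∞)`, and `T s = ∫_0^s b`. `T` is `C¹`, `T' = b`, `T = 0` on `(-∞, δ]` for some `δ > 0`. The field
`T(v) ∇ v` is `C¹` with compact support in `D` (`{v ≥ δ}` is a compact subset of `D`), its divergence is
`b(v) ‖∇ v‖² + T(v) (1 - v)` in `D`, zero outside. So (integration by parts for compactly supported `C¹`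
functions, as in module Div) `∫ b(v) ‖∇ v‖² = ∫ T(v) (v - 1)`, and `T(v x) = ∫_0^∞ b(τ) 1_{τ < v x} dτ`, so by
Fubini `∫ b(v) ‖∇ v‖² = ∫_0^∞ b(τ) W τ dτ` (`flux_b`). Take `b = b_n` decreasing to the indicator of `[t, t']`
(piecewise linear, supported in `[t - 1/n, t' + 1/n]`): `∫_{t ≤ v ≤ t'} ‖∇ v‖² ≤ ∫ b_n(v) ‖∇ v‖² =
∫ b_n W → ∫_t^{t'} W` (`|W| ≤ ∫ |v| + |D|`, dominated convergence). `W` is measurable: difference of monotone
functions, or measurability of the integral with parameter.
-/

set_option autoImplicit false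

namespace Pool.H56.PO

open MeasureTheory Filter Topology

private theorem Flux_c1T {T b : ℝ → ℝ} (hT : ∀ s, HasDerivAt T (b s) s) (hb : Continuous b) :
    ContDiff ℝ 1 T := by
  rw [contDiff_one_iff_deriv]
  refine ⟨fun s => (hT s).differentiableAt, ?_⟩
  have : deriv T = b := funext fun s => (hT s).deriv
  rw [this]
  exact hb

private theorem Flux_ev {D : Set E3} {v : E3 → ℝ} (h : Sol D v) {T : ℝ → ℝ} {δ : ℝ} (hδ : 0 < δ)
    (h0 : ∀ s < δ, T s = 0) (i : Fin 3) {x : E3} (hx : x ∉ D) :
    (fun y => T (v y) * fderiv ℝ v y (ei i)) =ᶠ[𝓝 x] fun _ => (0 : ℝ) := by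
  have h1 : ∀ᶠ y in 𝓝 x, v y < δ := by
    apply h.cont.continuousAt.eventually_lt continuousAt_const
    rw [h.zero x hx]
    exact hδ
  filter_upwards [h1] with y hy
  rw [h0 _ hy, zero_mul]

private theorem Flux_cd {D : Set E3} {v : E3 → ℝ} (h : Sol D v) {T b : ℝ → ℝ} {δ : ℝ} (hδ : 0 < δ)
    (hT : ∀ s, HasDerivAt T (b s) s) (hb : Continuous b) (h0 : ∀ s < δ, T s = 0) (i : Fin 3) :
    ContDiff ℝ 1 (fun x => T (v x) * fderiv ℝ v x (ei i)) := by
  rw [contDiff_iff_contDiffAt]
  intro x
  by_cases hx : x ∈ D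
  · have h2 : ContDiffAt ℝ 2 v x := h.c2.contDiffAt (h.op.mem_nhds hx)
    have h3 : ContDiffAt ℝ 1 (fderiv ℝ v) x := h2.fderiv_right (by norm_num)
    have h4 : ContDiffAt ℝ 1 (fun y => fderiv ℝ v y (ei i)) x := h3.clm_apply contDiffAt_const
    have h5 : ContDiffAt ℝ 1 (fun y => T (v y)) x :=
      ((Flux_c1T hT hb).comp h.c1).contDiffAt
    exact h5.mul h4
  · exact (contDiffAt_const (c := (0 : ℝ))).congr_of_eventuallyEq (Flux_ev h hδ h0 i hx)

private theorem Flux_der {D : Set E3} {v : E3 → ℝ} (h : Sol D v) {T b : ℝ → ℝ} {δ : ℝ} (hδ : 0 < δ)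
    (hT : ∀ s, HasDerivAt T (b s) s) (h0 : ∀ s < δ, T s = 0) (hb0 : ∀ s < δ, b s = 0)
    (i : Fin 3) (x : E3) :
    fderiv ℝ (fun x => T (v x) * fderiv ℝ v x (ei i)) x (ei i) =
      b (v x) * (fderiv ℝ v x (ei i)) ^ 2 + T (v x) * fderiv ℝ (fderiv ℝ v) x (ei i) (ei i) := by
  by_cases hx : x ∈ D
  · have h2 : ContDiffAt ℝ 2 v x := h.c2.contDiffAt (h.op.mem_nhds hx)
    have h3 : ContDiffAt ℝ 1 (fderiv ℝ v) x := h2.fderiv_right (by norm_num)
    have h4 : HasFDerivAt (fderiv ℝ v) (fderiv ℝ (fderiv ℝ v) x) x :=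
      (h3.differentiableAt (by norm_num)).hasFDerivAt
    have h5 : HasFDerivAt v (fderiv ℝ v x) x := (h2.differentiableAt (by norm_num)).hasFDerivAt
    have h6 : HasFDerivAt (fun y => T (v y)) (b (v x) • fderiv ℝ v x) x :=
      (hT (v x)).comp_hasFDerivAt x h5
    have h7 : HasFDerivAt (fun y => fderiv ℝ v y (ei i))
        ((fderiv ℝ (fderiv ℝ v) x).flip (ei i)) x := by
      have := h4.clm_apply (hasFDerivAt_const (ei i) x)
      simpa using this
    have h8 := h6.mul h7
    have h9 : fderiv ℝ (fun x => T (v x) * fderiv ℝ v x (ei i)) x = _ := HasFDerivAt.fderiv h8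
    rw [h9]
    simp only [ContinuousLinearMap.add_apply, ContinuousLinearMap.smul_apply, smul_eq_mul,
      ContinuousLinearMap.flip_apply]
    ring
  · rw [(Flux_ev h hδ h0 i hx).fderiv_eq, h.zero x hx, h0 0 hδ, hb0 0 hδ]
    simp

private theorem Flux_b {D : Set E3} {v : E3 → ℝ} (h : Sol D v) {T b : ℝ → ℝ} {δ : ℝ} (hδ : 0 < δ)
    (hT : ∀ s, HasDerivAt T (b s) s) (hb : Continuous b) (h0 : ∀ s < δ, T s = 0)
    (hb0 : ∀ s < δ, b s = 0) :
    Integrable (fun x => b (v x) * ‖fderiv ℝ v x‖ ^ 2) ∧
      Integrable (fun x => T (v x) * (v x - 1)) ∧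
      ∫ x, b (v x) * ‖fderiv ℝ v x‖ ^ 2 = ∫ x, T (v x) * (v x - 1) := by
  have hTc : Continuous T := (Flux_c1T hT hb).continuous
  have hfc : Continuous (fderiv ℝ v) := h.c1.continuous_fderiv (by norm_num)
  have hcsT : HasCompactSupport (fun x => T (v x)) := h.hcs.comp_left (h0 0 hδ)
  have hcsb : HasCompactSupport (fun x => b (v x)) := h.hcs.comp_left (hb0 0 hδ)
  have i1 : Integrable (fun x => b (v x) * ‖fderiv ℝ v x‖ ^ 2) :=
    ((hb.comp h.cont).mul (hfc.norm.pow 2)).integrable_of_hasCompactSupport hcsb.mul_right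
  have i2 : Integrable (fun x => T (v x) * (v x - 1)) :=
    ((hTc.comp h.cont).mul (h.cont.sub continuous_const)).integrable_of_hasCompactSupport
      hcsT.mul_right
  refine ⟨i1, i2, ?_⟩
  have key : ∀ i : Fin 3, Integrable (fun x =>
      fderiv ℝ (fun x => T (v x) * fderiv ℝ v x (ei i)) x (ei i)) ∧
      ∫ x, fderiv ℝ (fun x => T (v x) * fderiv ℝ v x (ei i)) x (ei i) = 0 := by
    intro i
    have hcd := Flux_cd h hδ hT hb h0 i
    have hcs : HasCompactSupport (fun x => T (v x) * fderiv ℝ v x (ei i)) := hcsT.mul_right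
    have hi : Integrable (fun x => T (v x) * fderiv ℝ v x (ei i)) :=
      hcd.continuous.integrable_of_hasCompactSupport hcs
    have hc' : Continuous (fun x =>
        fderiv ℝ (fun x => T (v x) * fderiv ℝ v x (ei i)) x (ei i)) :=
      (hcd.continuous_fderiv (by norm_num)).clm_apply continuous_const
    have hi' : Integrable (fun x =>
        fderiv ℝ (fun x => T (v x) * fderiv ℝ v x (ei i)) x (ei i)) := by
      apply hc'.integrable_of_hasCompactSupport
      exact (hcs.fderiv ℝ).comp_left (g := fun L : E3 →L[ℝ] ℝ => L (ei i)) (by simp)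
    refine ⟨hi', ?_⟩
    have := integral_mul_fderiv_eq_neg_fderiv_mul_of_integrable (μ := (volume : Measure E3))
      (f := fun _ : E3 => (1 : ℝ)) (g := fun x => T (v x) * fderiv ℝ v x (ei i)) (v := ei i)
      (by simp) (by simpa using hi') (by simpa using hi)
      (fun x _ => differentiableAt_const _) (fun x _ => (hcd.differentiable (by norm_num)) x)
    simpa using this
  have hsum : ∫ x, ∑ i : Fin 3, fderiv ℝ (fun x => T (v x) * fderiv ℝ v x (ei i)) x (ei i) = 0 := by
    rw [integral_finsetSum _ fun i _ => (key i).1]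
    exact Finset.sum_eq_zero fun i _ => (key i).2
  have hpt : ∀ x, ∑ i : Fin 3, fderiv ℝ (fun x => T (v x) * fderiv ℝ v x (ei i)) x (ei i) =
      b (v x) * ‖fderiv ℝ v x‖ ^ 2 - T (v x) * (v x - 1) := by
    intro x
    have e1 : ∑ i : Fin 3, fderiv ℝ (fun x => T (v x) * fderiv ℝ v x (ei i)) x (ei i) =
        b (v x) * ‖fderiv ℝ v x‖ ^ 2 + T (v x) * lap v x := by
      rw [norm_sq_form, lap, Finset.mul_sum, Finset.mul_sum, ← Finset.sum_add_distrib]
      exact Finset.sum_congr rfl fun i _ => Flux_der h hδ hT h0 hb0 i x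
    rw [e1]
    by_cases hx : x ∈ D
    · have := h.eq x hx
      have e2 : lap v x = 1 - v x := by linarith
      rw [e2]
      ring
    · rw [h.zero x hx, h0 0 hδ]
      ring
  simp_rw [hpt] at hsum
  rw [integral_sub i1 i2] at hsum
  linarith

/-- the trapezoid -/
private noncomputable def Flux_tr (t t' ε u : ℝ) : ℝ := max 0 (1 - max 0 (max (t - u) (u - t')) / ε)

private theorem Flux_tr_cont (t t' ε : ℝ) : Continuous (Flux_tr t t' ε) := by
  unfold Flux_tr
  fun_prop

private theorem Flux_tr_mem {t t' ε : ℝ} (hε : 0 < ε) (u : ℝ) :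
    0 ≤ Flux_tr t t' ε u ∧ Flux_tr t t' ε u ≤ 1 := by
  unfold Flux_tr
  refine ⟨le_max_left _ _, max_le (by norm_num) ?_⟩
  have : 0 ≤ max 0 (max (t - u) (u - t')) / ε := div_nonneg (le_max_left _ _) hε.le
  linarith

private theorem Flux_tr_one {t t' ε : ℝ} {u : ℝ} (h1 : t ≤ u) (h2 : u ≤ t') :
    Flux_tr t t' ε u = 1 := by
  unfold Flux_tr
  have : max 0 (max (t - u) (u - t')) = 0 := by
    apply max_eq_left
    apply max_le <;> linarith
  rw [this]
  simp

private theorem Flux_tr_zero {t t' ε : ℝ} (hε : 0 < ε) {u : ℝ} (h : u ≤ t - ε ∨ t' + ε ≤ u) :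
    Flux_tr t t' ε u = 0 := by
  unfold Flux_tr
  apply max_eq_left
  have h1 : ε ≤ max 0 (max (t - u) (u - t')) := by
    apply le_max_of_le_right
    rcases h with h | h
    · exact le_max_of_le_left (by linarith)
    · exact le_max_of_le_right (by linarith)
  have : 1 ≤ max 0 (max (t - u) (u - t')) / ε := by
    rw [le_div_iff₀ hε]
    linarith
  linarith

private theorem Flux_tr_int {t t' ε : ℝ} (hε : 0 < ε) : Integrable (Flux_tr t t' ε) := by
  apply (Flux_tr_cont t t' ε).integrable_of_hasCompactSupport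
  refine HasCompactSupport.intro (isCompact_Icc (a := t - ε) (b := t' + ε)) fun u hu => ?_
  apply Flux_tr_zero hε
  by_contra hcon
  push Not at hcon
  exact hu ⟨hcon.1.le, hcon.2.le⟩

private theorem Flux_T_eq {t t' ε : ℝ} (hε : 0 < ε) (ht : ε < t) (s : ℝ) :
    ∫ u in (0 : ℝ)..s, Flux_tr t t' ε u = ∫ u in Set.Iio s, Flux_tr t t' ε u := by
  rw [← integral_Iic_eq_integral_Iio]
  rcases le_total 0 s with hs | hs
  · rw [intervalIntegral.integral_of_le hs]
    symm
    apply setIntegral_eq_of_subset_of_forall_sdiff_eq_zero measurableSet_Iic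
    · exact Set.Ioc_subset_Iic_self
    · intro u hu
      apply Flux_tr_zero hε
      left
      have : ¬ (0 < u) := fun hc => hu.2 ⟨hc, hu.1⟩
      linarith [not_lt.1 this]
  · rw [intervalIntegral.integral_of_ge hs]
    rw [setIntegral_eq_zero_of_forall_eq_zero, setIntegral_eq_zero_of_forall_eq_zero, neg_zero]
    · intro u hu
      apply Flux_tr_zero hε
      left
      have : u ≤ s := hu
      linarith
    · intro u hu
      apply Flux_tr_zero hε
      left
      have := hu.2
      linarith

private theorem Flux_T_near {t t' ε : ℝ} (htt : t ≤ t') (hε : 0 < ε) (ht : ε < t) (s : ℝ) :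
    |(∫ u in (0 : ℝ)..s, Flux_tr t t' ε u) - ∫ u in Set.Ioc t t', (Set.Iio s).indicator (fun _ => (1 : ℝ)) u|
      ≤ 2 * ε := by
  have hind : Integrable ((Set.Ioc t t').indicator fun _ => (1 : ℝ)) := by
    rw [integrable_indicator_iff measurableSet_Ioc]
    exact integrableOn_const (by simp) 
  have e1 : ∫ u in Set.Ioc t t', (Set.Iio s).indicator (fun _ => (1 : ℝ)) u =
      ∫ u in Set.Iio s, (Set.Ioc t t').indicator (fun _ => (1 : ℝ)) u := by
    rw [← integral_indicator measurableSet_Ioc, ← integral_indicator measurableSet_Iio]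
    congr 1
    funext u
    simp only [Set.indicator]
    split_ifs <;> rfl
  rw [e1, Flux_T_eq hε ht, ← integral_sub (Flux_tr_int hε).integrableOn hind.integrableOn]
  have hd : Integrable (fun u => Flux_tr t t' ε u - (Set.Ioc t t').indicator (fun _ => (1 : ℝ)) u) :=
    (Flux_tr_int hε).sub hind
  have hI : Integrable (fun u => (Set.Icc (t - ε) t).indicator (fun _ => (1 : ℝ)) u +
      (Set.Icc t' (t' + ε)).indicator (fun _ => (1 : ℝ)) u) := by
    apply Integrable.add
    · rw [integrable_indicator_iff measurableSet_Icc]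
      exact integrableOn_const (by simp)
    · rw [integrable_indicator_iff measurableSet_Icc]
      exact integrableOn_const (by simp)
  calc |∫ u in Set.Iio s, (Flux_tr t t' ε u - (Set.Ioc t t').indicator (fun _ => (1 : ℝ)) u)|
      ≤ ∫ u in Set.Iio s, |Flux_tr t t' ε u - (Set.Ioc t t').indicator (fun _ => (1 : ℝ)) u| :=
        abs_integral_le_integral_abs
    _ ≤ ∫ u, |Flux_tr t t' ε u - (Set.Ioc t t').indicator (fun _ => (1 : ℝ)) u| :=
        setIntegral_le_integral hd.abs (Eventually.of_forall fun _ => abs_nonneg _)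
    _ ≤ ∫ u, ((Set.Icc (t - ε) t).indicator (fun _ => (1 : ℝ)) u +
          (Set.Icc t' (t' + ε)).indicator (fun _ => (1 : ℝ)) u) := by
        apply integral_mono hd.abs hI
        intro u
        have h3 := Flux_tr_mem (t := t) (t' := t') hε u
        simp only [Set.indicator, Set.mem_Ioc, Set.mem_Icc]
        by_cases a1 : u < t - ε
        · rw [Flux_tr_zero hε (Or.inl a1.le)]
          rw [if_neg (by intro hc; linarith [hc.1])]
          rw [if_neg (by intro hc; linarith [hc.1]), if_neg (by intro hc; linarith [hc.1])]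
          simp
        · push Not at a1
          by_cases a2 : u ≤ t
          · rw [if_neg (by intro hc; linarith [hc.1]), if_pos ⟨a1, a2⟩, sub_zero, abs_of_nonneg h3.1]
            split_ifs <;> linarith
          · push Not at a2
            by_cases a3 : u ≤ t'
            · rw [if_pos ⟨a2, a3⟩, Flux_tr_one a2.le a3]
              split_ifs <;> norm_num
            · push Not at a3
              rw [if_neg (by intro hc; linarith [hc.2]), if_neg (by intro hc; linarith [hc.2]), sub_zero,
                abs_of_nonneg h3.1]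
              by_cases a4 : u ≤ t' + ε
              · rw [if_pos ⟨a3.le, a4⟩]
                linarith
              · rw [Flux_tr_zero hε (Or.inr (by linarith))]
                split_ifs <;> norm_num
    _ = 2 * ε := by
        rw [integral_add, integral_indicator measurableSet_Icc, integral_indicator measurableSet_Icc]
        · simp only [integral_const, smul_eq_mul, mul_one, measureReal_restrict_apply_univ,
            Real.volume_real_Icc]
          rw [max_eq_left (by linarith), max_eq_left (by linarith)]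
          ring
        · rw [integrable_indicator_iff measurableSet_Icc]
          exact integrableOn_const (by simp)
        · rw [integrable_indicator_iff measurableSet_Icc]
          exact integrableOn_const (by simp)

theorem flux_le {D : Set E3} {v : E3 → ℝ} (h : Sol D v) {t t' : ℝ} (ht : 0 < t) (htt : t ≤ t') :
    ∫ x in {x | t ≤ v x ∧ v x ≤ t'}, ‖fderiv ℝ v x‖ ^ 2 ≤
      ∫ τ in t..t', ∫ x in {x | τ < v x}, (v x - 1) := by
  set K := tsupport v with hK
  have hKm : MeasurableSet K := (isClosed_tsupport v).measurableSet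
  have hv0 : ∀ x, x ∉ K → v x = 0 := fun x hx => image_eq_zero_of_notMem_tsupport hx
  set g : E3 → ℝ := K.indicator fun x => v x - 1 with hg
  have hgi : Integrable g := by
    rw [hg, integrable_indicator_iff hKm]
    exact (h.cont.sub continuous_const).continuousOn.integrableOn_compact h.hcs
  set ν : Measure ℝ := volume.restrict (Set.Ioc t t') with hν
  have : IsFiniteMeasure ν := by
    rw [hν]
    exact ⟨by simp⟩
  set G : E3 × ℝ → ℝ := ({z : E3 × ℝ | z.2 < v z.1}).indicator (fun z => g z.1) with hG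
  have hset : MeasurableSet {z : E3 × ℝ | z.2 < v z.1} :=
    measurableSet_lt measurable_snd (h.cont.measurable.comp measurable_fst)
  have hGi : Integrable G ((volume : Measure E3).prod ν) := (hgi.comp_fst ν).indicator hset
  set m : ℝ → ℝ := fun s => ∫ u in Set.Ioc t t', (Set.Iio s).indicator (fun _ => (1 : ℝ)) u with hm
  have hGx : ∀ x, ∫ τ, G (x, τ) ∂ν = m (v x) * g x := by
    intro x
    rw [hm, ← integral_mul_const]
    apply integral_congr_ae
    filter_upwards with τ
    simp only [hG, Set.indicator, Set.mem_setOf_eq, Set.mem_Iio]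
    split_ifs <;> simp
  have hGt : ∀ τ ∈ Set.Ioc t t', ∫ x, G (x, τ) = ∫ x in {x | τ < v x}, (v x - 1) := by
    intro τ hτ
    have hms : MeasurableSet {x | τ < v x} := measurableSet_lt measurable_const h.cont.measurable
    rw [← integral_indicator hms]
    congr 1
    funext x
    simp only [hG, hg, Set.indicator, Set.mem_setOf_eq]
    by_cases hx : τ < v x
    · have hxK : x ∈ K := by
        by_contra hc
        rw [hv0 x hc] at hx
        linarith [hτ.1]
      rw [if_pos hx, if_pos hx, if_pos hxK]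
    · rw [if_neg hx, if_neg hx]
  have hR : ∫ τ in t..t', ∫ x in {x | τ < v x}, (v x - 1) = ∫ x, m (v x) * g x := by
    rw [intervalIntegral.integral_of_le htt]
    have e1 : ∫ τ in Set.Ioc t t', ∫ x in {x | τ < v x}, (v x - 1) = ∫ τ, (∫ x, G (x, τ)) ∂ν := by
      apply setIntegral_congr_fun measurableSet_Ioc
      intro τ hτ
      exact (hGt τ hτ).symm
    rw [e1, ← integral_integral_swap (f := fun x τ => G (x, τ)) hGi]
    exact integral_congr_ae (Eventually.of_forall fun x => hGx x)
  have hmi : Integrable (fun x => m (v x) * g x) := by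
    have := hGi.integral_prod_left
    refine this.congr (Eventually.of_forall fun x => hGx x)
  rw [hR]
  have hC : 0 ≤ ∫ x, |g x| := integral_nonneg fun _ => abs_nonneg _
  have main : ∀ ε : ℝ, 0 < ε → ε < t / 2 →
      ∫ x in {x | t ≤ v x ∧ v x ≤ t'}, ‖fderiv ℝ v x‖ ^ 2 ≤ (∫ x, m (v x) * g x) + 2 * ε * ∫ x, |g x| := by
    intro ε hε hεt
    have hT : ∀ s, HasDerivAt (fun s => ∫ u in (0 : ℝ)..s, Flux_tr t t' ε u) (Flux_tr t t' ε s) s := by
      intro s
      exact ((Flux_tr_cont t t' ε).integral_hasStrictDerivAt 0 s).hasDerivAt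
    have hb0 : ∀ s < t / 2, Flux_tr t t' ε s = 0 := fun s hs =>
      Flux_tr_zero hε (Or.inl (by linarith))
    have hT0 : ∀ s < t / 2, (fun s => ∫ u in (0 : ℝ)..s, Flux_tr t t' ε u) s = 0 := by
      intro s hs
      apply intervalIntegral.integral_zero_ae
      refine Eventually.of_forall fun u hu => hb0 u ?_
      rcases Set.mem_uIoc.1 hu with hu | hu
      · linarith [hu.2]
      · linarith [hu.2]
    obtain ⟨i1, i2, heq⟩ := Flux_b h (by linarith : (0 : ℝ) < t / 2) hT (Flux_tr_cont t t' ε) hT0 hb0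
    have hS : MeasurableSet {x | t ≤ v x ∧ v x ≤ t'} :=
      (measurableSet_le measurable_const h.cont.measurable).inter
        (measurableSet_le h.cont.measurable measurable_const)
    have s1 : ∫ x in {x | t ≤ v x ∧ v x ≤ t'}, ‖fderiv ℝ v x‖ ^ 2 ≤
        ∫ x, Flux_tr t t' ε (v x) * ‖fderiv ℝ v x‖ ^ 2 := by
      have e1 : ∫ x in {x | t ≤ v x ∧ v x ≤ t'}, ‖fderiv ℝ v x‖ ^ 2 =
          ∫ x in {x | t ≤ v x ∧ v x ≤ t'}, Flux_tr t t' ε (v x) * ‖fderiv ℝ v x‖ ^ 2 := by
        apply setIntegral_congr_fun hS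
        intro x hx
        simp only
        rw [Flux_tr_one hx.1 hx.2, one_mul]
      rw [e1]
      exact setIntegral_le_integral i1 (Eventually.of_forall fun x =>
        mul_nonneg (Flux_tr_mem hε _).1 (sq_nonneg _))
    have e2 : ∀ x, (∫ u in (0 : ℝ)..(v x), Flux_tr t t' ε u) * (v x - 1) =
        (∫ u in (0 : ℝ)..(v x), Flux_tr t t' ε u) * g x := by
      intro x
      by_cases hx : x ∈ K
      · rw [hg, Set.indicator_of_mem hx]
      · rw [hv0 x hx]
        simp
    simp only [e2] at i2 heq
    have s2 : (∫ x, (∫ u in (0 : ℝ)..(v x), Flux_tr t t' ε u) * g x) - ∫ x, m (v x) * g x ≤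
        2 * ε * ∫ x, |g x| := by
      rw [← integral_sub i2 hmi, ← integral_const_mul]
      apply integral_mono (i2.sub hmi) (hgi.abs.const_mul _)
      intro x
      simp only [Pi.sub_apply]
      rw [← sub_mul]
      refine (le_abs_self _).trans ?_
      rw [abs_mul]
      exact mul_le_mul_of_nonneg_right (Flux_T_near htt hε (by linarith) (v x)) (abs_nonneg _)
    linarith
  apply le_of_forall_pos_le_add
  intro η hη
  set C := ∫ x, |g x| with hCdef
  have hpos : 0 < min (t / 4) (η / (2 * (C + 1))) := lt_min (by linarith) (by positivity)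
  have := main (min (t / 4) (η / (2 * (C + 1)))) hpos
    (lt_of_le_of_lt (min_le_left _ _) (by linarith))
  refine this.trans ?_
  have h5 : 2 * min (t / 4) (η / (2 * (C + 1))) * C ≤ η := by
    have h6 : min (t / 4) (η / (2 * (C + 1))) ≤ η / (2 * (C + 1)) := min_le_right _ _
    have h7 : 2 * min (t / 4) (η / (2 * (C + 1))) * C ≤ 2 * (η / (2 * (C + 1))) * C := by
      gcongr
    have h8 : 2 * (η / (2 * (C + 1))) * C = η * (C / (C + 1)) := by
      field_simp
    have h9 : C / (C + 1) ≤ 1 := by
      rw [div_le_one (by linarith)]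
      linarith
    rw [h8] at h7
    nlinarith
  linarith

end Pool.H56.PO
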