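import Pool.Agent.H56.PO.Defs

/-!
# Module Lay (about 150 lines): cutoff functions of a regular domain

PROOF. (1) `H : ℝ → ℝ` smooth, `0 ≤ H ≤ 1`, monotone, `H = 0` on `(-∞, 1]`, `H = 1` on `[2, ∞)`
(`H s = Real.smoothTransition (s - 1)`). Put `χ n x = H (-(n + 1) φ x)`. It is `C¹`; `tsupport` is contained
in the closed bounded set `{φ ≤ -1/(n+1)} ⊆ D`. On a compact `K ⊆ D` we have `φ ≤ -δ < 0`, and `φ < -δ / 2`
on a neighbourhood, so for `(n + 1) δ / 2 ≥ 2` the function `χ n` is `1` near every point of `K`.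
(2) The bound. `Z = {φ = 0}` is contained in the closure of `D = {φ < 0}` (at a point of `Z` the derivative is
not zero, so `φ` takes negative values nearby), so `Z` is compact. For `p ∈ Z` choose a unit vector `e_p`
with `fderiv φ p e_p > 0`; by continuity there are a constant `c_p > 0` and a neighbourhood `U_p` of `p` with
`c_p ‖fderiv φ x‖ ≤ fderiv φ x e_p` for `x ∈ U_p`. Choose a smooth `ψ_p : E3 → [0, 1]` with compact support
in `U_p`, `ψ_p = 1` near `p` (`exists_contDiff_tsupport_subset` or `ContDiffBump`). Finitely many of the open sets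
`interior {ψ_p = 1}` cover `Z`; let `ψ_1, …, ψ_N` be the functions. Outside of the union of the sets
`interior {ψ_j = 1}` the function `φ` is at most `-ε₀ < 0` on `closure D` (compactness), so for
`2 / (n + 1) < ε₀` the derivative of `χ n` (which lives on `-2/(n+1) ≤ φ ≤ -1/(n+1)`) is supported where
`∑ ψ_j ≥ 1`. There `‖fderiv (χ n) x‖ = (n+1) H'(-(n+1) φ) ‖fderiv φ x‖ ≤ ∑_j ψ_j (-(fderiv (χ n) x e_j)) / c_j`,
and `∫ ψ_j (-(fderiv (χ n) x e_j)) = ∫ χ n * fderiv ψ_j x e_j ≤ ∫ ‖fderiv ψ_j‖` (integration by parts for functions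
with compact support, `integral_mul_fderiv_eq_neg_fderiv_mul_of_integrable`). The finitely many remaining
`n` have finite integrals (continuous with compact support).
-/

set_option autoImplicit false

namespace Pool.H56.PO

open MeasureTheory Filter Topology

/-- the cutoff profile -/
private noncomputable def LayH (s : ℝ) : ℝ := Real.smoothTransition (s - 1)

private theorem Lay_H_contDiff : ContDiff ℝ 1 LayH := by
  unfold LayH
  exact Real.smoothTransition.contDiff.comp (contDiff_id.sub contDiff_const)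

private theorem Lay_H_zero {s : ℝ} (hs : s ≤ 1) : LayH s = 0 :=
  Real.smoothTransition.zero_of_nonpos (by linarith)

private theorem Lay_H_one {s : ℝ} (hs : 2 ≤ s) : LayH s = 1 :=
  Real.smoothTransition.one_of_one_le (by linarith)

private theorem Lay_H_mem (s : ℝ) : 0 ≤ LayH s ∧ LayH s ≤ 1 :=
  ⟨Real.smoothTransition.nonneg _, Real.smoothTransition.le_one _⟩

private theorem Lay_H_mono : Monotone LayH := fun a b hab =>
  Real.smoothTransition.monotone (by linarith)

/-- the cutoff functions -/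
private noncomputable def LayX (φ : E3 → ℝ) (n : ℕ) (x : E3) : ℝ := LayH (-((n : ℝ) + 1) * φ x)

private theorem Lay_X_contDiff {φ : E3 → ℝ} (hφ : ContDiff ℝ 1 φ) (n : ℕ) :
    ContDiff ℝ 1 (LayX φ n) := by
  unfold LayX
  exact Lay_H_contDiff.comp (contDiff_const.mul hφ)

private theorem Lay_X_tsupport {D : Set E3} {φ : E3 → ℝ} (hφ : ContDiff ℝ 1 φ)
    (hD : D = {x | φ x < 0}) (n : ℕ) : tsupport (LayX φ n) ⊆ D := by
  have hn : (0 : ℝ) < (n : ℝ) + 1 := by positivity
  have hF : IsClosed {x : E3 | 1 ≤ -((n : ℝ) + 1) * φ x} :=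
    isClosed_le continuous_const (continuous_const.mul hφ.continuous)
  have h1 : tsupport (LayX φ n) ⊆ {x : E3 | 1 ≤ -((n : ℝ) + 1) * φ x} := by
    refine closure_minimal ?_ hF
    intro x hx
    by_contra hc
    simp only [Set.mem_ofPred_eq, not_le] at hc
    exact hx (Lay_H_zero hc.le)
  refine h1.trans ?_
  intro x hx
  rw [hD]
  simp only [Set.mem_ofPred_eq] at hx ⊢
  by_contra hc
  push Not at hc
  nlinarith [mul_nonneg hn.le hc]

/-- near a point where `(n + 1) φ < -2` the cutoff function is one -/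
private theorem Lay_X_one {φ : E3 → ℝ} (hφ : ContDiff ℝ 1 φ) (n : ℕ) {x : E3}
    (hx : 2 < -((n : ℝ) + 1) * φ x) : LayX φ n x = 1 ∧ fderiv ℝ (LayX φ n) x = 0 := by
  have hev : ∀ᶠ y in 𝓝 x, 2 < -((n : ℝ) + 1) * φ y := by
    have hc : Continuous fun y : E3 => -((n : ℝ) + 1) * φ y := continuous_const.mul hφ.continuous
    exact hc.continuousAt.eventually (lt_mem_nhds hx)
  have he : LayX φ n =ᶠ[𝓝 x] fun _ => (1 : ℝ) := hev.mono fun y hy => Lay_H_one hy.le
  refine ⟨he.self_of_nhds, ?_⟩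
  rw [he.fderiv_eq]
  simp

/-- the derivative of the cutoff function -/
private theorem Lay_X_fderiv {φ : E3 → ℝ} (hφ : ContDiff ℝ 1 φ) (n : ℕ) (x : E3) :
    ∃ k : ℝ, 0 ≤ k ∧ fderiv ℝ (LayX φ n) x = -k • fderiv ℝ φ x := by
  have hn : (0 : ℝ) < (n : ℝ) + 1 := by positivity
  have hH : HasDerivAt LayH (deriv LayH (-((n : ℝ) + 1) * φ x)) (-((n : ℝ) + 1) * φ x) :=
    (Lay_H_contDiff.differentiable (by norm_num) _).hasDerivAt
  have hφx : HasFDerivAt φ (fderiv ℝ φ x) x := (hφ.differentiable (by norm_num) x).hasFDerivAt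
  have hin : HasFDerivAt (fun y : E3 => -((n : ℝ) + 1) * φ y) ((-((n : ℝ) + 1)) • fderiv ℝ φ x) x :=
    hφx.const_mul _
  have hcomp := hH.comp_hasFDerivAt x hin
  refine ⟨deriv LayH (-((n : ℝ) + 1) * φ x) * ((n : ℝ) + 1), ?_, ?_⟩
  · exact mul_nonneg Lay_H_mono.deriv_nonneg hn.le
  · have h2 : fderiv ℝ (LayX φ n) x
        = deriv LayH (-((n : ℝ) + 1) * φ x) • (-((n : ℝ) + 1)) • fderiv ℝ φ x := hcomp.fderiv
    rw [h2, smul_smul]
    congr 1
    ring

/-- the local data near a point of the zero set -/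
private theorem Lay_local {φ : E3 → ℝ} (hφ : ContDiff ℝ 1 φ) {p : E3} (hp : fderiv ℝ φ p ≠ 0) :
    ∃ (e : E3) (c : ℝ) (ψ : ContDiffBump p), 0 < c ∧
      ∀ x, ψ x ≠ 0 → c * ‖fderiv ℝ φ x‖ ≤ fderiv ℝ φ x e := by
  obtain ⟨e, he⟩ : ∃ e, 0 < fderiv ℝ φ p e := by
    by_contra hc
    push Not at hc
    apply hp
    ext y
    have h1 := hc y
    have h2 := hc (-y)
    rw [map_neg] at h2
    simp only [_root_.zero_apply]
    linarith
  have hcf : Continuous (fderiv ℝ φ) := hφ.continuous_fderiv (by norm_num)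
  have hc1 : Continuous fun x => fderiv ℝ φ x e := hcf.clm_apply continuous_const
  have hc2 : Continuous fun x => ‖fderiv ℝ φ x‖ := hcf.norm
  have h1 : ∀ᶠ x in 𝓝 p, fderiv ℝ φ p e / 2 < fderiv ℝ φ x e :=
    hc1.continuousAt.eventually (lt_mem_nhds (by linarith))
  have h2 : ∀ᶠ x in 𝓝 p, ‖fderiv ℝ φ x‖ < ‖fderiv ℝ φ p‖ + 1 :=
    hc2.continuousAt.eventually (gt_mem_nhds (by linarith))
  obtain ⟨r, hr, hball⟩ := Metric.eventually_nhds_iff_ball.1 (h1.and h2)
  have hM : 0 < ‖fderiv ℝ φ p‖ + 1 := by positivity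
  refine ⟨e, fderiv ℝ φ p e / (2 * (‖fderiv ℝ φ p‖ + 1)), ⟨r / 2, r, by positivity, by linarith⟩,
    by positivity, ?_⟩
  intro x hx
  have hx' : x ∈ Metric.ball p r := by
    have : x ∈ Function.support (⟨r / 2, r, by positivity, by linarith⟩ : ContDiffBump p) := hx
    rw [ContDiffBump.support_eq] at this
    exact this
  obtain ⟨ha, hb⟩ := hball x hx'
  calc fderiv ℝ φ p e / (2 * (‖fderiv ℝ φ p‖ + 1)) * ‖fderiv ℝ φ x‖
      ≤ fderiv ℝ φ p e / (2 * (‖fderiv ℝ φ p‖ + 1)) * (‖fderiv ℝ φ p‖ + 1) := by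
        gcongr
    _ = fderiv ℝ φ p e / 2 := by field_simp
    _ ≤ fderiv ℝ φ x e := ha.le

/-- integration by parts against a cutoff function -/
private theorem Lay_parts {φ : E3 → ℝ} (hφ : ContDiff ℝ 1 φ) (n : ℕ)
    (hcs : HasCompactSupport (LayX φ n)) {p : E3} (ψ : ContDiffBump p) (e : E3) :
    ∫ x, ψ x * (-(fderiv ℝ (LayX φ n) x e)) ≤ ∫ x, |fderiv ℝ ψ x e| := by
  have hX := Lay_X_contDiff hφ n
  have hψ : ContDiff ℝ 1 ψ := ψ.contDiff
  have hψcs : HasCompactSupport ψ := ψ.hasCompactSupport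
  have hdX : Continuous fun x => fderiv ℝ (LayX φ n) x e :=
    (hX.continuous_fderiv (by norm_num)).clm_apply continuous_const
  have hdψ : Continuous fun x => fderiv ℝ ψ x e :=
    (hψ.continuous_fderiv (by norm_num)).clm_apply continuous_const
  have hdψcs : HasCompactSupport fun x => fderiv ℝ ψ x e := hψcs.fderiv_apply ℝ e
  have i1 : Integrable (fun x => fderiv ℝ ψ x e * LayX φ n x) :=
    (hdψ.mul hX.continuous).integrable_of_hasCompactSupport (hcs.mul_left)
  have i2 : Integrable (fun x => ψ x * fderiv ℝ (LayX φ n) x e) :=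
    (hψ.continuous.mul hdX).integrable_of_hasCompactSupport (hψcs.mul_right)
  have i3 : Integrable (fun x => ψ x * LayX φ n x) :=
    (hψ.continuous.mul hX.continuous).integrable_of_hasCompactSupport (hψcs.mul_right)
  have hpar := integral_mul_fderiv_eq_neg_fderiv_mul_of_integrable (μ := volume) i1 i2 i3
    (fun x _ => hψ.differentiable (by norm_num) x) (fun x _ => hX.differentiable (by norm_num) x)
  have h1 : ∫ x, ψ x * (-(fderiv ℝ (LayX φ n) x e)) = ∫ x, fderiv ℝ ψ x e * LayX φ n x := by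
    have : ∀ x, ψ x * (-(fderiv ℝ (LayX φ n) x e)) = -(ψ x * fderiv ℝ (LayX φ n) x e) :=
      fun x => by ring
    simp_rw [this]
    rw [integral_neg, hpar, neg_neg]
  rw [h1]
  refine integral_mono i1 (hdψ.abs.integrable_of_hasCompactSupport ?_) ?_
  · exact hdψcs.comp_left (g := fun t : ℝ => |t|) abs_zero
  · intro x
    have hm := Lay_H_mem (-((n : ℝ) + 1) * φ x)
    have hm0 : 0 ≤ LayX φ n x := hm.1
    have hm1 : LayX φ n x ≤ 1 := hm.2
    calc fderiv ℝ ψ x e * LayX φ n x ≤ |fderiv ℝ ψ x e| * LayX φ n x :=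
          mul_le_mul_of_nonneg_right (le_abs_self _) hm0
      _ ≤ |fderiv ℝ ψ x e| * 1 := mul_le_mul_of_nonneg_left hm1 (abs_nonneg _)
      _ = |fderiv ℝ ψ x e| := mul_one _

theorem exists_cut {D : Set E3} {φ : E3 → ℝ} (hb : Bornology.IsBounded D) (hφ : ContDiff ℝ 1 φ)
    (hD : D = {x | φ x < 0}) (hr : ∀ x, φ x = 0 → fderiv ℝ φ x ≠ 0) :
    ∃ (χ : ℕ → E3 → ℝ) (C : ℝ), Cut D χ C := by
  have hsub : ∀ n, tsupport (LayX φ n) ⊆ D := Lay_X_tsupport hφ hD
  have hcs : ∀ n, HasCompactSupport (LayX φ n) := fun n =>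
    Metric.isCompact_of_isClosed_isBounded (isClosed_tsupport _) (hb.subset (hsub n))
  -- the zero set is compact
  have hZD : {x | φ x = 0} ⊆ closure D := by
    intro p hp
    by_contra hc
    have hev : ∀ᶠ x in 𝓝 p, x ∉ D := by
      have : (closure D)ᶜ ∈ 𝓝 p := isClosed_closure.isOpen_compl.mem_nhds hc
      exact Filter.mem_of_superset this fun x hx hd => hx (subset_closure hd)
    have hmin : IsLocalMin φ p := by
      filter_upwards [hev] with x hx
      rw [hD] at hx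
      simp only [Set.mem_ofPred_eq, not_lt] at hx
      have hp0 : φ p = 0 := hp
      rw [hp0]
      exact hx
    exact hr p hp hmin.fderiv_eq_zero
  have hZc : IsCompact {x | φ x = 0} :=
    hb.isCompact_closure.of_isClosed_subset (isClosed_eq hφ.continuous continuous_const) hZD
  -- local data
  have hloc : ∀ p : E3, ∃ (e : E3) (c : ℝ) (ψ : ContDiffBump p), φ p = 0 → (0 < c ∧
      ∀ x, ψ x ≠ 0 → c * ‖fderiv ℝ φ x‖ ≤ fderiv ℝ φ x e) := by
    intro p
    by_cases hp : φ p = 0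
    · obtain ⟨e, c, ψ, h⟩ := Lay_local hφ (hr p hp)
      exact ⟨e, c, ψ, fun _ => h⟩
    · exact ⟨0, 0, ⟨1, 2, by norm_num, by norm_num⟩, fun h => absurd h hp⟩
  choose e c ψ hloc using hloc
  obtain ⟨t, htZ, hcov⟩ := hZc.elim_nhds_subcover (fun p => Metric.ball p (ψ p).rIn)
    (fun p _ => Metric.ball_mem_nhds p (ψ p).rIn_pos)
  -- away from the cover the function is negative
  have hWo : IsOpen (⋃ p ∈ t, Metric.ball p (ψ p).rIn) :=
    isOpen_biUnion fun p _ => Metric.isOpen_ball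
  have hle : ∀ x ∈ closure D, φ x ≤ 0 := by
    intro x hx
    have : closure D ⊆ {x | φ x ≤ 0} := by
      refine closure_minimal ?_ (isClosed_le hφ.continuous continuous_const)
      intro y hy
      rw [hD] at hy
      exact le_of_lt (show φ y < 0 from hy)
    exact this hx
  obtain ⟨ε, hε, hεW⟩ : ∃ ε : ℝ, 0 < ε ∧
      ∀ x ∈ closure D, x ∉ (⋃ p ∈ t, Metric.ball p (ψ p).rIn) → φ x ≤ -ε := by
    have hKc : IsCompact (closure D \ ⋃ p ∈ t, Metric.ball p (ψ p).rIn) :=
      hb.isCompact_closure.diff hWo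
    rcases (closure D \ ⋃ p ∈ t, Metric.ball p (ψ p).rIn).eq_empty_or_nonempty with he | hne
    · refine ⟨1, one_pos, fun x hx hxW => ?_⟩
      exact absurd (show x ∈ closure D \ ⋃ p ∈ t, Metric.ball p (ψ p).rIn from ⟨hx, hxW⟩)
        (by rw [he]; exact Set.notMem_empty x)
    · obtain ⟨y, hy, hmax⟩ := hKc.exists_isMaxOn hne hφ.continuous.continuousOn
      have hy0 : φ y < 0 := by
        rcases (hle y hy.1).lt_or_eq with h | h
        · exact h
        · exact absurd (hcov h) hy.2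
      refine ⟨-φ y, by linarith, fun x hx hxW => ?_⟩
      have := hmax (show x ∈ closure D \ ⋃ p ∈ t, Metric.ball p (ψ p).rIn from ⟨hx, hxW⟩)
      simp only [Set.mem_ofPred_eq] at this
      linarith
  -- the bound for large indices
  have hlarge : ∀ n : ℕ, 2 < ((n : ℝ) + 1) * ε →
      ∫ x, ‖fderiv ℝ (LayX φ n) x‖ ≤ ∑ p ∈ t, (c p)⁻¹ * ∫ x, |fderiv ℝ (ψ p) x (e p)| := by
    intro n hn
    have hX := Lay_X_contDiff hφ n
    have hdX : Continuous (fderiv ℝ (LayX φ n)) := hX.continuous_fderiv (by norm_num)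
    have hterm : ∀ p ∈ t, ∀ x, ψ p x * ‖fderiv ℝ (LayX φ n) x‖
        ≤ (c p)⁻¹ * (ψ p x * (-(fderiv ℝ (LayX φ n) x (e p)))) := by
      intro p hp x
      obtain ⟨hc, hloc'⟩ := hloc p (htZ p hp)
      by_cases h0 : ψ p x = 0
      · rw [h0]; simp
      obtain ⟨k, hk, hfd⟩ := Lay_X_fderiv hφ n x
      have h1 := hloc' x h0
      have h2 : c p * ‖fderiv ℝ (LayX φ n) x‖ ≤ -(fderiv ℝ (LayX φ n) x (e p)) := by
        rw [hfd, norm_smul, norm_neg, Real.norm_of_nonneg hk]
        simp only [neg_smul, _root_.neg_apply, _root_.smul_apply,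
          smul_eq_mul, neg_neg]
        nlinarith [mul_le_mul_of_nonneg_left h1 hk]
      have h3 : ‖fderiv ℝ (LayX φ n) x‖ ≤ (c p)⁻¹ * (-(fderiv ℝ (LayX φ n) x (e p))) := by
        rw [← div_eq_inv_mul, le_div_iff₀ hc]
        linarith
      have h4 := mul_le_mul_of_nonneg_left h3 ((ψ p).nonneg' x)
      calc ψ p x * ‖fderiv ℝ (LayX φ n) x‖
          ≤ ψ p x * ((c p)⁻¹ * (-(fderiv ℝ (LayX φ n) x (e p)))) := h4
        _ = (c p)⁻¹ * (ψ p x * (-(fderiv ℝ (LayX φ n) x (e p)))) := by ring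
    have hpt : ∀ x, ‖fderiv ℝ (LayX φ n) x‖
        ≤ ∑ p ∈ t, (c p)⁻¹ * (ψ p x * (-(fderiv ℝ (LayX φ n) x (e p)))) := by
      intro x
      by_cases hxW : x ∈ ⋃ p ∈ t, Metric.ball p (ψ p).rIn
      · simp only [Set.mem_iUnion, exists_prop] at hxW
        obtain ⟨p, hp, hxp⟩ := hxW
        have h1 : ψ p x = 1 := (ψ p).one_of_mem_closedBall (Metric.ball_subset_closedBall hxp)
        calc ‖fderiv ℝ (LayX φ n) x‖ = ψ p x * ‖fderiv ℝ (LayX φ n) x‖ := by rw [h1, one_mul]
          _ ≤ ∑ q ∈ t, ψ q x * ‖fderiv ℝ (LayX φ n) x‖ :=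
              Finset.single_le_sum (f := fun q => ψ q x * ‖fderiv ℝ (LayX φ n) x‖)
                (fun q _ => mul_nonneg ((ψ q).nonneg' x) (norm_nonneg _)) hp
          _ ≤ ∑ q ∈ t, (c q)⁻¹ * (ψ q x * (-(fderiv ℝ (LayX φ n) x (e q)))) :=
              Finset.sum_le_sum fun q hq => hterm q hq x
      · have h0 : fderiv ℝ (LayX φ n) x = 0 := by
          by_cases hxD : x ∈ closure D
          · have h1 := hεW x hxD hxW
            refine (Lay_X_one hφ n ?_).2
            have hn0 : (0 : ℝ) < (n : ℝ) + 1 := by positivity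
            nlinarith [mul_le_mul_of_nonneg_left h1 hn0.le]
          · have h1 : x ∉ tsupport (LayX φ n) := fun h => hxD (subset_closure (hsub n h))
            have h2 : LayX φ n =ᶠ[𝓝 x] 0 := notMem_tsupport_iff_eventuallyEq.1 h1
            rw [h2.fderiv_eq]
            simp
        rw [h0]
        simp
    have hI : ∀ p ∈ t, Integrable
        (fun x => (c p)⁻¹ * (ψ p x * (-(fderiv ℝ (LayX φ n) x (e p))))) := by
      intro p _
      refine Integrable.const_mul ?_ _
      refine Continuous.integrable_of_hasCompactSupport ?_ ?_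
      · exact (ψ p).continuous.mul (hdX.clm_apply continuous_const).neg
      · exact (ψ p).hasCompactSupport.mul_right
    have hJ : Integrable (fun x => ‖fderiv ℝ (LayX φ n) x‖) := by
      refine hdX.norm.integrable_of_hasCompactSupport ?_
      exact ((hcs n).fderiv ℝ).norm
    calc ∫ x, ‖fderiv ℝ (LayX φ n) x‖
        ≤ ∫ x, ∑ p ∈ t, (c p)⁻¹ * (ψ p x * (-(fderiv ℝ (LayX φ n) x (e p)))) :=
          integral_mono hJ (integrable_finsetSum t hI) hpt
      _ = ∑ p ∈ t, ∫ x, (c p)⁻¹ * (ψ p x * (-(fderiv ℝ (LayX φ n) x (e p)))) :=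
          integral_finsetSum t hI
      _ ≤ ∑ p ∈ t, (c p)⁻¹ * ∫ x, |fderiv ℝ (ψ p) x (e p)| := by
          refine Finset.sum_le_sum fun p hp => ?_
          rw [integral_const_mul]
          have hc : 0 < c p := (hloc p (htZ p hp)).1
          exact mul_le_mul_of_nonneg_left (Lay_parts hφ n (hcs n) (ψ p) (e p))
            (inv_nonneg.2 hc.le)
  obtain ⟨N, hN⟩ := exists_nat_gt (2 / ε)
  obtain ⟨S, hS⟩ : ∃ S : ℝ, S = ∑ p ∈ t, (c p)⁻¹ * ∫ x, |fderiv ℝ (ψ p) x (e p)| := ⟨_, rfl⟩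
  refine ⟨LayX φ, |S| + ∑ k ∈ Finset.range N, ∫ x, ‖fderiv ℝ (LayX φ k) x‖, ?_⟩
  refine ⟨Lay_X_contDiff hφ, hcs, hsub, fun n x => Lay_H_mem _, ?_, ?_⟩
  · intro K hK hKD
    rcases K.eq_empty_or_nonempty with he | hne
    · refine Eventually.of_forall fun n x hx => ?_
      rw [he] at hx
      exact absurd hx (Set.notMem_empty x)
    · obtain ⟨y, hy, hmax⟩ := hK.exists_isMaxOn hne hφ.continuous.continuousOn
      have hy0 : φ y < 0 := by
        have := hKD hy
        rw [hD] at this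
        exact this
      obtain ⟨M, hM⟩ := exists_nat_gt (2 / (-φ y))
      filter_upwards [eventually_ge_atTop M] with n hn x hx
      refine Lay_X_one hφ n ?_
      have h1 : φ x ≤ φ y := hmax hx
      have h2 : (M : ℝ) ≤ n := by exact_mod_cast hn
      have h3 : 2 < (M : ℝ) * (-φ y) := by
        rwa [div_lt_iff₀ (by linarith)] at hM
      have h4 : (M : ℝ) * (-φ y) ≤ ((n : ℝ) + 1) * (-φ x) := by
        apply mul_le_mul <;> linarith
      linarith
  · intro n
    have hsumnn : 0 ≤ ∑ k ∈ Finset.range N, ∫ x, ‖fderiv ℝ (LayX φ k) x‖ :=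
      Finset.sum_nonneg fun k _ => integral_nonneg fun x => norm_nonneg _
    rcases lt_or_ge n N with hnN | hnN
    · have h1 : ∫ x, ‖fderiv ℝ (LayX φ n) x‖
          ≤ ∑ k ∈ Finset.range N, ∫ x, ‖fderiv ℝ (LayX φ k) x‖ :=
        Finset.single_le_sum (f := fun k => ∫ x, ‖fderiv ℝ (LayX φ k) x‖)
          (fun k _ => integral_nonneg fun x => norm_nonneg _) (Finset.mem_range.2 hnN)
      have h2 := abs_nonneg S
      linarith
    · have h1 : 2 < ((n : ℝ) + 1) * ε := by
        have h2 : (N : ℝ) ≤ n := by exact_mod_cast hnN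
        have h3 : 2 < (N : ℝ) * ε := by rwa [div_lt_iff₀ hε] at hN
        nlinarith
      have h2 := hlarge n h1
      rw [← hS] at h2
      have h3 := le_abs_self S
      linarith

end Pool.H56.PO
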