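import Pool.Agent.H56.PO.Defs
import Pool.Agent.H55.BM.Main

/-!
# Module Per (about 130 lines): the isoperimetric inequality in the form of Maz'ya

PROOF. Let `ω = (36 π)^(1/3)`, `K = {v ≥ t'}`, `f x = max 0 (min 1 ((v x - t) / (t' - t)))`, continuous with compact
support, values in `[0, 1]`, `f = 1` on `K`. For `ε > 0` let `f_ε x = ⨆_{y ∈ ball x ε} f y`. For
`0 ≤ s < 1`: `{f_ε > s} = Metric.thickening ε {f > s}`, and `{f > s} ⊇ K` is open and bounded, so by `thick3`
`|{f_ε > s}| ≥ |{f > s}| + ε ω |{f > s}|^(2/3) ≥ |{f > s}| + ε ω |K|^(2/3)`. Integrate over `s ∈ (0, 1)`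
(layer cake): `∫ f_ε ≥ ∫ f + ε ω |K|^(2/3)`.
Upper bound: `∇ v` is uniformly continuous and bounded by `L` (compact support); let `m(ε)` be its modulus.
If `f_ε x > f x` then `v x < t'` and some `y ∈ ball x ε` has `v y > t`, so `v x > t - L ε`; and in any case
`f_ε x - f x ≤ ε (‖fderiv v x‖ + m(ε)) / (t' - t)` (mean value theorem on the ball; `s ↦ max 0 (min 1 s)` is
monotone and 1-Lipschitz). So `ω |K|^(2/3) (t' - t) ≤ ∫_{t - L ε < v < t'} (‖fderiv v x‖ + m(ε))`, and
`ε → 0` (dominated convergence; the sets decrease to `{t ≤ v < t'}`; they are contained in the bounded set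
`{t / 2 ≤ v}`) gives the claim.
To avoid the supremum one can use, instead of `f_ε`, the layer cake integral
`∫_0^1 |thickening ε {f > s}| ds` and Fubini: `|{s ∈ (0,1) | x ∈ thickening ε {f > s}}| ≤ f x + ε (...)`.
-/

set_option autoImplicit false

namespace Pool.H56.PO

open MeasureTheory Filter Topology
open scoped ENNReal

private theorem Per_unif {F : Type*} [NormedAddCommGroup F] {f : E3 → F} (hf : Continuous f)
    (hc : HasCompactSupport f) {δ : ℝ} (hδ : 0 < δ) :
    ∃ ε > 0, ∀ x y : E3, dist y x < ε → ‖f y - f x‖ < δ := by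
  have hu : UniformContinuous f := Continuous.uniformContinuous_of_tendsto_cocompact (x := 0) hf
    (hc.is_zero_at_infty)
  obtain ⟨ε, he, h⟩ := Metric.uniformContinuous_iff.1 hu δ hδ
  exact ⟨ε, he, fun x y hxy => by rw [← dist_eq_norm]; exact h hxy⟩

private theorem Per_bdd {v : E3 → ℝ} (hc : HasCompactSupport v) {s : ℝ} (hs : 0 ≤ s) :
    Bornology.IsBounded {x | s < v x} := by
  refine hc.isCompact.isBounded.subset fun x hx => subset_tsupport v ?_
  have hx : s < v x := hx
  exact (lt_of_le_of_lt hs hx).ne'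

private theorem Per_main {v : E3 → ℝ} (hv : ContDiff ℝ 1 v) (hc : HasCompactSupport v)
    {t t' δ : ℝ} (ht : 0 < t) (htt : t < t') (hδ : 0 < δ) (hδt : δ < t) :
    (36 * Real.pi) ^ (1 / 3 : ℝ) * (volume.real {x | t' ≤ v x}) ^ (2 / 3 : ℝ) * (t' - t) ≤
      ∫ x in {x | t - δ ≤ v x ∧ v x ≤ t'}, (‖fderiv ℝ v x‖ + δ) := by
  have hvc : Continuous v := hv.continuous
  have hfc : Continuous (fderiv ℝ v) := hv.continuous_fderiv one_ne_zero
  obtain ⟨ε1, he1, h1⟩ := Per_unif hvc hc hδ
  obtain ⟨ε2, he2, h2⟩ := Per_unif hfc (hc.fderiv ℝ) hδ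
  set ε := min ε1 ε2 with hε
  have he : 0 < ε := lt_min he1 he2
  set V := volume.real {x | t' ≤ v x} with hV
  set A : Set E3 := {x | t - δ ≤ v x ∧ v x ≤ t'} with hA
  set ω : ℝ := (36 * Real.pi) ^ (1 / 3 : ℝ) with hω
  have hω0 : 0 ≤ ω := by positivity
  have hAm : MeasurableSet A :=
    ((isClosed_le continuous_const hvc).inter (isClosed_le hvc continuous_const)).measurableSet
  -- growth
  have hg : ∀ x y, dist y x < ε → v y ≤ v x + ε * (‖fderiv ℝ v x‖ + δ) := by
    intro x y hxy
    have hd : ∀ z ∈ Metric.ball x ε, DifferentiableAt ℝ v z := fun z _ =>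
      (hv.differentiable one_ne_zero) z
    have hb : ∀ z ∈ Metric.ball x ε, ‖fderiv ℝ v z - fderiv ℝ v x‖ ≤ δ := fun z hz =>
      (h2 x z (lt_of_lt_of_le hz (min_le_right _ _))).le
    have := (convex_ball x ε).norm_image_sub_le_of_norm_fderiv_le' hd hb
      (Metric.mem_ball_self he) (Metric.mem_ball.2 hxy)
    have h3 : v y - v x ≤ ‖fderiv ℝ v x‖ * ‖y - x‖ + δ * ‖y - x‖ := by
      have e1 : v y - v x = (v y - v x - fderiv ℝ v x (y - x)) + fderiv ℝ v x (y - x) := by ring
      have e2 : fderiv ℝ v x (y - x) ≤ ‖fderiv ℝ v x‖ * ‖y - x‖ :=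
        (le_abs_self _).trans ((fderiv ℝ v x).le_opNorm _)
      have e3 : v y - v x - fderiv ℝ v x (y - x) ≤ δ * ‖y - x‖ := (le_abs_self _).trans this
      linarith
    have h4 : ‖y - x‖ ≤ ε := by rw [← dist_eq_norm]; exact hxy.le
    have h5 : (‖fderiv ℝ v x‖ + δ) * ‖y - x‖ ≤ (‖fderiv ℝ v x‖ + δ) * ε :=
      mul_le_mul_of_nonneg_left h4 (by positivity)
    nlinarith
  let S : Set (E3 × ℝ) := {p | p.2 ∈ Set.Ioo t t' ∧ ∃ y, dist y p.1 < ε ∧ p.2 < v y}
  let T : Set (E3 × ℝ) := {p | p.2 ∈ Set.Ioo t t' ∧ p.2 < v p.1}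
  have hS : MeasurableSet S := by
    have h0 : IsOpen {p : E3 × ℝ | ∃ y, dist y p.1 < ε ∧ p.2 < v y} := by
      have : {p : E3 × ℝ | ∃ y, dist y p.1 < ε ∧ p.2 < v y} =
          ⋃ y, {p : E3 × ℝ | dist y p.1 < ε} ∩ {p | p.2 < v y} := by
        ext p; simp
      rw [this]
      exact isOpen_iUnion fun y =>
        (isOpen_lt (by fun_prop) continuous_const).inter (isOpen_lt (by fun_prop) continuous_const)
    exact ((isOpen_Ioo.preimage continuous_snd).inter h0).measurableSet
  have hT : MeasurableSet T :=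
    ((isOpen_Ioo.preimage continuous_snd).inter
      (isOpen_lt continuous_snd (hvc.comp continuous_fst))).measurableSet
  have hS1 := Measure.prod_apply (μ := (volume : Measure E3)) (ν := (volume : Measure ℝ)) hS
  have hS2 := Measure.prod_apply_symm (μ := (volume : Measure E3)) (ν := (volume : Measure ℝ)) hS
  have hT1 := Measure.prod_apply (μ := (volume : Measure E3)) (ν := (volume : Measure ℝ)) hT
  have hT2 := Measure.prod_apply_symm (μ := (volume : Measure E3)) (ν := (volume : Measure ℝ)) hT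
  -- lower bound
  have hlow : ∀ s : ℝ, volume ((fun x : E3 => (x, s)) ⁻¹' T) +
      (Set.Ioo t t').indicator (fun _ => ENNReal.ofReal (ε * ω * V ^ (2 / 3 : ℝ))) s ≤
      volume ((fun x : E3 => (x, s)) ⁻¹' S) := by
    intro s
    by_cases hs : s ∈ Set.Ioo t t'
    · rw [Set.indicator_of_mem hs]
      have e1 : (fun x : E3 => (x, s)) ⁻¹' T = {x | s < v x} := by
        ext x; simp only [T, Set.mem_preimage, Set.mem_ofPred_eq]; exact ⟨fun h => h.2, fun h => ⟨hs, h⟩⟩
      have e2 : (fun x : E3 => (x, s)) ⁻¹' S = Metric.thickening ε {x | s < v x} := by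
        ext x
        simp only [S, Set.mem_preimage, Set.mem_ofPred_eq, Metric.mem_thickening_iff]
        constructor
        · rintro ⟨_, y, hy, hy'⟩
          exact ⟨y, hy', by rw [dist_comm]; exact hy⟩
        · rintro ⟨y, hy', hy⟩
          exact ⟨hs, y, by rw [dist_comm]; exact hy, hy'⟩
      rw [e1, e2]
      have hb := Per_bdd hc (s := s) (ht.trans hs.1).le
      have ho : IsOpen {x | s < v x} := isOpen_lt continuous_const hvc
      have hth := Pool.H55.BM.thick3 ho hb he
      have hfin : volume {x | s < v x} ≠ ∞ := hb.measure_lt_top.ne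
      have hTfin : volume (Metric.thickening ε {x | s < v x}) ≠ ∞ := hb.thickening.measure_lt_top.ne
      have hVle : V ≤ volume.real {x | s < v x} :=
        measureReal_mono (fun x hx => lt_of_lt_of_le hs.2 hx) hfin
      have hVle2 : V ^ (2 / 3 : ℝ) ≤ volume.real {x | s < v x} ^ (2 / 3 : ℝ) :=
        Real.rpow_le_rpow measureReal_nonneg hVle (by norm_num)
      rw [← ofReal_measureReal hfin, ← ofReal_measureReal hTfin, ← ENNReal.ofReal_add
        measureReal_nonneg (by positivity)]
      refine ENNReal.ofReal_le_ofReal (le_trans ?_ hth)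
      have := mul_le_mul_of_nonneg_left hVle2 (mul_nonneg he.le hω0)
      linarith
    · rw [Set.indicator_of_notMem hs, add_zero]
      have e1 : (fun x : E3 => (x, s)) ⁻¹' T = ∅ := by
        ext x; simp only [T, Set.mem_preimage, Set.mem_ofPred_eq, Set.mem_empty_iff_false, iff_false]
        exact fun h => hs h.1
      rw [e1]; simp
  have hup : ∀ x : E3, volume (Prod.mk x ⁻¹' S) ≤ volume (Prod.mk x ⁻¹' T) +
      A.indicator (fun x => ENNReal.ofReal (ε * (‖fderiv ℝ v x‖ + δ))) x := by
    intro x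
    by_cases hx : t' ≤ v x
    · refine le_trans (measure_mono ?_) le_self_add
      rintro s ⟨hs, _⟩
      exact ⟨hs, lt_of_lt_of_le hs.2 hx⟩
    · push Not at hx
      by_cases hxA : x ∈ A
      · rw [Set.indicator_of_mem hxA]
        have hsub : Prod.mk x ⁻¹' S ⊆ Prod.mk x ⁻¹' T ∪
            Set.Ico (v x) (v x + ε * (‖fderiv ℝ v x‖ + δ)) := by
          rintro s ⟨hs, y, hy, hy'⟩
          by_cases hsx : s < v x
          · exact Or.inl ⟨hs, hsx⟩
          · exact Or.inr ⟨not_lt.1 hsx, lt_of_lt_of_le hy' (hg x y hy)⟩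
        refine (measure_mono hsub).trans ((measure_union_le _ _).trans ?_)
        rw [Real.volume_Ico, add_sub_cancel_left]
      · have : Prod.mk x ⁻¹' S = ∅ := by
          ext s
          simp only [Set.mem_empty_iff_false, iff_false]
          rintro ⟨hs, y, hy, hy'⟩
          apply hxA
          refine ⟨?_, hx.le⟩
          have := h1 x y (lt_of_lt_of_le hy (min_le_left _ _))
          have h3 := (abs_lt.1 (by simpa using this)).2
          have hs1 := hs.1
          simp only at hs1 hy'
          linarith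
        rw [this]; simp
  have hle : (volume.prod volume) T + ENNReal.ofReal (ε * ω * V ^ (2 / 3 : ℝ)) *
      ENNReal.ofReal (t' - t) ≤ (volume.prod volume) T +
      ∫⁻ x in A, ENNReal.ofReal (ε * (‖fderiv ℝ v x‖ + δ)) := by
    calc _ = ∫⁻ s : ℝ, (volume ((fun x : E3 => (x, s)) ⁻¹' T) +
      (Set.Ioo t t').indicator (fun _ => ENNReal.ofReal (ε * ω * V ^ (2 / 3 : ℝ))) s) := by
          rw [lintegral_add_left, ← hT2, lintegral_indicator measurableSet_Ioo]
          · simp
          · exact measurable_measure_prodMk_right hT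
      _ ≤ ∫⁻ s : ℝ, volume ((fun x : E3 => (x, s)) ⁻¹' S) := lintegral_mono hlow
      _ = ∫⁻ x : E3, volume (Prod.mk x ⁻¹' S) := by rw [← hS2, hS1]
      _ ≤ ∫⁻ x : E3, (volume (Prod.mk x ⁻¹' T) +
          A.indicator (fun x => ENNReal.ofReal (ε * (‖fderiv ℝ v x‖ + δ))) x) := lintegral_mono hup
      _ = _ := by
          rw [lintegral_add_left, ← hT1, lintegral_indicator hAm]
          exact measurable_measure_prodMk_left hT
  have hTfin : (volume.prod volume) T ≠ ∞ := by
    have hsub : T ⊆ {x | t < v x} ×ˢ Set.Ioo t t' := by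
      rintro ⟨x, s⟩ ⟨hs, hsx⟩
      exact ⟨hs.1.trans hsx, hs⟩
    refine ne_top_of_le_ne_top ?_ (measure_mono hsub)
    rw [Measure.prod_prod]
    exact ENNReal.mul_ne_top (Per_bdd hc ht.le).measure_lt_top.ne (by simp)
  have hle2 := (ENNReal.add_le_add_iff_left hTfin).1 hle
  -- A bounded
  have hAb : Bornology.IsBounded A := by
    refine (Per_bdd hc (s := 0) le_rfl).subset fun x hx => ?_
    have hx1 := hx.1
    show 0 < v x
    linarith
  have hcont : Continuous fun x => (‖fderiv ℝ v x‖ + δ) := by fun_prop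
  have hint : IntegrableOn (fun x => (‖fderiv ℝ v x‖ + δ)) A :=
    (hcont.continuousOn.integrableOn_compact hAb.isCompact_closure).mono_set subset_closure
  have hint2 : IntegrableOn (fun x => ε * (‖fderiv ℝ v x‖ + δ)) A := hint.const_mul ε
  rw [← ofReal_integral_eq_lintegral_ofReal hint2
    (Eventually.of_forall fun x => by positivity), ← ENNReal.ofReal_mul (by positivity),
    ENNReal.ofReal_le_ofReal_iff, integral_const_mul] at hle2
  · have h6 : ε * (ω * V ^ (2 / 3 : ℝ) * (t' - t)) ≤ ε * ∫ x in A, (‖fderiv ℝ v x‖ + δ) := by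
      calc _ = ε * ω * V ^ (2 / 3 : ℝ) * (t' - t) := by ring
        _ ≤ _ := hle2
    exact le_of_mul_le_mul_left h6 he
  · exact integral_nonneg fun x => by positivity

theorem per_le {v : E3 → ℝ} (hv : ContDiff ℝ 1 v) (hc : HasCompactSupport v) {t t' : ℝ}
    (ht : 0 < t) (htt : t < t') :
    (36 * Real.pi) ^ (1 / 3 : ℝ) * (volume.real {x | t' ≤ v x}) ^ (2 / 3 : ℝ) * (t' - t) ≤
      ∫ x in {x | t ≤ v x ∧ v x ≤ t'}, ‖fderiv ℝ v x‖ := by
  have hvc : Continuous v := hv.continuous
  have hfc : Continuous (fderiv ℝ v) := hv.continuous_fderiv one_ne_zero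
  let d : ℕ → ℝ := fun n => t / (n + 2)
  have hd0 : ∀ n, 0 < d n := fun n => by positivity
  have hdt : ∀ n, d n < t := fun n => by
    have : (1 : ℝ) < (n : ℝ) + 2 := by have := n.cast_nonneg (α := ℝ); linarith
    exact div_lt_self ht this
  have hdanti : Antitone d := fun m n hmn => by
    have : (m : ℝ) ≤ n := by exact_mod_cast hmn
    exact div_le_div_of_nonneg_left ht.le (by positivity) (by linarith)
  have hdl : Tendsto d atTop (𝓝 0) := by
    have h1 : Tendsto (fun n : ℕ => (n : ℝ) + 2) atTop atTop :=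
      tendsto_atTop_add_const_right _ _ tendsto_natCast_atTop_atTop
    exact h1.const_div_atTop t
  let A : ℕ → Set E3 := fun n => {x | t - d n ≤ v x ∧ v x ≤ t'}
  have hAm : ∀ n, MeasurableSet (A n) := fun n =>
    ((isClosed_le continuous_const hvc).inter (isClosed_le hvc continuous_const)).measurableSet
  have hAanti : Antitone A := fun m n hmn x hx => by
    have h1 : t - d n ≤ v x := hx.1
    have h2 := hdanti hmn
    exact ⟨by linarith, hx.2⟩
  have hAb : ∀ n, Bornology.IsBounded (A n) := fun n => by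
    refine (Per_bdd hc (s := 0) le_rfl).subset fun x hx => ?_
    have hx1 : t - d n ≤ v x := hx.1
    have h2 := hdt n
    show 0 < v x
    linarith
  have hcont : Continuous fun x => ‖fderiv ℝ v x‖ := by fun_prop
  have hint : ∀ n, IntegrableOn (fun x => ‖fderiv ℝ v x‖) (A n) := fun n =>
    (hcont.continuousOn.integrableOn_compact (hAb n).isCompact_closure).mono_set subset_closure
  have hAi : ⋂ n, A n = {x | t ≤ v x ∧ v x ≤ t'} := by
    ext x
    simp only [Set.mem_iInter]
    constructor
    · intro h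
      refine ⟨?_, (h 0).2⟩
      have h1 : Tendsto (fun n => t - d n) atTop (𝓝 (t - 0)) := hdl.const_sub t
      rw [sub_zero] at h1
      exact le_of_tendsto' h1 fun n => (h n).1
    · intro h n
      have h1 : t ≤ v x := h.1
      have := hd0 n
      exact ⟨by linarith, h.2⟩
  have hT1 := tendsto_setIntegral_of_antitone hAm hAanti ⟨0, hint 0⟩
  rw [hAi] at hT1
  have hfin : ∀ n, volume (A n) ≠ ∞ := fun n => (hAb n).measure_lt_top.ne
  have hT2 : Tendsto (fun n => d n * volume.real (A 0)) atTop (𝓝 0) := by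
    simpa using hdl.mul_const (volume.real (A 0))
  have hT3 := hT1.add hT2
  rw [add_zero] at hT3
  refine ge_of_tendsto' hT3 fun n => ?_
  refine (Per_main hv hc ht htt (hd0 n) (hdt n)).trans ?_
  have hci : IntegrableOn (fun _ : E3 => d n) (A n) := integrableOn_const (hfin n)
  have e1 : ∫ x in {x | t - d n ≤ v x ∧ v x ≤ t'}, (‖fderiv ℝ v x‖ + d n) =
      (∫ x in A n, ‖fderiv ℝ v x‖) + d n * volume.real (A n) := by
    have := integral_add (μ := volume.restrict (A n)) (hint n) hci
    rw [setIntegral_const, smul_eq_mul, mul_comm] at this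
    exact this
  rw [e1]
  have h5 : volume.real (A n) ≤ volume.real (A 0) :=
    measureReal_mono (hAanti (Nat.zero_le n)) (hfin 0)
  have := mul_le_mul_of_nonneg_left h5 (hd0 n).le
  linarith

end Pool.H56.PO
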