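import Pool.Agent.H56.PO.Flux
import Pool.Agent.H56.PO.Per

/-!
# Module Lev (about 40 lines): the level set inequality

PROOF. Cauchy-Schwarz on `S = {t ≤ v ≤ t'}` (bounded, measurable): `(∫_S ‖∇ v‖)² ≤ |S| ∫_S ‖∇ v‖²`, with
`per_le` and `flux_le`. (For Cauchy-Schwarz: `0 ≤ ∫_S (‖∇ v‖ - m)²` with `m = ∫_S ‖∇ v‖ / |S|`, or
`integral_mul_le_Lp_mul_Lq_of_nonneg`; if `|S| = 0` both sides are clear.)
-/

set_option autoImplicit false

namespace Pool.H56.PO

open MeasureTheory Filter Topology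

theorem lev {D : Set E3} {v : E3 → ℝ} (h : Sol D v) {t t' : ℝ} (ht : 0 < t) (htt : t < t') :
    ((36 * Real.pi) ^ (1 / 3 : ℝ) * (volume.real {x | t' ≤ v x}) ^ (2 / 3 : ℝ) * (t' - t)) ^ 2 ≤
      volume.real {x | t ≤ v x ∧ v x ≤ t'} * ∫ τ in t..t', ∫ x in {x | τ < v x}, (v x - 1) := by
  set S : Set E3 := {x | t ≤ v x ∧ v x ≤ t'} with hSdef
  have hS : MeasurableSet S :=
    (measurableSet_le measurable_const h.cont.measurable).inter
      (measurableSet_le h.cont.measurable measurable_const)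
  have hSK : S ⊆ tsupport v := by
    intro x hx
    by_contra hc
    have h1 := image_eq_zero_of_notMem_tsupport hc
    have h2 : t ≤ v x := hx.1
    linarith
  have hfin : volume S < ⊤ := (measure_mono hSK).trans_lt h.hcs.isCompact.measure_lt_top
  have hfc : Continuous (fderiv ℝ v) := h.c1.continuous_fderiv (by norm_num)
  have i1 : IntegrableOn (fun x => ‖fderiv ℝ v x‖) S :=
    (hfc.norm.continuousOn.integrableOn_compact h.hcs.isCompact).mono_set hSK
  have i2 : IntegrableOn (fun x => ‖fderiv ℝ v x‖ ^ 2) S :=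
    ((hfc.norm.pow 2).continuousOn.integrableOn_compact h.hcs.isCompact).mono_set hSK
  have h1 := per_le h.c1 h.hcs ht htt
  have h2 := flux_le h ht htt.le
  have h0 : 0 ≤ (36 * Real.pi) ^ (1 / 3 : ℝ) * (volume.real {x | t' ≤ v x}) ^ (2 / 3 : ℝ) *
      (t' - t) := by
    have := Real.pi_pos
    have h3 : 0 ≤ volume.real {x | t' ≤ v x} := measureReal_nonneg
    have h4 : 0 ≤ t' - t := by linarith
    positivity
  have cs : (∫ x in S, ‖fderiv ℝ v x‖) ^ 2 ≤ volume.real S * ∫ x in S, ‖fderiv ℝ v x‖ ^ 2 := by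
    set a := ∫ x in S, ‖fderiv ℝ v x‖ with ha
    set q := ∫ x in S, ‖fderiv ℝ v x‖ ^ 2 with hq
    have key : ∀ m : ℝ, 0 ≤ q - 2 * m * a + m ^ 2 * volume.real S := by
      intro m
      have e1 : 0 ≤ ∫ x in S, (‖fderiv ℝ v x‖ - m) ^ 2 := integral_nonneg fun _ => sq_nonneg _
      have e2 : ∫ x in S, (‖fderiv ℝ v x‖ - m) ^ 2 = q - 2 * m * a + m ^ 2 * volume.real S := by
        have e3 : ∀ x, (‖fderiv ℝ v x‖ - m) ^ 2 =
            (‖fderiv ℝ v x‖ ^ 2 - 2 * m * ‖fderiv ℝ v x‖) + m ^ 2 := fun x => by ring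
        simp_rw [e3]
        have i3 : IntegrableOn (fun x => 2 * m * ‖fderiv ℝ v x‖) S := i1.const_mul _
        have i4 : IntegrableOn (fun _ : E3 => m ^ 2) S := integrableOn_const hfin.ne
        have i5 : IntegrableOn (fun x => ‖fderiv ℝ v x‖ ^ 2 - 2 * m * ‖fderiv ℝ v x‖) S := i2.sub i3
        rw [integral_add i5 i4, integral_sub i2 i3, integral_const_mul]
        simp only [integral_const, smul_eq_mul, measureReal_restrict_apply_univ]
        ring
      rw [e2] at e1
      exact e1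
    have hV : 0 ≤ volume.real S := measureReal_nonneg
    rcases hV.eq_or_lt with hV0 | hVp
    · have hz : volume S = 0 := by
        have := (measureReal_eq_zero_iff hfin.ne).1 hV0.symm
        exact this
      have ha0 : a = 0 := by
        rw [ha, Measure.restrict_eq_zero.2 hz, integral_zero_measure]
      rw [ha0, ← hV0]
      simp
    · have hk := key (a / volume.real S)
      have e5 : q - 2 * (a / volume.real S) * a + (a / volume.real S) ^ 2 * volume.real S =
          q - a ^ 2 / volume.real S := by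
        field_simp
        ring
      rw [e5] at hk
      have hk2 : a ^ 2 / volume.real S ≤ q := by linarith
      rw [div_le_iff₀ hVp] at hk2
      linarith
  calc _ ≤ (∫ x in S, ‖fderiv ℝ v x‖) ^ 2 := by
        apply pow_le_pow_left₀ h0 h1
    _ ≤ volume.real S * ∫ x in S, ‖fderiv ℝ v x‖ ^ 2 := cs
    _ ≤ _ := mul_le_mul_of_nonneg_left h2 measureReal_nonneg

end Pool.H56.PO
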