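import Pool.Agent.H56.PO.Zf
import Pool.Agent.H56.PO.Lev
import Pool.Agent.H56.PO.Rea

/-!
# Module Slab (about 150 lines): the slabs between two level sets in the equality case

`Eq1 D v τ` is the situation of the equality case: the rearrangement of `v` is the radial solution.
PROOFS. Let `0 < r < τ`; `rad (ds v 0) = τ` (`rad_vol`), `0 < zc τ r` (`zc_anti`, `zc_tau`).
`ds_zc`: for `ρ ∈ (0, τ)`: `ρ < r` iff `zc τ r < zc τ ρ = rea v ρ` iff `4π/3 ρ³ < ds v (zc τ r)` (`rea_lt_iff`). With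
`ρ = r` this gives `≤`, and `ρ → r-` gives `≥`.
`ge_zc`: `≥` from `ds_zc`; `≤`: `{zc τ r ≤ v} ⊆ {zc τ r'' < v}` for `r < r'' < τ`, `r'' → r`.
`w_zc`: `rea_int` with `F y = y - 1`, `t = zc τ r`, `rad (ds v t) = r`, `rea v = zc τ` on `(0, r)`, `fl_zc`.
`slab`: let `S = {zc τ r ≤ v ≤ zc τ r'}`, `t = zc τ r`, `t' = zc τ r'`, `h = r - r'`.
`|S| = |{t ≤ v}| - |{t' < v}| = 4π/3 (r³ - r'³) ≤ 4 π r² h` (disjoint union `{t ≤ v} = S ∪ {t' < v}`).
`flux_le`: `∫_S ‖∇ v‖² ≤ ∫_t^t' W`, where `W σ = ∫_{v > σ} (v - 1)`; every `σ ∈ [t, t']` is `zc τ x` with `x ∈ [r', r]` (IVT), so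
`W σ = 4 π x² dz τ x ≤ 4 π r² M` (`w_zc`), and `∫_S ‖∇ v‖² ≤ 4 π r² M (t' - t) ≤ 4 π r² M² h` (mean value inequality;
if `W` were not interval integrable the integral would be `0` and the bound is clear too).
`per_le`: `∫_S ‖∇ v‖ ≥ (36 π)^(1/3) (4π/3 r'³)^(2/3) (t' - t) = 4 π r'² (t' - t) ≥ 4 π r'² m h`. Expand the square
(`‖fderiv v‖` is continuous, `S` is compact: `t > 0`).
-/

set_option autoImplicit false

namespace Pool.H56.PO

open MeasureTheory Filter Topology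

/-- the situation of the equality case -/
structure Eq1 (D : Set E3) (v : E3 → ℝ) (τ : ℝ) : Prop where
  sol : Sol D v
  tau : IsTau τ
  nn : ∀ x, 0 ≤ v x
  vol : ds v 0 = 4 * Real.pi / 3 * τ ^ 3
  volD : volume.real D = 4 * Real.pi / 3 * τ ^ 3
  re : ∀ r ∈ Set.Ioo 0 τ, rea v r = zc τ r

private theorem slab_cube_pos {τ : ℝ} (hτ : IsTau τ) : 0 < τ :=
  lt_trans Real.pi_pos hτ.1

private theorem slab_zpos {τ : ℝ} (hτ : IsTau τ) {r : ℝ} (h0 : 0 < r) (h1 : r < τ) :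
    0 < zc τ r := by
  have := zc_anti hτ (⟨h0.le, h1.le⟩ : r ∈ Set.Icc 0 τ)
    (⟨(slab_cube_pos hτ).le, le_rfl⟩ : τ ∈ Set.Icc 0 τ) h1
  rwa [zc_tau hτ] at this

private theorem slab_rad {D : Set E3} {v : E3 → ℝ} {τ : ℝ} (h : Eq1 D v τ) :
    rad (ds v 0) = τ := by
  rw [h.vol]
  exact rad_vol (slab_cube_pos h.tau).le

private theorem slab_iff {D : Set E3} {v : E3 → ℝ} {τ : ℝ} (h : Eq1 D v τ) {r ρ : ℝ}
    (h0 : 0 < r) (h1 : r < τ) (hρ0 : 0 < ρ) (hρ1 : ρ < τ) :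
    ρ < r ↔ 4 * Real.pi / 3 * ρ ^ 3 < ds v (zc τ r) := by
  have hA := zc_anti h.tau
  have e1 : ρ < r ↔ zc τ r < zc τ ρ :=
    (hA.lt_iff_gt (⟨h0.le, h1.le⟩ : r ∈ Set.Icc 0 τ) (⟨hρ0.le, hρ1.le⟩ : ρ ∈ Set.Icc 0 τ)).symm
  rw [e1, ← h.re ρ ⟨hρ0, hρ1⟩]
  exact rea_lt_iff h.sol.cont h.sol.hcs hρ0 (by rw [slab_rad h]; exact hρ1)
    (slab_zpos h.tau h0 h1).le

private theorem slab_lim_lt {a r : ℝ} (h0 : 0 < r)
    (h : ∀ ρ, 0 < ρ → ρ < r → 4 * Real.pi / 3 * ρ ^ 3 ≤ a) : 4 * Real.pi / 3 * r ^ 3 ≤ a := by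
  have hc : Tendsto (fun ρ : ℝ => 4 * Real.pi / 3 * ρ ^ 3) (𝓝[<] r)
      (𝓝 (4 * Real.pi / 3 * r ^ 3)) := by
    have : Continuous (fun ρ : ℝ => 4 * Real.pi / 3 * ρ ^ 3) := by fun_prop
    exact (this.tendsto r).mono_left nhdsWithin_le_nhds
  refine le_of_tendsto hc ?_
  have : Set.Ioo 0 r ∈ 𝓝[<] r := Ioo_mem_nhdsLT h0
  filter_upwards [this] with ρ hρ
  exact h ρ hρ.1 hρ.2

private theorem slab_lim_gt {a r τ : ℝ} (h0 : r < τ)
    (h : ∀ ρ, r < ρ → ρ < τ → a ≤ 4 * Real.pi / 3 * ρ ^ 3) : a ≤ 4 * Real.pi / 3 * r ^ 3 := by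
  have hc : Tendsto (fun ρ : ℝ => 4 * Real.pi / 3 * ρ ^ 3) (𝓝[>] r)
      (𝓝 (4 * Real.pi / 3 * r ^ 3)) := by
    have : Continuous (fun ρ : ℝ => 4 * Real.pi / 3 * ρ ^ 3) := by fun_prop
    exact (this.tendsto r).mono_left nhdsWithin_le_nhds
  refine ge_of_tendsto hc ?_
  have : Set.Ioo r τ ∈ 𝓝[>] r := Ioo_mem_nhdsGT h0
  filter_upwards [this] with ρ hρ
  exact h ρ hρ.1 hρ.2

private theorem slab_sub {D : Set E3} {v : E3 → ℝ} (h : Sol D v) {t : ℝ} (ht : 0 < t) :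
    {x | t ≤ v x} ⊆ tsupport v := by
  intro x hx
  refine subset_tsupport v ?_
  intro h0
  have : t ≤ v x := hx
  rw [h0] at this
  linarith

private theorem slab_compact {D : Set E3} {v : E3 → ℝ} (h : Sol D v) {t : ℝ} (ht : 0 < t) :
    IsCompact {x | t ≤ v x} :=
  h.hcs.isCompact.of_isClosed_subset (isClosed_le continuous_const h.cont) (slab_sub h ht)

private theorem slab_fin {D : Set E3} {v : E3 → ℝ} (h : Sol D v) {t : ℝ} (ht : 0 < t) :
    volume {x | t ≤ v x} ≠ ⊤ :=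
  (slab_compact h ht).measure_lt_top.ne

private theorem slab_mv {τ : ℝ} {r' r : ℝ} (h0 : 0 < r') (h1 : r' < r) :
    ∃ c ∈ Set.Ioo r' r, zc τ r' - zc τ r = dz τ c * (r - r') := by
  obtain ⟨c, hc, he⟩ := exists_hasDerivAt_eq_slope (zc τ) (fun x => -dz τ x) h1
    (zc_cont τ).continuousOn (fun x hx => zc_deriv τ (ne_of_gt (lt_trans h0 hx.1)))
  refine ⟨c, hc, ?_⟩
  have hne : r - r' ≠ 0 := by linarith
  have he' : -dz τ c = (zc τ r - zc τ r') / (r - r') := he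
  rw [eq_div_iff hne] at he'
  linarith

private theorem slab_const {r' : ℝ} (h0 : 0 < r') :
    (36 * Real.pi) ^ (1 / 3 : ℝ) * (4 * Real.pi / 3 * r' ^ 3) ^ (2 / 3 : ℝ) =
      4 * Real.pi * r' ^ 2 := by
  have hp := Real.pi_pos
  have e1 : (4 * Real.pi / 3 * r' ^ 3) ^ (2 / 3 : ℝ) =
      ((4 * Real.pi / 3 * r' ^ 3) ^ 2) ^ (1 / 3 : ℝ) := by
    rw [← Real.rpow_natCast (4 * Real.pi / 3 * r' ^ 3) 2, ← Real.rpow_mul (by positivity)]
    norm_num
  rw [e1, ← Real.mul_rpow (by positivity) (by positivity)]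
  have e2 : 36 * Real.pi * (4 * Real.pi / 3 * r' ^ 3) ^ 2 = (4 * Real.pi * r' ^ 2) ^ 3 := by ring
  rw [e2, ← Real.rpow_natCast (4 * Real.pi * r' ^ 2) 3, ← Real.rpow_mul (by positivity)]
  norm_num

theorem ds_zc {D : Set E3} {v : E3 → ℝ} {τ : ℝ} (h : Eq1 D v τ) {r : ℝ} (h0 : 0 < r)
    (h1 : r < τ) : ds v (zc τ r) = 4 * Real.pi / 3 * r ^ 3 := by
  have hs := h.sol
  refine le_antisymm ?_ ?_
  · by_contra hlt
    push Not at hlt
    exact lt_irrefl r ((slab_iff h h0 h1 h0 h1).2 hlt)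
  · refine slab_lim_lt h0 fun ρ hρ0 hρ1 => ?_
    exact ((slab_iff h h0 h1 hρ0 (lt_trans hρ1 h1)).1 hρ1).le

theorem ge_zc {D : Set E3} {v : E3 → ℝ} {τ : ℝ} (h : Eq1 D v τ) {r : ℝ} (h0 : 0 < r)
    (h1 : r < τ) : volume.real {x | zc τ r ≤ v x} = 4 * Real.pi / 3 * r ^ 3 := by
  have hz := slab_zpos h.tau h0 h1
  have hfin := slab_fin h.sol hz
  refine le_antisymm ?_ ?_
  · refine slab_lim_gt h1 fun ρ hρ0 hρ1 => ?_
    have hρp : 0 < ρ := lt_trans h0 hρ0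
    rw [← ds_zc h hρp hρ1]
    have hzρ := slab_zpos h.tau hρp hρ1
    refine measureReal_mono ?_ ?_
    · intro x hx
      have hx' : zc τ r ≤ v x := hx
      have : zc τ ρ < zc τ r := zc_anti h.tau (⟨h0.le, h1.le⟩ : r ∈ Set.Icc 0 τ)
        (⟨hρp.le, hρ1.le⟩ : ρ ∈ Set.Icc 0 τ) hρ0
      exact lt_of_lt_of_le this hx'
    · refine ne_top_of_le_ne_top (slab_fin h.sol hzρ) (measure_mono ?_)
      intro x hx
      have hx' : zc τ ρ < v x := hx
      exact hx'.le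
  · rw [← ds_zc h h0 h1]
    refine measureReal_mono ?_ hfin
    intro x hx
    have hx' : zc τ r < v x := hx
    exact hx'.le

theorem w_zc {D : Set E3} {v : E3 → ℝ} {τ : ℝ} (h : Eq1 D v τ) {r : ℝ} (h0 : 0 < r)
    (h1 : r < τ) : ∫ x in {x | zc τ r < v x}, (v x - 1) = 4 * Real.pi * (r ^ 2 * dz τ r) := by
  have hz := slab_zpos h.tau h0 h1
  have e := rea_int h.sol.cont h.sol.hcs hz.le (F := fun y => y - 1) (by fun_prop)
  rw [e, ds_zc h h0 h1, rad_vol h0.le, ← fl_zc τ h0.le]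
  congr 1
  unfold fl
  refine intervalIntegral.integral_congr_ae (Eventually.of_forall fun x hx => ?_)
  rw [Set.uIoc_of_le h0.le] at hx
  rw [h.re x ⟨hx.1, lt_of_le_of_lt hx.2 h1⟩]

theorem slab {D : Set E3} {v : E3 → ℝ} {τ : ℝ} (h : Eq1 D v τ) {r' r m M : ℝ} (h0 : 0 < r')
    (h1 : r' < r) (h2 : r < τ) (hm : 0 ≤ m)
    (hmM : ∀ x ∈ Set.Icc r' r, m ≤ dz τ x ∧ dz τ x ≤ M) :
    ∫ x in {x | zc τ r ≤ v x ∧ v x ≤ zc τ r'}, (‖fderiv ℝ v x‖ - m) ^ 2 ≤
      4 * Real.pi * (r - r') * (r ^ 2 * M ^ 2 - 2 * m ^ 2 * r' ^ 2 + m ^ 2 * r ^ 2) := by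
  have hr : 0 < r := lt_trans h0 h1
  have hr'τ : r' < τ := lt_trans h1 h2
  have hp := Real.pi_pos
  have hA := zc_anti h.tau
  have hz : 0 < zc τ r := slab_zpos h.tau hr h2
  have hzz : zc τ r < zc τ r' := hA (⟨h0.le, hr'τ.le⟩ : r' ∈ Set.Icc 0 τ)
    (⟨hr.le, h2.le⟩ : r ∈ Set.Icc 0 τ) h1
  have hM : 0 < M := lt_of_lt_of_le (dz_pos h.tau hr h2) (hmM r ⟨h1.le, le_rfl⟩).2
  obtain ⟨c, hc, hce⟩ := slab_mv (τ := τ) h0 h1
  have hcm := hmM c ⟨hc.1.le, hc.2.le⟩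
  have hh : 0 < r - r' := by linarith
  set t := zc τ r with ht
  set t' := zc τ r' with ht'
  set S : Set E3 := {x | t ≤ v x ∧ v x ≤ t'} with hS
  have hSclosed : IsClosed S := by
    have : S = {x | t ≤ v x} ∩ {x | v x ≤ t'} := rfl
    rw [this]
    exact (isClosed_le continuous_const h.sol.cont).inter (isClosed_le h.sol.cont continuous_const)
  have hScomp : IsCompact S :=
    (slab_compact h.sol hz).of_isClosed_subset hSclosed (fun x hx => hx.1)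
  have hSmeas : MeasurableSet S := hSclosed.measurableSet
  -- volume of the slab
  have hvol : volume.real S = 4 * Real.pi / 3 * (r ^ 3 - r' ^ 3) := by
    have hun : {x | t ≤ v x} = S ∪ {x | t' < v x} := by
      ext x
      simp only [hS, Set.mem_ofPred_eq, Set.mem_union]
      constructor
      · intro hx
        rcases le_or_gt (v x) t' with h3 | h3
        · exact Or.inl ⟨hx, h3⟩
        · exact Or.inr h3
      · rintro (hx | hx)
        · exact hx.1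
        · linarith
    have hdis : Disjoint S {x | t' < v x} := by
      rw [Set.disjoint_left]
      intro x hx hx'
      have h3 : v x ≤ t' := hx.2
      have h4 : t' < v x := hx'
      linarith
    have hm2 : MeasurableSet {x | t' < v x} :=
      (isOpen_lt continuous_const h.sol.cont).measurableSet
    have hf2 : volume {x | t' < v x} ≠ ⊤ := by
      refine ne_top_of_le_ne_top (slab_fin h.sol (lt_trans hz hzz)) (measure_mono ?_)
      intro x hx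
      have hx' : t' < v x := hx
      exact hx'.le
    have e := measureReal_union (μ := volume) hdis hm2 hScomp.measure_lt_top.ne hf2
    rw [← hun] at e
    have e1 := ge_zc h hr h2
    have e2 := ds_zc h h0 hr'τ
    unfold ds at e2
    rw [← ht] at e1
    rw [← ht'] at e2
    rw [e1, e2] at e
    linarith
  -- the flux
  have hW : ∀ σ ∈ Set.Icc t t', (∫ x in {x | σ < v x}, (v x - 1)) ≤ 4 * Real.pi * (r ^ 2 * M) := by
    intro σ hσ
    have h0τ : (0 : ℝ) ∈ Set.Icc 0 τ := ⟨le_rfl, (slab_cube_pos h.tau).le⟩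
    have hle0 : t' ≤ zc τ 0 := (hA h0τ (⟨h0.le, hr'τ.le⟩ : r' ∈ Set.Icc 0 τ) h0).le
    obtain ⟨x, hx, hxe⟩ := zc_surj h.tau (le_trans hz.le hσ.1) (le_trans hσ.2 hle0)
    have hx1 : r' ≤ x := by
      by_contra hlt
      push Not at hlt
      have := hA hx (⟨h0.le, hr'τ.le⟩ : r' ∈ Set.Icc 0 τ) hlt
      rw [hxe] at this
      exact absurd hσ.2 (not_le.2 this)
    have hx2 : x ≤ r := by
      by_contra hlt
      push Not at hlt
      have := hA (⟨hr.le, h2.le⟩ : r ∈ Set.Icc 0 τ) hx hlt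
      rw [hxe] at this
      exact absurd hσ.1 (not_le.2 this)
    have hx0 : 0 < x := lt_of_lt_of_le h0 hx1
    have hxτ : x < τ := lt_of_le_of_lt hx2 h2
    rw [← hxe, w_zc h hx0 hxτ]
    have hd := hmM x ⟨hx1, hx2⟩
    have hd0 := dz_pos h.tau hx0 hxτ
    have : x ^ 2 * dz τ x ≤ r ^ 2 * M := by
      apply mul_le_mul (pow_le_pow_left₀ hx0.le hx2 2) hd.2 hd0.le (by positivity)
    nlinarith
  have hflux := flux_le h.sol hz hzz.le
  have hint : (∫ σ in t..t', ∫ x in {x | σ < v x}, (v x - 1)) ≤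
      4 * Real.pi * (r ^ 2 * M) * (t' - t) := by
    by_cases hi : IntervalIntegrable (fun σ => ∫ x in {x | σ < v x}, (v x - 1)) volume t t'
    · have := intervalIntegral.integral_mono_on hzz.le hi
        (intervalIntegrable_const (c := 4 * Real.pi * (r ^ 2 * M))) hW
      rw [intervalIntegral.integral_const, smul_eq_mul] at this
      linarith
    · rw [intervalIntegral.integral_undef hi]
      have : 0 < t' - t := by linarith
      positivity
  have hper := per_le h.sol.c1 h.sol.hcs hz hzz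
  have e1 := ge_zc h h0 hr'τ
  rw [← ht'] at e1
  rw [e1, slab_const h0] at hper
  have hcont : Continuous fun x => ‖fderiv ℝ v x‖ :=
    (h.sol.c1.continuous_fderiv (by norm_num)).norm
  have hi1 : IntegrableOn (fun x => ‖fderiv ℝ v x‖) S := hcont.continuousOn.integrableOn_compact hScomp
  have hi2 : IntegrableOn (fun x => ‖fderiv ℝ v x‖ ^ 2) S :=
    (hcont.pow 2).continuousOn.integrableOn_compact hScomp
  have hi3 : IntegrableOn (fun _ : E3 => m ^ 2) S :=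
    continuous_const.continuousOn.integrableOn_compact hScomp
  have hexp : ∫ x in S, (‖fderiv ℝ v x‖ - m) ^ 2 =
      (∫ x in S, ‖fderiv ℝ v x‖ ^ 2) - 2 * m * (∫ x in S, ‖fderiv ℝ v x‖) +
        m ^ 2 * volume.real S := by
    have e0 : (fun x => (‖fderiv ℝ v x‖ - m) ^ 2) =
        fun x => (‖fderiv ℝ v x‖ ^ 2 - 2 * m * ‖fderiv ℝ v x‖) + m ^ 2 := by
      funext x
      ring
    have hi4 : IntegrableOn (fun x => ‖fderiv ℝ v x‖ ^ 2 - 2 * m * ‖fderiv ℝ v x‖) S :=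
      hi2.sub (hi1.const_mul (2 * m))
    rw [e0, integral_add hi4 hi3,
      integral_sub hi2 (hi1.const_mul (2 * m)), integral_const_mul, setIntegral_const, smul_eq_mul]
    ring
  rw [hexp, hvol]
  have htt1 : t' - t ≤ M * (r - r') := by
    rw [hce]
    exact mul_le_mul_of_nonneg_right hcm.2 hh.le
  have htt2 : m * (r - r') ≤ t' - t := by
    rw [hce]
    exact mul_le_mul_of_nonneg_right hcm.1 hh.le
  have hA1 : (∫ x in S, ‖fderiv ℝ v x‖ ^ 2) ≤ 4 * Real.pi * (r ^ 2 * M) * (M * (r - r')) := by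
    refine (hflux.trans hint).trans ?_
    exact mul_le_mul_of_nonneg_left htt1 (by positivity)
  have hB1 : 4 * Real.pi * r' ^ 2 * (m * (r - r')) ≤ ∫ x in S, ‖fderiv ℝ v x‖ := by
    refine le_trans ?_ hper
    exact mul_le_mul_of_nonneg_left htt2 (by positivity)
  have hB2 : 2 * m * (4 * Real.pi * r' ^ 2 * (m * (r - r'))) ≤
      2 * m * ∫ x in S, ‖fderiv ℝ v x‖ := mul_le_mul_of_nonneg_left hB1 (by positivity)
  have hC1 : (r ^ 3 - r' ^ 3) / 3 ≤ r ^ 2 * (r - r') := by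
    have : r ^ 3 - r' ^ 3 = (r - r') * (r ^ 2 + r * r' + r' ^ 2) := by ring
    rw [this]
    have h3 : r ^ 2 + r * r' + r' ^ 2 ≤ 3 * r ^ 2 := by nlinarith
    nlinarith [mul_le_mul_of_nonneg_left h3 hh.le]
  have hC2 : m ^ 2 * (4 * Real.pi / 3 * (r ^ 3 - r' ^ 3)) ≤
      m ^ 2 * (4 * Real.pi * (r ^ 2 * (r - r'))) := by
    apply mul_le_mul_of_nonneg_left _ (by positivity)
    have := mul_le_mul_of_nonneg_left hC1 (by positivity : 0 ≤ 4 * Real.pi)
    linarith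
  have hfin : 4 * Real.pi * (r - r') * (r ^ 2 * M ^ 2 - 2 * m ^ 2 * r' ^ 2 + m ^ 2 * r ^ 2) =
      4 * Real.pi * (r ^ 2 * M) * (M * (r - r')) -
        2 * m * (4 * Real.pi * r' ^ 2 * (m * (r - r'))) +
        m ^ 2 * (4 * Real.pi * (r ^ 2 * (r - r'))) := by ring
  rw [hfin]
  linarith

end Pool.H56.PO
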