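import Pool.Agent.H56.PO.Defs

/-!
# Module Wt (about 150 lines): the weighted inequality

PROOF. Let `ℓ = P - r P1 ≥ 0` on `[0, g]`, `ℓ' = -r P2`, `ℓ(0) = 0`. Let `0 ≤ w ≤ B` on `(0, g)`; `fl w` is continuous on
`[0, g]`, `|fl w x| ≤ (B + 1) x³ / 3`, so `fl w x / x²` is bounded and interval integrable on `[0, g]`.
`q(r) = ∫_r^g fl w x / x² dx - w r` is `≥ 0` and antitone on `(0, g)`: antitone is `key`, and nonnegative:
`w r ≤ w r₁ + ∫_r^{r₁} ...`, `r₁ → g` (`lim`). Hence `∫_0^g ℓ'(r) q(r) dr ≥ 0`: layer cake: `q(r) = ∫_0^∞ 1_{s < q(r)} ds`,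
for every `s` the set `{r | s < q(r)}` is an interval starting at `0` (up to its endpoint), on which
`∫ ℓ' = ℓ(endpoint) ≥ 0`; Fubini (everything bounded: `q ≤ Q`). (Or: `q` is a uniform limit of nonnegative
combinations of indicators of such intervals.) So `∫ ℓ' w ≤ ∫_0^g ℓ'(r) ∫_r^g fl w x / x² dx dr =
∫_0^g ℓ(x) fl w x / x² dx` (Fubini or integration by parts) `= ∫_0^g (ℓ(x) / x²) ∫_0^x (w y - 1) y² dy dx =
∫_0^g (w y - 1) y² ∫_y^g ℓ(x) / x² dx dy = ∫_0^g (w y - 1) y P(y) dy`, because `(P x / x)' = - ℓ(x) / x²` and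
`P g = 0`. So `∫ - r P2 w ≤ ∫ (w - 1) r P`.
-/

set_option autoImplicit false

namespace Pool.H56.PO

open MeasureTheory Filter Topology Set

/-- the integral of `l'` over an initial piece is nonnegative -/
private lemma wt_piece {g s : ℝ} {q l l' : ℝ → ℝ} (hq : Antitone q)
    (hl : ∀ r, HasDerivAt l (l' r) r) (hl' : Continuous l') (hl0 : l 0 = 0)
    (hpos : ∀ r ∈ Set.Icc 0 g, 0 ≤ l r) :
    0 ≤ ∫ r in Set.Ioc 0 g, (if s < q r then l' r else 0) := by
  have hmeas : MeasurableSet {r : ℝ | s < q r} := measurableSet_lt measurable_const hq.measurable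
  have h1 : ∫ r in Set.Ioc 0 g, (if s < q r then l' r else 0)
      = ∫ r in Set.Ioc 0 g ∩ {r | s < q r}, l' r := by
    rw [← integral_indicator (measurableSet_Ioc.inter hmeas), ← integral_indicator measurableSet_Ioc]
    refine integral_congr_ae (Filter.Eventually.of_forall fun r => ?_)
    by_cases h2 : r ∈ Set.Ioc 0 g
    · by_cases h3 : s < q r
      · simp [Set.indicator, h3]
      · simp [Set.indicator, h3]
    · simp [Set.indicator, h2]
  rw [h1]
  set S := Set.Ioc 0 g ∩ {r | s < q r} with hS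
  rcases S.eq_empty_or_nonempty with he | ⟨r0, hr0⟩
  · rw [he]; simp
  · have hbdd : BddAbove S := ⟨g, fun r hr => hr.1.2⟩
    set c := sSup S with hc
    have hc0 : 0 < c := hr0.1.1.trans_le (le_csSup hbdd hr0)
    have hcg : c ≤ g := csSup_le ⟨r0, hr0⟩ fun r hr => hr.1.2
    have hsub1 : S ⊆ Set.Ioc 0 c := fun r hr => ⟨hr.1.1, le_csSup hbdd hr⟩
    have hsub2 : Set.Ioo 0 c ⊆ S := by
      intro r hr
      obtain ⟨t, ht, hrt⟩ := exists_lt_of_lt_csSup ⟨r0, hr0⟩ hr.2
      exact ⟨⟨hr.1, hrt.le.trans ht.1.2⟩, lt_of_lt_of_le ht.2 (hq hrt.le)⟩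
    have hae : S =ᵐ[volume] Set.Ioc 0 c := by
      refine Filter.EventuallyLE.antisymm (Filter.Eventually.of_forall hsub1) ?_
      exact (Ioo_ae_eq_Ioc (μ := volume) (a := (0 : ℝ)) (b := c)).symm.le.trans
        (Filter.Eventually.of_forall hsub2)
    rw [setIntegral_congr_set hae, ← intervalIntegral.integral_of_le hc0.le,
      intervalIntegral.integral_eq_sub_of_hasDerivAt (fun x _ => hl x)
        (hl'.intervalIntegrable _ _), hl0, sub_zero]
    exact hpos c ⟨hc0.le, hcg⟩

/-- layer cake -/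
private lemma wt_layer {g Q : ℝ} {q l l' : ℝ → ℝ} (hg : 0 ≤ g) (hq : Antitone q)
    (hq0 : ∀ r, 0 ≤ q r) (hQ : ∀ r, q r ≤ Q)
    (hl : ∀ r, HasDerivAt l (l' r) r) (hl' : Continuous l') (hl0 : l 0 = 0)
    (hpos : ∀ r ∈ Set.Icc 0 g, 0 ≤ l r) :
    0 ≤ ∫ r in (0 : ℝ)..g, l' r * q r := by
  rw [intervalIntegral.integral_of_le hg]
  obtain ⟨C, hC⟩ := (isCompact_Icc (a := (0 : ℝ)) (b := g)).exists_bound_of_continuousOn
    hl'.continuousOn
  have h1 : ∀ r, l' r * q r = ∫ s in Set.Ioc 0 Q, (if s < q r then l' r else 0) := by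
    intro r
    have h2 : ∫ s in Set.Ioc 0 Q, (if s < q r then l' r else 0)
        = ∫ s in Set.Ioo 0 (q r), l' r := by
      rw [← integral_indicator measurableSet_Ioc, ← integral_indicator measurableSet_Ioo]
      refine integral_congr_ae (Filter.Eventually.of_forall fun s => ?_)
      by_cases h3 : s < q r
      · by_cases h4 : 0 < s
        · have h5 : s ≤ Q := h3.le.trans (hQ r)
          simp [Set.indicator, h3, h4, h5]
        · simp [Set.indicator, h4]
      · simp [Set.indicator, h3]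
    rw [h2, setIntegral_const]
    simp [measureReal_def, Real.volume_Ioo, ENNReal.toReal_ofReal (hq0 r), mul_comm]
  simp_rw [h1]
  rw [integral_integral_swap]
  · exact integral_nonneg fun s => wt_piece hq hl hl' hl0 hpos
  · have hmeas : Measurable (Function.uncurry fun r s : ℝ => if s < q r then l' r else 0) := by
      refine Measurable.ite ?_ (hl'.measurable.comp measurable_fst) measurable_const
      exact measurableSet_lt measurable_snd (hq.measurable.comp measurable_fst)
    refine Integrable.of_bound hmeas.aestronglyMeasurable C ?_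
    rw [Measure.prod_restrict]
    refine (ae_restrict_iff' (measurableSet_Ioc.prod measurableSet_Ioc)).2
      (Filter.Eventually.of_forall ?_)
    rintro ⟨r, s⟩ ⟨hr, -⟩
    simp only [Function.uncurry]
    have h2 := hC r ⟨hr.1.le, hr.2⟩
    split_ifs
    · exact h2
    · rw [norm_zero]; exact (norm_nonneg _).trans h2

theorem weight {g : ℝ} {w : ℝ → ℝ} (h : Prof g w) {P P1 P2 : ℝ → ℝ}
    (h1 : ∀ r, HasDerivAt P (P1 r) r) (h2 : ∀ r, HasDerivAt P1 (P2 r) r) (hc : Continuous P2)
    (hz : P 0 = 0) (hg : P g = 0) (hm : ∀ r ∈ Set.Icc 0 g, r * P1 r ≤ P r) :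
    ∫ r in (0 : ℝ)..g, r * P r ≤ ∫ r in (0 : ℝ)..g, w r * (r * (P r + P2 r)) := by
  have hg0 := h.pos
  obtain ⟨B, hB⟩ := h.bdd
  have hB0 : 0 ≤ B := (h.nonneg (g / 2) ⟨by linarith, by linarith⟩).trans
    (hB (g / 2) ⟨by linarith, by linarith⟩)
  -- a global antitone version of `w`
  set wt : ℝ → ℝ := fun r => if r ≤ 0 then B else if r < g then w r else 0 with hwt
  have hwt1 : ∀ r ∈ Set.Ioo 0 g, wt r = w r := by
    intro r hr; simp [hwt, not_le.2 hr.1, hr.2]
  have hwt0 : ∀ r, 0 ≤ wt r := by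
    intro r
    simp only [hwt]
    split_ifs with ha hb
    · exact hB0
    · exact h.nonneg r ⟨not_le.1 ha, hb⟩
    · exact le_rfl
  have hwtB : ∀ r, wt r ≤ B := by
    intro r
    simp only [hwt]
    split_ifs with ha hb
    · exact le_rfl
    · exact hB r ⟨not_le.1 ha, hb⟩
    · exact hB0
  have hwta : Antitone wt := by
    intro a b hab
    by_cases ha : a ≤ 0
    · have : wt a = B := by simp [hwt, ha]
      rw [this]; exact hwtB b
    · by_cases hb : b < g
      · rw [hwt1 a ⟨not_le.1 ha, hab.trans_lt hb⟩, hwt1 b ⟨(not_le.1 ha).trans_le hab, hb⟩]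
        exact h.anti ⟨not_le.1 ha, hab.trans_lt hb⟩ ⟨(not_le.1 ha).trans_le hab, hb⟩ hab
      · have : wt b = 0 := by
          have hb0 : ¬ b ≤ 0 := not_le.2 ((not_le.1 ha).trans_le hab)
          simp [hwt, hb0, hb]
        rw [this]; exact hwt0 a
  have hwtm : Measurable wt := hwta.measurable
  have hwti : ∀ a b : ℝ, IntervalIntegrable wt volume a b := fun a b => hwta.intervalIntegrable
  -- replace `w` by `wt`
  have hcongr : ∀ (f : ℝ → ℝ → ℝ) (r : ℝ), 0 ≤ r → r ≤ g →
      ∫ x in (0 : ℝ)..r, f (w x) x = ∫ x in (0 : ℝ)..r, f (wt x) x := by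
    intro f r hr0 hrg
    rw [intervalIntegral.integral_of_le hr0, intervalIntegral.integral_of_le hr0,
      integral_Ioc_eq_integral_Ioo, integral_Ioc_eq_integral_Ioo]
    refine setIntegral_congr_fun measurableSet_Ioo fun x hx => ?_
    rw [hwt1 x ⟨hx.1, hx.2.trans_le hrg⟩]
  set G : ℝ → ℝ := fun r => ∫ x in (0 : ℝ)..r, (wt x - 1) * x ^ 2 with hG
  have hflG : ∀ r, 0 ≤ r → r ≤ g → fl w r = G r := fun r hr0 hrg =>
    hcongr (fun a x => (a - 1) * x ^ 2) r hr0 hrg
  have hint2 : ∀ a b : ℝ, IntervalIntegrable (fun x => (wt x - 1) * x ^ 2) volume a b := fun a b =>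
    ((hwti a b).sub intervalIntegrable_const).mul_continuousOn (by fun_prop)
  have hGc : Continuous G := intervalIntegral.continuous_primitive hint2 0
  have hG0 : G 0 = 0 := by simp [hG]
  have hGb : ∀ r, 0 ≤ r → r ≤ g → |G r| ≤ (B + 1) * r ^ 3 := by
    intro r hr0 hrg
    have h3 : ‖∫ x in (0 : ℝ)..r, (wt x - 1) * x ^ 2‖ ≤ ((B + 1) * r ^ 2) * |r - 0| := by
      refine intervalIntegral.norm_integral_le_of_norm_le_const fun x hx => ?_
      rw [Set.uIoc_of_le hr0] at hx
      rw [norm_mul, Real.norm_eq_abs, Real.norm_eq_abs]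
      have h4 : |wt x - 1| ≤ B + 1 := by
        rw [abs_le]; constructor <;> linarith [hwt0 x, hwtB x]
      have h5 : |x ^ 2| ≤ r ^ 2 := by
        rw [abs_of_nonneg (sq_nonneg x)]
        exact pow_le_pow_left₀ hx.1.le hx.2 2
      exact mul_le_mul h4 h5 (abs_nonneg _) (by linarith)
    rw [sub_zero, abs_of_nonneg hr0] at h3
    calc |G r| ≤ (B + 1) * r ^ 2 * r := h3
      _ = (B + 1) * r ^ 3 := by ring
  -- the function `F = G / x ^ 2`
  set F : ℝ → ℝ := fun x => G x / x ^ 2 with hF
  have hFm : Measurable F := hGc.measurable.div (measurable_id.pow_const 2)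
  have hFb : ∀ x, 0 < x → x ≤ g → |F x| ≤ (B + 1) * g := by
    intro x hx0 hxg
    rw [hF]
    simp only
    rw [abs_div, abs_of_pos (pow_pos hx0 2), div_le_iff₀ (pow_pos hx0 2)]
    calc |G x| ≤ (B + 1) * x ^ 3 := hGb x hx0.le hxg
      _ = (B + 1) * x * x ^ 2 := by ring
      _ ≤ (B + 1) * g * x ^ 2 := by
        refine mul_le_mul_of_nonneg_right ?_ (sq_nonneg x)
        exact mul_le_mul_of_nonneg_left hxg (by linarith)
  have hFi : IntervalIntegrable F volume 0 g := by
    rw [intervalIntegrable_iff_integrableOn_Ioc_of_le hg0.le]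
    refine Integrable.of_bound hFm.aestronglyMeasurable ((B + 1) * g) ?_
    refine (ae_restrict_iff' measurableSet_Ioc).2 (Filter.Eventually.of_forall fun x hx => ?_)
    exact hFb x hx.1 hx.2
  have hFi' : ∀ a b : ℝ, a ∈ Set.Icc 0 g → b ∈ Set.Icc 0 g → IntervalIntegrable F volume a b := by
    intro a b ha hb
    refine hFi.mono_set ?_
    rw [Set.uIcc_of_le hg0.le]
    exact Set.uIcc_subset_Icc ha hb
  have hFc : ∀ x, 0 < x → ContinuousAt F x := by
    intro x hx
    exact (hGc.continuousAt).div (continuousAt_id.pow 2) (pow_pos hx 2).ne'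
  -- the tail integral
  set H : ℝ → ℝ := fun r => ∫ x in r..g, F x with hH
  have hHg : H g = 0 := by simp [hH]
  have hHd : ∀ r ∈ Set.Ioo 0 g, HasDerivAt H (- F r) r := by
    intro r hr
    exact intervalIntegral.integral_hasDerivAt_left (hFi' r g ⟨hr.1.le, hr.2.le⟩ ⟨hg0.le, le_rfl⟩)
      (hFm.stronglyMeasurable.stronglyMeasurableAtFilter) (hFc r hr.1)
  have hHc : ContinuousOn H (Set.Icc 0 g) := by
    have h3 : ContinuousOn (fun r => ∫ x in (0 : ℝ)..r, F x) (Set.Icc 0 g) := by
      have := intervalIntegral.continuousOn_primitive_interval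
        (f := F) (μ := volume) (a := 0) (b := g) (by
          rw [Set.uIcc_of_le hg0.le]
          exact (intervalIntegrable_iff_integrableOn_Icc_of_le hg0.le).1 hFi)
      rwa [Set.uIcc_of_le hg0.le] at this
    have h4 : ∀ r ∈ Set.Icc 0 g, H r = (∫ x in (0 : ℝ)..g, F x) - ∫ x in (0 : ℝ)..r, F x := by
      intro r hr
      have := intervalIntegral.integral_add_adjacent_intervals
        (hFi' 0 r ⟨le_rfl, hg0.le⟩ hr) (hFi' r g hr ⟨hg0.le, le_rfl⟩)
      simp only [hH]; linarith
    exact (continuousOn_const.sub h3).congr h4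
  obtain ⟨Q0, hQ0⟩ := (isCompact_Icc (a := (0 : ℝ)) (b := g)).exists_bound_of_continuousOn hHc
  have hQ00 : 0 ≤ Q0 := (norm_nonneg _).trans (hQ0 0 ⟨le_rfl, hg0.le⟩)
  -- the function `q`
  have hqanti : ∀ a b : ℝ, 0 < a → a ≤ b → b < g → H b - w b ≤ H a - w a := by
    intro a b ha hab hb
    have h3 := h.key a b ha hab hb
    have h4 : ∫ x in a..b, fl w x / x ^ 2 = ∫ x in a..b, F x := by
      refine intervalIntegral.integral_congr fun x hx => ?_
      rw [Set.uIcc_of_le hab] at hx
      simp only [hF]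
      rw [hflG x (ha.le.trans hx.1) (hx.2.trans hb.le)]
    have h5 := intervalIntegral.integral_add_adjacent_intervals
        (hFi' a b ⟨ha.le, hab.trans hb.le⟩ ⟨ha.le.trans hab, hb.le⟩)
        (hFi' b g ⟨ha.le.trans hab, hb.le⟩ ⟨hg0.le, le_rfl⟩)
    rw [h4] at h3
    simp only [hH]
    linarith
  have hqlim : Tendsto (fun r => H r - w r) (𝓝[<] g) (𝓝 0) := by
    have h3 : Tendsto H (𝓝[<] g) (𝓝 (H g)) := by
      have h4 := hHc g ⟨hg0.le, le_rfl⟩
      refine h4.tendsto.mono_left ?_
      have h5 : 𝓝[<] g = 𝓝[Set.Ioo 0 g] g := by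
        rw [nhdsWithin_Ioo_eq_nhdsLT hg0]
      rw [h5]
      exact nhdsWithin_mono _ Set.Ioo_subset_Icc_self
    rw [hHg] at h3
    simpa using h3.sub h.lim
  have hqnn : ∀ r ∈ Set.Ioo 0 g, 0 ≤ H r - w r := by
    intro r hr
    refine le_of_tendsto hqlim ?_
    filter_upwards [Ioo_mem_nhdsLT hr.2] with r1 hr1
    exact hqanti r r1 hr.1 hr1.1.le hr1.2
  set q : ℝ → ℝ := fun r => if r ≤ 0 then Q0 else if r < g then H r - w r else 0 with hq
  have hq1 : ∀ r ∈ Set.Ioo 0 g, q r = H r - w r := by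
    intro r hr; simp [hq, not_le.2 hr.1, hr.2]
  have hq0 : ∀ r, 0 ≤ q r := by
    intro r
    simp only [hq]
    split_ifs with ha hb
    · exact hQ00
    · exact hqnn r ⟨not_le.1 ha, hb⟩
    · exact le_rfl
  have hqQ : ∀ r, q r ≤ Q0 := by
    intro r
    simp only [hq]
    split_ifs with ha hb
    · exact le_rfl
    · have h3 := (le_abs_self _).trans (hQ0 r ⟨(not_le.1 ha).le, hb.le⟩)
      have h4 := h.nonneg r ⟨not_le.1 ha, hb⟩
      linarith
    · exact hQ00
  have hqa : Antitone q := by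
    intro a b hab
    by_cases ha : a ≤ 0
    · have : q a = Q0 := by simp [hq, ha]
      rw [this]; exact hqQ b
    · by_cases hb : b < g
      · rw [hq1 a ⟨not_le.1 ha, hab.trans_lt hb⟩, hq1 b ⟨(not_le.1 ha).trans_le hab, hb⟩]
        exact hqanti a b (not_le.1 ha) hab hb
      · have : q b = 0 := by
          have hb0 : ¬ b ≤ 0 := not_le.2 ((not_le.1 ha).trans_le hab)
          simp [hq, hb0, hb]
        rw [this]; exact hq0 a
  -- the linear form `l`
  set l : ℝ → ℝ := fun r => P r - r * P1 r with hl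
  have hld : ∀ r, HasDerivAt l (-(r * P2 r)) r := by
    intro r
    exact ((h1 r).sub ((hasDerivAt_id r).mul (h2 r))).congr_deriv (by simp only [id]; ring)
  have hPc : Continuous P := continuous_iff_continuousAt.2 fun r => (h1 r).continuousAt
  have hP1c : Continuous P1 := continuous_iff_continuousAt.2 fun r => (h2 r).continuousAt
  have hlc : Continuous l := hPc.sub (continuous_id.mul hP1c)
  have hl0 : l 0 = 0 := by simp [hl, hz]
  have hlpos : ∀ r ∈ Set.Icc 0 g, 0 ≤ l r := fun r hr => by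
    have := hm r hr; simp only [hl]; linarith
  have hl'c : Continuous fun r => -(r * P2 r) := by fun_prop
  have hmain := wt_layer hg0.le hqa hq0 hqQ hld hl'c hl0 hlpos
  -- rewrite the integral of `l' q`
  have hHi : IntervalIntegrable H volume 0 g := by
    refine ContinuousOn.intervalIntegrable ?_
    rwa [Set.uIcc_of_le hg0.le]
  have hI1 : ∫ r in (0 : ℝ)..g, -(r * P2 r) * q r
      = (∫ r in (0 : ℝ)..g, -(r * P2 r) * H r) - ∫ r in (0 : ℝ)..g, -(r * P2 r) * wt r := by
    rw [← intervalIntegral.integral_sub (hHi.continuousOn_mul hl'c.continuousOn)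
      ((hwti 0 g).continuousOn_mul hl'c.continuousOn)]
    rw [intervalIntegral.integral_of_le hg0.le, intervalIntegral.integral_of_le hg0.le,
      integral_Ioc_eq_integral_Ioo, integral_Ioc_eq_integral_Ioo]
    refine setIntegral_congr_fun measurableSet_Ioo fun x hx => ?_
    rw [hq1 x hx, hwt1 x hx]; ring
  -- first integration by parts
  have hI2 : ∫ r in (0 : ℝ)..g, (-(r * P2 r) * H r + l r * (- F r)) = 0 := by
    have h3 := integral_eq_of_hasDerivAt_off_countable_of_le (fun r => l r * H r)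
      (fun r => -(r * P2 r) * H r + l r * (- F r)) hg0.le Set.countable_empty
      (hlc.continuousOn.mul hHc)
      (fun x hx => (hld x).mul (hHd x hx.1))
      ((hHi.continuousOn_mul hl'c.continuousOn).add
        ((hFi.neg).continuousOn_mul hlc.continuousOn))
    rw [h3, hl0, hHg]; simp
  -- second integration by parts
  set V : ℝ → ℝ := dslope P 0 with hV
  have hVx : ∀ x, x ≠ 0 → V x = P x / x := by
    intro x hx
    rw [hV, dslope_of_ne _ hx, slope_def_field, hz]; simp
  have hVc : ContinuousOn V (Set.Icc 0 g) := by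
    intro x hx
    refine ContinuousAt.continuousWithinAt ?_
    rcases eq_or_ne x 0 with rfl | hx0
    · exact continuousAt_dslope_same.2 (h1 0).differentiableAt
    · exact (continuousAt_dslope_of_ne hx0).2 hPc.continuousAt
  have hVd : ∀ x, 0 < x → HasDerivAt V (-(l x / x ^ 2)) x := by
    intro x hx
    have h3 : HasDerivAt (fun y => P y / y) (-(l x / x ^ 2)) x := by
      refine ((h1 x).div (hasDerivAt_id x) hx.ne').congr_deriv ?_
      simp only [id, hl]; field_simp; ring
    refine h3.congr_of_eventuallyEq ?_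
    filter_upwards [lt_mem_nhds hx] with y hy
    exact hVx y (ne_of_gt hy)
  have hVg : V g = 0 := by rw [hVx g hg0.ne', hg]; simp
  have hcount : Set.Countable {x : ℝ | ¬ ContinuousAt wt x} := hwta.countable_not_continuousAt
  have hGd : ∀ x, ContinuousAt wt x → HasDerivAt G ((wt x - 1) * x ^ 2) x := by
    intro x hx
    refine intervalIntegral.integral_hasDerivAt_right (hint2 0 x) ?_ ?_
    · exact ((hwtm.sub measurable_const).mul
        (measurable_id.pow_const 2)).stronglyMeasurable.stronglyMeasurableAtFilter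
    · exact (hx.sub continuousAt_const).mul (continuousAt_id.pow 2)
  have hI3 : ∫ x in (0 : ℝ)..g, ((wt x - 1) * x ^ 2 * V x + G x * (-(l x / x ^ 2))) = 0 := by
    have hi1 : IntervalIntegrable (fun x => (wt x - 1) * x ^ 2 * V x) volume 0 g :=
      (hint2 0 g).mul_continuousOn (by rwa [Set.uIcc_of_le hg0.le])
    have hi2 : IntervalIntegrable (fun x => G x * (-(l x / x ^ 2))) volume 0 g := by
      have : (fun x => G x * (-(l x / x ^ 2))) = fun x => (- l x) * F x := by
        funext x; simp only [hF]; ring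
      rw [this]
      exact hFi.continuousOn_mul hlc.neg.continuousOn
    have h3 := integral_eq_of_hasDerivAt_off_countable_of_le (fun r => G r * V r)
      (fun x => (wt x - 1) * x ^ 2 * V x + G x * (-(l x / x ^ 2))) hg0.le hcount
      (hGc.continuousOn.mul hVc)
      (fun x hx => (hGd x (by simpa using hx.2)).mul (hVd x hx.1.1))
      (hi1.add hi2)
    rw [h3, hG0, hVg]; simp
  have hI3' : ∫ x in (0 : ℝ)..g, (wt x - 1) * (x * P x) = ∫ x in (0 : ℝ)..g, l x * F x := by
    have h3 : ∫ x in (0 : ℝ)..g, ((wt x - 1) * x ^ 2 * V x + G x * (-(l x / x ^ 2)))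
        = ∫ x in (0 : ℝ)..g, ((wt x - 1) * (x * P x) - l x * F x) := by
      rw [intervalIntegral.integral_of_le hg0.le, intervalIntegral.integral_of_le hg0.le]
      refine setIntegral_congr_fun measurableSet_Ioc fun x hx => ?_
      simp only [hF]
      rw [hVx x hx.1.ne']
      have := hx.1.ne'
      field_simp
      ring
    rw [h3, intervalIntegral.integral_sub] at hI3
    · linarith
    · have hx : Continuous fun x => x * P x := continuous_id.mul hPc
      exact ((hwti 0 g).sub intervalIntegrable_const).mul_continuousOn hx.continuousOn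
    · exact hFi.continuousOn_mul hlc.continuousOn
  have hI2' : ∫ r in (0 : ℝ)..g, -(r * P2 r) * H r = ∫ x in (0 : ℝ)..g, l x * F x := by
    have h3 : ∫ r in (0 : ℝ)..g, (-(r * P2 r) * H r + l r * (- F r))
        = ∫ r in (0 : ℝ)..g, (-(r * P2 r) * H r - l r * F r) := by
      refine intervalIntegral.integral_congr fun x _ => ?_
      ring
    rw [h3, intervalIntegral.integral_sub (hHi.continuousOn_mul hl'c.continuousOn)
      (hFi.continuousOn_mul hlc.continuousOn)] at hI2
    linarith
  have hxP : Continuous fun x => x * P x := continuous_id.mul hPc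
  have hxP2 : Continuous fun x => x * (P x + P2 x) := continuous_id.mul (hPc.add hc)
  have hfin : ∫ r in (0 : ℝ)..g, w r * (r * (P r + P2 r))
      = ∫ r in (0 : ℝ)..g, wt r * (r * (P r + P2 r)) :=
    hcongr (fun a x => a * (x * (P x + P2 x))) g hg0.le le_rfl
  have hfin2 : ∫ r in (0 : ℝ)..g, wt r * (r * (P r + P2 r))
      = (∫ x in (0 : ℝ)..g, (wt x - 1) * (x * P x)) + (∫ r in (0 : ℝ)..g, r * P r)
        - ∫ r in (0 : ℝ)..g, -(r * P2 r) * wt r := by
    rw [← intervalIntegral.integral_add, ← intervalIntegral.integral_sub]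
    · refine intervalIntegral.integral_congr fun x _ => ?_
      ring
    · exact (((hwti 0 g).sub intervalIntegrable_const).mul_continuousOn hxP.continuousOn).add
        (hxP.intervalIntegrable _ _)
    · exact (hwti 0 g).continuousOn_mul hl'c.continuousOn
    · exact ((hwti 0 g).sub intervalIntegrable_const).mul_continuousOn hxP.continuousOn
    · exact hxP.intervalIntegrable _ _
  rw [hfin, hfin2]
  rw [hI1] at hmain
  linarith

end Pool.H56.PO
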